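import Pool.Agent.R583.UR.Atoms

/-!
# Amalgamation of small trees without infinite branches
-/

namespace Pool.Agent.R583.UR

universe u

open U

open scoped Classical in
/-- There are many disjoint copies of a small set of indices. -/
theorem exists_tags (α : Type u) (S : Set Idx.{u}) (hS : Small.{u} S) :
    ∃ τ : α → Idx.{u} → Idx.{u}, (∀ x i, τ x (τ x i) = i) ∧ (∀ x, ∀ i ∈ S, τ x i ∉ S) ∧
      ∀ x y, ∀ i ∈ S, ∀ j ∈ S, τ x i = τ y j → x = y := by
  have h1 : ¬ Small.{u} (Sᶜ : Set Idx.{u}) := by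
    intro h
    have h2 : Small.{u} (Set.univ : Set Idx.{u}) := by
      rw [← Set.union_compl_self S]
      infer_instance
    exact not_small_ordinal.{u} (small_of_injective (β := (Set.univ : Set Idx.{u}))
      (f := fun a => ⟨a, trivial⟩) fun a b h => congrArg Subtype.val h)
  have h2 : Nonempty (Shrink.{u} (α × S) ↪ (Sᶜ : Set Idx.{u})) := by
    rcases le_total (Cardinal.lift.{u+1} (Cardinal.mk (Shrink.{u} (α × S))))
      (Cardinal.lift.{u} (Cardinal.mk (Sᶜ : Set Idx.{u}))) with h | h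
    · exact Cardinal.lift_mk_le'.1 h
    · obtain ⟨f⟩ := Cardinal.lift_mk_le'.1 h
      exact (h1 (small_of_injective f.injective)).elim
  obtain ⟨g₀⟩ := h2
  set g : α → S → Idx.{u} := fun x i => (g₀ (equivShrink _ (x, i))).1 with hg
  have g1 : ∀ x i, g x i ∉ S := fun x i => (g₀ _).2
  have g2 : ∀ x y i j, g x i = g y j → x = y ∧ i = j := by
    intro x y i j h
    have := (equivShrink _).injective (g₀.injective (Subtype.ext h))
    exact ⟨congrArg Prod.fst this, congrArg Prod.snd this⟩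
  refine ⟨fun x j => if h : j ∈ S then g x ⟨j, h⟩ else if h : ∃ i : S, g x i = j then h.choose.1
    else j, fun x j => ?_, fun x i hi => ?_, fun x y i hi j hj h => ?_⟩
  · by_cases h : j ∈ S
    · have h3 : ∃ i : S, g x i = g x ⟨j, h⟩ := ⟨_, rfl⟩
      simp only [h, dite_true, g1, dite_false, h3]
      exact congrArg Subtype.val (g2 _ _ _ _ h3.choose_spec).2
    · by_cases h3 : ∃ i : S, g x i = j
      · simp only [h, h3, dite_true, dite_false, Subtype.prop]
        exact h3.choose_spec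
      · simp only [h, h3, dite_false]
  · simp only [hi, dite_true]
    exact g1 _ _
  · simp only [hi, hj, dite_true] at h
    exact (g2 _ _ _ _ h).1

open scoped Classical in
/-- Move the first index whose node is outside of the tree. -/
noncomputable def nu (τ : Idx.{u} → Idx.{u}) : Atm.{u} → Set (List Idx.{u}) → Atm.{u}
  | [], _ => []
  | c :: l, E => if [c.1] ∈ E then c :: nu τ l {s | c.1 :: s ∈ E}
      else if [τ c.1] ∈ E then c :: l else (τ c.1, c.2) :: l

theorem nu_nil {τ : Idx.{u} → Idx.{u}} {E : Set (List Idx.{u})} : nu τ [] E = [] := rfl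

theorem nu_in {τ : Idx.{u} → Idx.{u}} {E : Set (List Idx.{u})} {c : Idx.{u} × ℕ} {l : Atm.{u}}
    (h : [c.1] ∈ E) : nu τ (c :: l) E = c :: nu τ l {s | c.1 :: s ∈ E} := by
  rw [nu, if_pos h]

theorem nu_stay {τ : Idx.{u} → Idx.{u}} {E : Set (List Idx.{u})} {c : Idx.{u} × ℕ} {l : Atm.{u}}
    (h : [c.1] ∉ E) (h' : [τ c.1] ∈ E) : nu τ (c :: l) E = c :: l := by
  rw [nu, if_neg h, if_pos h']

theorem nu_out {τ : Idx.{u} → Idx.{u}} {E : Set (List Idx.{u})} {c : Idx.{u} × ℕ} {l : Atm.{u}}
    (h : [c.1] ∉ E) (h' : [τ c.1] ∉ E) : nu τ (c :: l) E = (τ c.1, c.2) :: l := by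
  rw [nu, if_neg h, if_neg h']

theorem nu_nu {τ : Idx.{u} → Idx.{u}} (hτ : ∀ i, τ (τ i) = i) (a : Atm.{u}) :
    ∀ E, nu τ (nu τ a E) E = a := by
  induction a with
  | nil => exact fun _ => rfl
  | cons c l ih =>
    intro E
    by_cases h : [c.1] ∈ E
    · rw [nu_in h, nu_in h, ih]
    · by_cases h' : [τ c.1] ∈ E
      · rw [nu_stay h h', nu_stay h h']
      · rw [nu_out h h']
        have h2 : [τ (τ c.1, c.2).1] ∉ E := by
          show [τ (τ c.1)] ∉ E
          rwa [hτ]
        rw [nu_out (c := (τ c.1, c.2)) h' h2]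
        show (τ (τ c.1), c.2) :: l = _
        rw [hτ]

theorem nu_prefix {τ : Idx.{u} → Idx.{u}} (a : Atm.{u}) :
    ∀ b E, a <+: b → nu τ a E <+: nu τ b E := by
  induction a with
  | nil => exact fun _ _ _ => List.nil_prefix
  | cons c l ih =>
    intro b E hb
    cases b with
    | nil => simp at hb
    | cons d l' =>
      obtain ⟨rfl, hb'⟩ := List.cons_prefix_cons.1 hb
      by_cases h : [c.1] ∈ E
      · rw [nu_in h, nu_in h]
        exact List.cons_prefix_cons.2 ⟨rfl, ih _ _ hb'⟩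
      · by_cases h' : [τ c.1] ∈ E
        · rw [nu_stay h h', nu_stay h h']
          exact hb
        · rw [nu_out h h', nu_out h h']
          exact List.cons_prefix_cons.2 ⟨rfl, hb'⟩

theorem length_nu {τ : Idx.{u} → Idx.{u}} (a : Atm.{u}) : ∀ E, (nu τ a E).length = a.length := by
  induction a with
  | nil => exact fun _ => rfl
  | cons c l ih =>
    intro E
    by_cases h : [c.1] ∈ E
    · rw [nu_in h, List.length_cons, List.length_cons, ih]
    · by_cases h' : [τ c.1] ∈ E
      · rw [nu_stay h h']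
      · rw [nu_out h h', List.length_cons, List.length_cons]

theorem node_nu {τ : Idx.{u} → Idx.{u}} (a : Atm.{u}) :
    ∀ b E, node a = node b → node (nu τ a E) = node (nu τ b E) := by
  induction a with
  | nil =>
    intro b E hb
    cases b with
    | nil => rfl
    | cons d l' => simp at hb
  | cons c l ih =>
    intro b E hb
    cases b with
    | nil => simp at hb
    | cons d l' =>
      rw [node_cons, node_cons, List.cons.injEq] at hb
      obtain ⟨h1, h2⟩ := hb
      by_cases h : [c.1] ∈ E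
      · rw [nu_in h, nu_in (by rwa [← h1]), node_cons, node_cons, h1, ← h1, ih _ _ h2]
      · by_cases h' : [τ c.1] ∈ E
        · rw [nu_stay h h', nu_stay (by rwa [← h1]) (by rwa [← h1]), node_cons, node_cons, h1, h2]
        · rw [nu_out h h', nu_out (by rwa [← h1]) (by rwa [← h1]), node_cons, node_cons, h1, h2]

/-- Nonempty and closed under prefixes. -/
def PC (E : Set (List Idx.{u})) : Prop := [] ∈ E ∧ ∀ s t, s <+: t → t ∈ E → s ∈ E

theorem PC.sub {E : Set (List Idx.{u})} (hE : PC E) {i : Idx.{u}} (hi : [i] ∈ E) :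
    PC {s | i :: s ∈ E} :=
  ⟨hi, fun _ _ h h' => hE.2 _ _ (List.cons_prefix_cons.2 ⟨rfl, h⟩) h'⟩

theorem nu_fix {τ : Idx.{u} → Idx.{u}} (a : Atm.{u}) :
    ∀ E, PC E → node a ∈ E → nu τ a E = a := by
  induction a with
  | nil => exact fun _ _ _ => rfl
  | cons c l ih =>
    intro E hE ha
    have h : [c.1] ∈ E := hE.2 _ _ (by simp) ha
    rw [nu_in h, ih _ (hE.sub h) ha]

open scoped Classical in
/-- The first index whose node is outside of the tree. -/
noncomputable def ex : List Idx.{u} → Set (List Idx.{u}) → Option Idx.{u}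
  | [], _ => none
  | i :: s, E => if [i] ∈ E then ex s {t | i :: t ∈ E} else some i

theorem ex_in {E : Set (List Idx.{u})} {i : Idx.{u}} {s : List Idx.{u}}
    (h : [i] ∈ E) : ex (i :: s) E = ex s {t | i :: t ∈ E} := by
  rw [ex, if_pos h]

theorem ex_out {E : Set (List Idx.{u})} {i : Idx.{u}} {s : List Idx.{u}}
    (h : [i] ∉ E) : ex (i :: s) E = some i := by
  rw [ex, if_neg h]

theorem ex_eq_none (s : List Idx.{u}) : ∀ E, PC E → (ex s E = none ↔ s ∈ E) := by
  induction s with
  | nil => exact fun E hE => ⟨fun _ => hE.1, fun _ => rfl⟩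
  | cons i s ih =>
    intro E hE
    by_cases h : [i] ∈ E
    · rw [ex_in h, ih _ (hE.sub h)]
      exact Iff.rfl
    · rw [ex_out h]
      exact ⟨fun h => by simp at h, fun h' => (h (hE.2 _ _ (by simp) h')).elim⟩

theorem ex_prefix {c : Idx.{u}} (s : List Idx.{u}) :
    ∀ t E, s <+: t → ex s E = some c → ex t E = some c := by
  induction s with
  | nil => exact fun _ _ _ h => by simp [ex] at h
  | cons i s ih =>
    intro t E ht hs
    cases t with
    | nil => simp at ht
    | cons d l' =>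
      obtain ⟨rfl, ht'⟩ := List.cons_prefix_cons.1 ht
      by_cases h : [i] ∈ E
      · rw [ex_in h] at hs ⊢
        exact ih _ _ ht' hs
      · rw [ex_out h] at hs ⊢
        exact hs

theorem ex_mem {c : Idx.{u}} (s : List Idx.{u}) : ∀ E, ex s E = some c → c ∈ s := by
  induction s with
  | nil => exact fun _ h => by simp [ex] at h
  | cons i s ih =>
    intro E hs
    by_cases h : [i] ∈ E
    · rw [ex_in h] at hs
      exact List.mem_cons_of_mem _ (ih _ hs)
    · rw [ex_out h, Option.some.injEq] at hs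
      subst hs
      simp

theorem ex_nu {τ : Idx.{u} → Idx.{u}} {S : Set Idx.{u}} (hτ : ∀ i ∈ S, τ i ∉ S) (a : Atm.{u}) :
    ∀ E, (∀ s ∈ E, ∀ i ∈ s, i ∈ S) → (∀ i ∈ node a, i ∈ S) →
      ex (node (nu τ a E)) E = (ex (node a) E).map τ := by
  induction a with
  | nil => exact fun _ _ _ => rfl
  | cons c l ih =>
    intro E hE ha
    by_cases h : [c.1] ∈ E
    · rw [nu_in h, node_cons, node_cons, ex_in h, ex_in h, ih]
      · exact fun s hs i hi => hE _ hs i (List.mem_cons_of_mem _ hi)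
      · exact fun i hi => ha i (List.mem_cons_of_mem _ hi)
    · have h1 : c.1 ∈ S := ha _ (by simp)
      have h2 : [τ c.1] ∉ E := fun h => hτ _ h1 (hE _ h _ (by simp))
      rw [nu_out h h2, node_cons, node_cons, ex_out h2, ex_out h]
      rfl

/-- The indices in a tree. -/
def ent (D : Set (List Idx.{u})) : Set Idx.{u} := {i | ∃ s ∈ D, i ∈ s}

theorem small_ent {D : Set (List Idx.{u})} (hD : Small.{u} D) : Small.{u} (ent D) := by
  have := hD
  have h1 : ent D ⊆ ⋃ s : D, {i | i ∈ s.1} := by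
    rintro i ⟨s, hs, hi⟩
    exact Set.mem_iUnion.2 ⟨⟨s, hs⟩, hi⟩
  have h2 : ∀ s : D, Small.{u} {i | i ∈ s.1} := fun s => by
    have := (List.finite_toSet s.1).to_subtype
    infer_instance
  have h3 : Small.{u} (⋃ s : D, {i | i ∈ s.1}) := inferInstance
  exact small_subset h1

/-- An index that does not occur in a tree. -/
theorem exists_fresh {D : Set (List Idx.{u})} (hD : Small.{u} D) : ∃ i, ∀ s ∈ D, i ∉ s := by
  by_contra hcon
  push Not at hcon
  have h1 := small_ent hD
  have h2 : ent D = Set.univ := by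
    ext i
    exact ⟨fun _ => trivial, fun _ => hcon i⟩
  rw [h2] at h1
  exact not_small_ordinal.{u} (small_of_injective (β := (Set.univ : Set Idx.{u}))
      (f := fun a => ⟨a, trivial⟩) fun a b h => congrArg Subtype.val h)

/-- Extend a tree by one index at all nodes. -/
theorem good_ext {D : Set (List Idx.{u})} (hD : Good D) (i : Idx.{u}) :
    Good (D ∪ {s | ∃ t ∈ D, s = t ++ [i]}) := by
  have := hD.small
  have h1 : {s | ∃ t ∈ D, s = t ++ [i]} ⊆ Set.range fun t : D => t.1 ++ [i] := by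
    rintro s ⟨t, ht, rfl⟩
    exact ⟨⟨t, ht⟩, rfl⟩
  have h2 : Small.{u} {s | ∃ t ∈ D, s = t ++ [i]} := small_subset h1
  refine ⟨inferInstance, Or.inl hD.nil, ?_, ?_⟩
  · rintro s t hst (ht | ⟨t, ht, rfl⟩)
    · exact Or.inl (hD.pre _ _ hst ht)
    · rcases List.prefix_concat_iff.1 hst with h | h
      · exact Or.inr ⟨t, ht, h⟩
      · exact Or.inl (hD.pre _ _ h ht)
  · intro f
    obtain ⟨n, hn⟩ := hD.wf f
    refine ⟨n + 1, ?_⟩
    rintro (h | ⟨t, ht, h⟩)
    · exact hD.branch f (Nat.le_succ n) hn h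
    · rw [List.range_succ, List.map_append] at h
      have := List.append_inj_left' h rfl
      exact hn (this ▸ ht)

/-- Amalgamation of a small family of trees over a tree. -/
theorem amalg {α : Type u} {D : Set (List Idx.{u})} (hD : Good D) (E : α → Set (List Idx.{u}))
    (hE : ∀ x, Good (E x)) : ∃ (ν : α → Equiv.Perm Atm.{u}) (F : Set (List Idx.{u})), Good F ∧
      D ⊆ F ∧ ∀ x, IsN (ν x) ∧ (∀ a ∈ B D, ν x a = a) ∧ im (ν x) (E x) ⊆ F := by
  have hDs := hD.small
  have hEs : ∀ x, Small.{u} (ent (E x)) := fun x => small_ent (hE x).small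
  have hDs' := small_ent hD.small
  have hS : Small.{u} (ent D ∪ ⋃ x, ent (E x) : Set Idx.{u}) := inferInstance
  obtain ⟨τ, h1, h2, h3⟩ := exists_tags α _ hS
  set S := (ent D ∪ ⋃ x, ent (E x) : Set Idx.{u}) with hSdef
  have hPC : PC D := ⟨hD.nil, hD.pre⟩
  let ν : α → Equiv.Perm Atm.{u} := fun x =>
    Function.Involutive.toPerm (fun a => nu (τ x) a D) fun a => nu_nu (h1 x) a D
  have hν : ∀ x a, ν x a = nu (τ x) a D := fun _ _ => rfl
  have hνν : ∀ x a, ν x (ν x a) = a := fun x a => nu_nu (h1 x) a D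
  have hN : ∀ x, IsN (ν x) := by
    intro x
    refine ⟨fun a b => ⟨fun h => nu_prefix _ _ _ h, fun h => ?_⟩,
      fun a b => ⟨fun h => node_nu _ _ _ h, fun h => ?_⟩, fun a => length_nu _ _⟩
    · have := nu_prefix (τ := τ x) _ _ D h
      rwa [← hν, ← hν, hνν, hνν] at this
    · have := node_nu (τ := τ x) _ _ D h
      rwa [← hν, ← hν, hνν, hνν] at this
  have hfix : ∀ x, ∀ a ∈ B D, ν x a = a := fun x a ha => nu_fix _ _ hPC ha
  refine ⟨ν, D ∪ ⋃ x, im (ν x) (E x), ?_, Set.subset_union_left, fun x => ⟨hN x, hfix x,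
    (Set.subset_iUnion (fun x => im (ν x) (E x)) x).trans Set.subset_union_right⟩⟩
  have hg : ∀ x, Good (im (ν x) (E x)) := fun x => good_im (hN x) (hE x)
  have hgs : ∀ x, Small.{u} (im (ν x) (E x)) := fun x => (hg x).small
  refine ⟨inferInstance, Or.inl hD.nil, ?_, ?_⟩
  · rintro s t hst (ht | ht)
    · exact Or.inl (hD.pre _ _ hst ht)
    · obtain ⟨x, hx⟩ := Set.mem_iUnion.1 ht
      exact Or.inr (Set.mem_iUnion.2 ⟨x, (hg x).pre _ _ hst hx⟩)
  · intro f
    by_contra hcon
    push Not at hcon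
    obtain ⟨n₀, hn₀⟩ := hD.wf f
    have hlt : ∀ m, n₀ ≤ m → (List.range m).map f ∉ D := fun m hm => hD.branch f hm hn₀
    have hx : ∀ m, n₀ ≤ m → ∃ x, (List.range m).map f ∈ im (ν x) (E x) := by
      intro m hm
      rcases hcon m with h | h
      · exact (hlt m hm h).elim
      · exact Set.mem_iUnion.1 h
    obtain ⟨c, hc⟩ : ∃ c, ex ((List.range n₀).map f) D = some c := by
      rcases h : ex ((List.range n₀).map f) D with _ | c
      · exact (hn₀ ((ex_eq_none _ _ hPC).1 h)).elim
      · exact ⟨c, rfl⟩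
    have hc' : ∀ m, n₀ ≤ m → ex ((List.range m).map f) D = some c := by
      intro m hm
      refine ex_prefix _ _ _ ?_ hc
      refine List.IsPrefix.map _ ?_
      obtain ⟨k, rfl⟩ := Nat.exists_eq_add_of_le hm
      rw [List.range_add]
      exact List.prefix_append _ _
    have key : ∀ m, n₀ ≤ m → ∀ x, (List.range m).map f ∈ im (ν x) (E x) →
        ∃ i ∈ S, τ x i = c := by
      rintro m hm x ⟨a, ha, h4⟩
      have h5 := hc' m hm
      rw [← h4, hν, ex_nu (S := S) (h2 x)] at h5
      · rcases h6 : ex (node a) D with _ | i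
        · rw [h6] at h5
          simp at h5
        · rw [h6] at h5
          refine ⟨i, Or.inr (Set.mem_iUnion.2 ⟨x, _, ha, ex_mem _ _ h6⟩), ?_⟩
          simpa using h5
      · exact fun s hs i hi => Or.inl ⟨s, hs, hi⟩
      · exact fun i hi => Or.inr (Set.mem_iUnion.2 ⟨x, _, ha, hi⟩)
    obtain ⟨x₀, hx₀⟩ := hx n₀ le_rfl
    obtain ⟨i₀, hi₀, e₀⟩ := key n₀ le_rfl x₀ hx₀
    obtain ⟨n, hn⟩ := (hg x₀).wf f
    obtain ⟨x, hx'⟩ := hx (max n n₀) (le_max_right _ _)
    obtain ⟨i, hi, e⟩ := key _ (le_max_right _ _) x hx'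
    obtain rfl := h3 x x₀ i hi i₀ hi₀ (e.trans e₀.symm)
    exact (hg x).branch f (le_max_left n n₀) hn hx'

end Pool.Agent.R583.UR
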