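import Pool.Agent.R583.UR.Univ

/-!
# The urelements, their nodes and the groups
-/

namespace Pool.Agent.R583.UR

universe u

open U

/-- The indices. -/
abbrev Idx : Type (u+1) := Ordinal.{u}

/-- The urelements: finite sequences of pairs of an index and a natural number. -/
abbrev Atm : Type (u+1) := List (Idx.{u} × ℕ)

/-- The node of an urelement. -/
def node (a : Atm.{u}) : List Idx.{u} := a.map Prod.fst

@[simp] theorem node_nil : node ([] : Atm.{u}) = [] := rfl

@[simp] theorem node_cons (c : Idx.{u} × ℕ) (a : Atm.{u}) : node (c :: a) = c.1 :: node a := rfl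

@[simp] theorem node_append (a b : Atm.{u}) : node (a ++ b) = node a ++ node b :=
  List.map_append

@[simp] theorem length_node (a : Atm.{u}) : (node a).length = a.length := List.length_map _

theorem node_prefix {a b : Atm.{u}} (h : a <+: b) : node a <+: node b := List.IsPrefix.map _ h

/-- Small trees without infinite branches. -/
structure Good (D : Set (List Idx.{u})) : Prop where
  small : Small.{u} D
  nil : [] ∈ D
  pre : ∀ s t, s <+: t → t ∈ D → s ∈ D
  wf : ∀ f : ℕ → Idx.{u}, ∃ n, (List.range n).map f ∉ D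

/-- The urelements over a tree. -/
def B (D : Set (List Idx.{u})) : Set Atm.{u} := {a | node a ∈ D}

theorem mem_B {D : Set (List Idx.{u})} {a : Atm.{u}} : a ∈ B D ↔ node a ∈ D := Iff.rfl

theorem small_B {D : Set (List Idx.{u})} (hD : Small.{u} D) : Small.{u} (B D) := by
  have := hD
  refine small_of_injective (β := D × List ℕ) (f := fun a => (⟨node a.1, a.2⟩, a.1.map Prod.snd)) ?_
  rintro ⟨a, ha⟩ ⟨b, hb⟩ h
  have h1 : node a = node b := congrArg (fun q : D × List ℕ => q.1.1) h
  have h2 : a.map Prod.snd = b.map Prod.snd := congrArg (fun q : D × List ℕ => q.2) h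
  refine Subtype.ext ?_
  show a = b
  clear h ha hb
  induction a generalizing b with
  | nil =>
    cases b with
    | nil => rfl
    | cons c b => simp at h1
  | cons c a ih =>
    cases b with
    | nil => simp at h1
    | cons d b =>
      simp only [node_cons, List.cons.injEq, List.map_cons] at h1 h2
      rw [Prod.ext h1.1 h2.1, ih _ h1.2 h2.2]

theorem Good.branch {D : Set (List Idx.{u})} (hD : Good D) (f : ℕ → Idx.{u}) {m n : ℕ}
    (hmn : m ≤ n) (h : (List.range m).map f ∉ D) : (List.range n).map f ∉ D := by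
  refine fun h' => h (hD.pre _ _ ?_ h')
  refine List.IsPrefix.map _ ?_
  obtain ⟨k, rfl⟩ := Nat.exists_eq_add_of_le hmn
  rw [List.range_add]
  exact List.prefix_append _ _

theorem Good.union {D E : Set (List Idx.{u})} (hD : Good D) (hE : Good E) : Good (D ∪ E) := by
  have := hD.small
  have := hE.small
  refine ⟨inferInstance, Or.inl hD.nil, fun s t h ht => ht.imp (hD.pre s t h) (hE.pre s t h), ?_⟩
  intro f
  obtain ⟨n, hn⟩ := hD.wf f
  obtain ⟨m, hm⟩ := hE.wf f
  refine ⟨max n m, ?_⟩
  rintro (h | h)
  · exact hD.branch f (le_max_left _ _) hn h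
  · exact hE.branch f (le_max_right _ _) hm h

theorem good_nil : Good ({[]} : Set (List Idx.{u})) := by
  refine ⟨inferInstance, rfl, ?_, fun f => ⟨1, ?_⟩⟩
  · rintro s t h rfl
    exact List.prefix_nil.1 h
  · simp

/-- The prefixes of a node. -/
theorem good_prefixes (s : List Idx.{u}) : Good {t | t <+: s} := by
  refine ⟨?_, List.nil_prefix, fun a b h hb => h.trans hb, fun f => ⟨s.length + 1, fun h => ?_⟩⟩
  · have : {t | t <+: s} ⊆ Set.range fun n : ℕ => s.take n := by
      intro t ht
      exact ⟨t.length, (List.prefix_iff_eq_take.1 ht).symm⟩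
    exact small_subset this
  · have := List.IsPrefix.length_le h
    simp at this

/-! ### The groups -/

/-- The permutations of the urelements that preserve the prefix order and the partition by nodes. -/
structure IsN (ν : Equiv.Perm Atm.{u}) : Prop where
  pre : ∀ a b, a <+: b ↔ ν a <+: ν b
  nd : ∀ a b, node a = node b ↔ node (ν a) = node (ν b)
  len : ∀ a, (ν a).length = a.length

/-- The permutations of the urelements that preserve the prefix order and the nodes. -/
structure IsG (π : Equiv.Perm Atm.{u}) : Prop where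
  pre : ∀ a b, a <+: b ↔ π a <+: π b
  nd : ∀ a, node (π a) = node a

theorem IsG.isN {π : Equiv.Perm Atm.{u}} (h : IsG π) : IsN π := by
  refine ⟨h.pre, fun a b => ?_, fun a => ?_⟩
  · rw [h.nd, h.nd]
  · rw [← length_node, h.nd, length_node]

theorem IsN.symm {ν : Equiv.Perm Atm.{u}} (h : IsN ν) : IsN ν.symm := by
  refine ⟨fun a b => ?_, fun a b => ?_, fun a => ?_⟩
  · rw [h.pre (ν.symm a), Equiv.apply_symm_apply, Equiv.apply_symm_apply]
  · rw [h.nd (ν.symm a), Equiv.apply_symm_apply, Equiv.apply_symm_apply]
  · rw [← h.len, Equiv.apply_symm_apply]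

theorem IsG.symm {π : Equiv.Perm Atm.{u}} (h : IsG π) : IsG π.symm := by
  refine ⟨fun a b => ?_, fun a => ?_⟩
  · rw [h.pre (π.symm a), Equiv.apply_symm_apply, Equiv.apply_symm_apply]
  · rw [← h.nd, Equiv.apply_symm_apply]

theorem isG_refl : IsG (Equiv.refl Atm.{u}) := ⟨fun _ _ => Iff.rfl, fun _ => rfl⟩

theorem IsG.trans {π σ : Equiv.Perm Atm.{u}} (h : IsG π) (h' : IsG σ) : IsG (π.trans σ) := by
  refine ⟨fun a b => ?_, fun a => ?_⟩
  · rw [h.pre, h'.pre]; rfl
  · show node (σ (π a)) = node a
    rw [h'.nd, h.nd]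

theorem IsN.trans {π σ : Equiv.Perm Atm.{u}} (h : IsN π) (h' : IsN σ) : IsN (π.trans σ) := by
  refine ⟨fun a b => ?_, fun a b => ?_, fun a => ?_⟩
  · rw [h.pre, h'.pre]; rfl
  · rw [h.nd, h'.nd]; rfl
  · show (σ (π a)).length = _
    rw [h'.len, h.len]

theorem IsN.conj {ν π : Equiv.Perm Atm.{u}} (h : IsN ν) (h' : IsG π) :
    IsG ((ν.trans π).trans ν.symm) := by
  refine ⟨fun a b => ?_, fun a => ?_⟩
  · rw [h.pre, h'.pre, h.symm.pre]; rfl
  · show node (ν.symm (π (ν a))) = node a
    rw [h.nd, Equiv.apply_symm_apply, h'.nd]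

/-- The image of a tree under a permutation. -/
def im (ν : Equiv.Perm Atm.{u}) (D : Set (List Idx.{u})) : Set (List Idx.{u}) :=
  {s | ∃ a, node a ∈ D ∧ node (ν a) = s}

theorem map_B {ν : Equiv.Perm Atm.{u}} {D : Set (List Idx.{u})} : ∀ a ∈ B D, ν a ∈ B (im ν D) :=
  fun a ha => ⟨a, ha, rfl⟩

/-- The urelement with zeros over a branch. -/
def zer (f : ℕ → Idx.{u}) (n : ℕ) : Atm.{u} := (List.range n).map fun i => (f i, 0)

theorem node_zer (f : ℕ → Idx.{u}) (n : ℕ) : node (zer f n) = (List.range n).map f := by
  simp [node, zer, Function.comp_def]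

theorem zer_prefix (f : ℕ → Idx.{u}) (n : ℕ) : zer f n <+: zer f (n + 1) := by
  rw [zer, zer, List.range_succ, List.map_append]
  exact List.prefix_append _ _

theorem zer_surj (s : List Idx.{u}) : ∃ a : Atm.{u}, node a = s :=
  ⟨s.map fun i => (i, 0), by simp [node, Function.comp_def]⟩

/-- A chain of urelements gives a branch. -/
theorem exists_branch {c : ℕ → List Idx.{u}} (hc : ∀ n, c n <+: c (n + 1))
    (hl : ∀ n, (c n).length = n) : ∃ g : ℕ → Idx.{u}, ∀ n, (List.range n).map g = c n := by
  refine ⟨fun n => (c (n + 1)).getD n 0, fun n => ?_⟩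
  induction n with
  | zero => exact (List.length_eq_zero_iff.1 (hl 0)).symm
  | succ n ih =>
    rw [List.range_succ, List.map_append, ih]
    obtain ⟨t, ht⟩ := hc n
    have h1 : t.length = 1 := by
      have h2 := congrArg List.length ht
      rw [List.length_append, hl, hl] at h2
      omega
    obtain ⟨i, rfl⟩ := List.length_eq_one_iff.1 h1
    simp only [List.map_cons, List.map_nil]
    rw [← ht]
    congr 2
    rw [List.getD_append_right _ _ _ _ (by rw [hl]), hl, Nat.sub_self]
    rfl

theorem good_im {ν : Equiv.Perm Atm.{u}} (hν : IsN ν) {D : Set (List Idx.{u})} (hD : Good D) :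
    Good (im ν D) := by
  have := small_B hD.small
  refine ⟨?_, ?_, ?_, ?_⟩
  · have : im ν D ⊆ Set.range fun a : B D => node (ν a.1) := by
      rintro s ⟨a, ha, rfl⟩
      exact ⟨⟨a, ha⟩, rfl⟩
    exact small_subset this
  · refine ⟨[], hD.nil, ?_⟩
    have h := hν.len []
    rw [List.length_nil, List.length_eq_zero_iff] at h
    rw [h]; rfl
  · rintro s t hst ⟨a, ha, rfl⟩
    obtain ⟨r, hr⟩ := hst
    have h1 : node ((ν a).take s.length) = s := by
      rw [node, List.map_take]
      have : List.map Prod.fst (ν a) = s ++ r := hr.symm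
      rw [this, List.take_left']
      rfl
    refine ⟨ν.symm ((ν a).take s.length), ?_, by rw [Equiv.apply_symm_apply, h1]⟩
    refine hD.pre _ _ (node_prefix ?_) ha
    rw [hν.pre, Equiv.apply_symm_apply]
    exact List.take_prefix _ _
  · intro f
    by_contra hcon
    push Not at hcon
    have h1 : ∀ n, node (ν.symm (zer f n)) ∈ D := by
      intro n
      obtain ⟨a, ha, h2⟩ := hcon n
      have h3 : node (ν a) = node (ν (ν.symm (zer f n))) := by
        rw [Equiv.apply_symm_apply, node_zer, h2]
      rw [← (hν.nd _ _).2 h3]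
      exact ha
    obtain ⟨g, hg⟩ := exists_branch (c := fun n => node (ν.symm (zer f n)))
      (fun n => node_prefix ((hν.symm.pre _ _).1 (zer_prefix f n)))
      (fun n => by rw [length_node, hν.symm.len, zer, List.length_map, List.length_range])
    obtain ⟨n, hn⟩ := hD.wf g
    exact hn (hg n ▸ h1 n)

/-! ### Swaps -/

/-- The swap of two extensions of an urelement, with the same index. -/
noncomputable def swp (i : Idx.{u}) (n m : ℕ) : Atm.{u} → Atm.{u} → Atm.{u}
  | _, [] => []
  | [], c :: l => Equiv.swap (i, n) (i, m) c :: l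
  | q :: p, c :: l => if c = q then c :: swp i n m p l else c :: l

variable {i : Idx.{u}} {n m : ℕ}

theorem swp_swp (p a : Atm.{u}) : swp i n m p (swp i n m p a) = a := by
  induction p generalizing a with
  | nil =>
    cases a with
    | nil => rfl
    | cons c l => simp [swp]
  | cons q p ih =>
    cases a with
    | nil => rfl
    | cons c l =>
      by_cases h : c = q
      · simp [swp, h, ih]
      · simp [swp, h]

theorem swp_prefix (p : Atm.{u}) {a b : Atm.{u}} (h : a <+: b) :
    swp i n m p a <+: swp i n m p b := by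
  induction p generalizing a b with
  | nil =>
    cases a with
    | nil => simp [swp]
    | cons c l =>
      cases b with
      | nil => simp at h
      | cons d l' =>
        obtain ⟨rfl, h'⟩ := List.cons_prefix_cons.1 h
        simp only [swp]
        exact List.cons_prefix_cons.2 ⟨rfl, h'⟩
  | cons q p ih =>
    cases a with
    | nil => simp [swp]
    | cons c l =>
      cases b with
      | nil => simp at h
      | cons d l' =>
        obtain ⟨rfl, h'⟩ := List.cons_prefix_cons.1 h
        simp only [swp]
        split_ifs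
        · exact List.cons_prefix_cons.2 ⟨rfl, ih h'⟩
        · exact List.cons_prefix_cons.2 ⟨rfl, h'⟩

theorem node_swp (p a : Atm.{u}) : node (swp i n m p a) = node a := by
  induction p generalizing a with
  | nil =>
    cases a with
    | nil => rfl
    | cons c l =>
      simp only [swp, node_cons]
      congr 1
      rcases eq_or_ne c (i, n) with rfl | h1
      · simp
      · rcases eq_or_ne c (i, m) with rfl | h2
        · simp
        · rw [Equiv.swap_apply_of_ne_of_ne h1 h2]
  | cons q p ih =>
    cases a with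
    | nil => rfl
    | cons c l =>
      simp only [swp]
      split_ifs
      · simp [ih]
      · rfl

theorem swp_fix {p a : Atm.{u}} (h1 : ¬ (p ++ [(i, n)]) <+: a) (h2 : ¬ (p ++ [(i, m)]) <+: a) :
    swp i n m p a = a := by
  induction p generalizing a with
  | nil =>
    cases a with
    | nil => rfl
    | cons c l =>
      simp only [swp]
      rw [Equiv.swap_apply_of_ne_of_ne]
      · rintro rfl
        exact h1 (by simp)
      · rintro rfl
        exact h2 (by simp)
  | cons q p ih =>
    cases a with
    | nil => rfl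
    | cons c l =>
      simp only [swp]
      split_ifs with h
      · subst h
        rw [ih]
        · exact fun h => h1 (List.cons_prefix_cons.2 ⟨rfl, h⟩)
        · exact fun h => h2 (List.cons_prefix_cons.2 ⟨rfl, h⟩)
      · rfl

theorem swp_self (p : Atm.{u}) : swp i n m p (p ++ [(i, n)]) = p ++ [(i, m)] := by
  induction p with
  | nil => simp [swp]
  | cons q p ih => simp [swp, ih]

/-- The swap as a permutation. -/
noncomputable def swpP (i : Idx.{u}) (n m : ℕ) (p : Atm.{u}) : Equiv.Perm Atm.{u} :=
  Function.Involutive.toPerm (swp i n m p) (swp_swp p)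

theorem isG_swpP (p : Atm.{u}) : IsG (swpP i n m p) := by
  refine ⟨fun a b => ⟨swp_prefix p, fun h => ?_⟩, node_swp p⟩
  have := swp_prefix (i := i) (n := n) (m := m) p h
  rwa [show swp i n m p (swpP i n m p a) = a from swp_swp p a,
    show swp i n m p (swpP i n m p b) = b from swp_swp p b] at this

/-- The closure under prefixes. -/
def cl (e : Set Atm.{u}) : Set Atm.{u} := {a | a = [] ∨ ∃ b ∈ e, a <+: b}

theorem finite_cl {e : Set Atm.{u}} (he : e.Finite) : (cl e).Finite := by
  have : cl e ⊆ {[]} ∪ ⋃ b ∈ e, {a | a ∈ List.inits b} := by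
    rintro a (rfl | ⟨b, hb, h⟩)
    · exact Or.inl rfl
    · refine Or.inr (Set.mem_biUnion hb ?_)
      exact List.mem_inits _ _ |>.2 h
  refine Set.Finite.subset ?_ this
  exact (Set.finite_singleton _).union (he.biUnion fun b _ => List.finite_toSet _)

theorem cl_mono {e F : Set Atm.{u}} (h : e ⊆ F) : cl e ⊆ cl F := by
  rintro a (rfl | ⟨b, hb, h'⟩)
  · exact Or.inl rfl
  · exact Or.inr ⟨b, h hb, h'⟩

theorem mem_cl_of_mem {e : Set Atm.{u}} {a : Atm.{u}} (h : a ∈ e) : a ∈ cl e :=
  Or.inr ⟨a, h, List.prefix_rfl⟩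

/-- Urelements outside the closure of the support can be moved away. -/
theorem exists_move {e F : Set Atm.{u}} (he : e.Finite) (hF : F.Finite) {y : Atm.{u}}
    (hy : y ∉ cl e) : ∃ π : Equiv.Perm Atm.{u}, IsG π ∧ (∀ a ∈ e, π a = a) ∧ π y ∉ cl F := by
  rcases List.eq_nil_or_concat y with rfl | ⟨p, ⟨i, n⟩, rfl⟩
  · exact (hy (Or.inl rfl)).elim
  have h1 : {m : ℕ | p ++ [(i, m)] ∈ cl (e ∪ F)}.Finite := by
    refine Set.Finite.preimage ?_ (finite_cl (he.union hF))
    intro a _ b _ h
    simpa using h
  obtain ⟨m, hm⟩ := h1.infinite_compl.nonempty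
  have hm' : p ++ [(i, m)] ∉ cl (e ∪ F) := hm
  refine ⟨swpP i n m p, isG_swpP p, fun a ha => swp_fix ?_ ?_, ?_⟩
  · exact fun h => hy (Or.inr ⟨a, ha, by simpa using h⟩)
  · exact fun h => hm' (Or.inr ⟨a, Or.inl ha, h⟩)
  · have : swpP i n m p (p.concat (i, n)) = p ++ [(i, m)] := by
      rw [List.concat_eq_append]
      exact swp_self p
    rw [this]
    exact fun h => hm' (cl_mono Set.subset_union_right h)

end Pool.Agent.R583.UR
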