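import Pool.Agent.R583.UR.Model

/-!
# The axioms in the model
-/

namespace Pool.Agent.R583.UR

universe u

open U FirstOrder FirstOrder.Language

theorem aut_eq {π : Equiv.Perm Atm.{u}} {hπ : IsN π} {x : W.{u}} (h : act π x.1 = x.1) :
    aut π hπ x = x := Subtype.ext h

theorem pairing_W (x y : W.{u}) : ∃ z : W.{u}, ¬ Ur z ∧ ∀ w, E w z ↔ w = x ∨ w = y := by
  obtain ⟨e, he, hx⟩ := x.2.1.self
  obtain ⟨f, hf, hy⟩ := y.2.1.self
  obtain ⟨D, hD, hx'⟩ := x.2.2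
  obtain ⟨D', hD', hy'⟩ := y.2.2
  have hv : HW (ofSet {x.1, y.1}) := by
    refine hw_set not_isAtom_ofSet (he.union hf) (supp_of_maps not_isAtom_ofSet ?_)
      (hD.union hD') ?_
    · intro π hπ hfix z hz
      rw [mem_ofSet] at hz ⊢
      rcases hz with rfl | hz
      · rw [hx π hπ fun a ha => hfix a (Or.inl ha)]
        exact Or.inl rfl
      · obtain rfl : z = y.1 := hz
        rw [hy π hπ fun a ha => hfix a (Or.inr ha)]
        exact Or.inr rfl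
    · intro z hz
      rw [mem_ofSet] at hz
      rcases hz with rfl | hz
      · exact ⟨x.2, hx'.mono fun a ha => Or.inl ha⟩
      · obtain rfl : z = y.1 := hz
        exact ⟨y.2, hy'.mono fun a ha => Or.inr ha⟩
  refine ⟨⟨_, hv⟩, not_isAtom_ofSet, fun w => ?_⟩
  rw [E_iff, mem_ofSet]
  constructor
  · rintro (h | h)
    · exact Or.inl (Subtype.ext h)
    · exact Or.inr (Subtype.ext h)
  · rintro (rfl | rfl)
    · exact Or.inl rfl
    · exact Or.inr rfl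

theorem union_W (x : W.{u}) : ∃ y : W.{u}, ¬ Ur y ∧ ∀ z, E z y ↔ ∃ w, E w x ∧ E z w := by
  obtain ⟨e, he, hx⟩ := x.2.1.self
  obtain ⟨D, hD, hx'⟩ := x.2.2
  have h1 := small_mem x.1
  have h2 : ∀ w : {w | Mem w x.1}, Small.{u} {z | Mem z w.1} := fun w => small_mem w.1
  have h3 : Small.{u} (⋃ w : {w | Mem w x.1}, {z | Mem z w.1} : Set (U Atm.{u})) := inferInstance
  have hv : HW (ofSet (⋃ w : {w | Mem w x.1}, {z | Mem z w.1})) := by
    refine hw_set not_isAtom_ofSet he (supp_of_maps not_isAtom_ofSet ?_) hD ?_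
    · intro π hπ hfix z hz
      rw [mem_ofSet, Set.mem_iUnion] at hz ⊢
      obtain ⟨⟨w, hw⟩, hz⟩ := hz
      refine ⟨⟨act π w, ?_⟩, (mem_act_iff π).2 hz⟩
      rw [← hx π hπ hfix]
      exact (mem_act_iff π).2 hw
    · intro z hz
      rw [mem_ofSet, Set.mem_iUnion] at hz
      obtain ⟨⟨w, hw⟩, hz⟩ := hz
      exact ⟨(x.2.mem hw).mem hz, Her.mem (Her.mem hx' hw) hz⟩
  refine ⟨⟨_, hv⟩, not_isAtom_ofSet, fun z => ?_⟩
  rw [E_iff, mem_ofSet, Set.mem_iUnion]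
  constructor
  · rintro ⟨⟨w, hw⟩, hz⟩
    exact ⟨⟨w, x.2.mem hw⟩, hw, hz⟩
  · rintro ⟨w, hw, hz⟩
    exact ⟨⟨w.1, hw⟩, hz⟩

theorem powerset_W (x : W.{u}) :
    ∃ y : W.{u}, ¬ Ur y ∧ ∀ z, E z y ↔ ¬ Ur z ∧ ∀ w, E w z → E w x := by
  obtain ⟨e, he, hx⟩ := x.2.1.self
  obtain ⟨D, hD, hx'⟩ := x.2.2
  have h1 := small_mem x.1
  have h2 : Small.{u} {z : U Atm.{u} | HW z ∧ ¬ IsAtom z ∧ ∀ w, Mem w z → Mem w x.1} := by
    refine small_of_injective (β := Set {w | Mem w x.1}) (f := fun z => {w | Mem w.1 z.1}) ?_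
    rintro ⟨z, hz⟩ ⟨z', hz'⟩ h
    refine Subtype.ext (U.ext hz.2.1 hz'.2.1 fun w => ?_)
    constructor
    · intro hw
      exact (Set.ext_iff.1 h ⟨w, hz.2.2 w hw⟩).1 hw
    · intro hw
      exact (Set.ext_iff.1 h ⟨w, hz'.2.2 w hw⟩).2 hw
  have hv : HW (ofSet {z : U Atm.{u} | HW z ∧ ¬ IsAtom z ∧ ∀ w, Mem w z → Mem w x.1}) := by
    refine hw_set not_isAtom_ofSet he (supp_of_maps not_isAtom_ofSet ?_) hD ?_
    · intro π hπ hfix z hz
      rw [mem_ofSet] at hz ⊢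
      refine ⟨hz.1.act hπ.isN, fun h => hz.2.1 (isAtom_act.1 h), fun w hw => ?_⟩
      obtain ⟨y, hy, rfl⟩ := mem_act.1 hw
      rw [← hx π hπ hfix]
      exact (mem_act_iff π).2 (hz.2.2 y hy)
    · intro z hz
      rw [mem_ofSet] at hz
      exact ⟨hz.1, over_of_mem hz.2.1 fun y hy => Her.mem hx' (hz.2.2 y hy)⟩
  refine ⟨⟨_, hv⟩, not_isAtom_ofSet, fun z => ?_⟩
  rw [E_iff, mem_ofSet]
  constructor
  · rintro ⟨-, h, h'⟩
    exact ⟨h, fun w hw => h' w.1 hw⟩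
  · rintro ⟨h, h'⟩
    exact ⟨z.2, h, fun w hw => h' ⟨w, z.2.mem hw⟩ hw⟩

/-! ### Pure sets -/

theorem hw_pure {x : U Atm.{u}} (hx : Over ∅ x) : HW x := by
  constructor
  · have h1 : Her (Over (A := Atm.{u}) ∅) x := by
      induction hx with
      | intro x h h' ih => exact ⟨_, ⟨_, h, h'⟩, ih⟩
    refine Her.mono (fun y hy => ⟨∅, Set.finite_empty, fun π _ _ => ?_⟩) h1
    exact act_eq_self (B := ∅) (fun a ha => ha.elim) hy
  · exact ⟨_, good_nil, hx.mono (Set.empty_subset _)⟩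

instance (x : U Atm.{u}) : Small.{u} {y | Mem y x} := small_mem x

/-- The natural numbers. -/
noncomputable def num : ℕ → U Atm.{u}
  | 0 => ofSet ∅
  | n + 1 => ofSet ({y | Mem y (num n)} ∪ {num n})

theorem mem_num_succ {n : ℕ} {x : U Atm.{u}} : Mem x (num (n + 1)) ↔ Mem x (num n) ∨ x = num n := by
  rw [num, mem_ofSet]
  exact Iff.rfl

theorem not_mem_num_zero {x : U Atm.{u}} : ¬ Mem x (num 0) := by
  rw [num, mem_ofSet]
  exact fun h => h.elim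

theorem not_isAtom_num (n : ℕ) : ¬ IsAtom (num.{u} n) := by
  cases n with
  | zero => exact not_isAtom_ofSet
  | succ n => exact not_isAtom_ofSet

theorem num_over (n : ℕ) : Over ∅ (num.{u} n) := by
  induction n with
  | zero =>
    exact over_of_mem (not_isAtom_num 0) fun y hy => (not_mem_num_zero hy).elim
  | succ n ih =>
    refine over_of_mem (not_isAtom_num _) fun y hy => ?_
    rcases mem_num_succ.1 hy with h | rfl
    · exact Her.mem ih h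
    · exact ih

theorem infinity_W : ∃ x : W.{u}, ¬ Ur x ∧ (∃ e, E e x ∧ ¬ Ur e ∧ ∀ z, ¬ E z e) ∧
    ∀ y, E y x → ∃ z, E z x ∧ ¬ Ur z ∧ ∀ w, E w z ↔ E w y ∨ w = y := by
  have h1 : Over ∅ (mk (α := ULift.{u} ℕ) fun n => num.{u} n.down) := by
    refine over_of_mem not_isAtom_mk fun y hy => ?_
    obtain ⟨⟨n⟩, rfl⟩ := mem_mk.1 hy
    exact num_over n
  refine ⟨⟨_, hw_pure h1⟩, not_isAtom_mk, ⟨⟨_, hw_pure (num_over 0)⟩,
    E_iff.2 (mem_mk.2 ⟨⟨0⟩, rfl⟩), Ur_iff.not.2 (not_isAtom_num 0), ?_⟩, ?_⟩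
  · intro z hz
    exact not_mem_num_zero hz
  · intro y hy
    obtain ⟨⟨n⟩, hn⟩ := mem_mk.1 (E_iff.1 hy)
    refine ⟨⟨_, hw_pure (num_over (n + 1))⟩, E_iff.2 (mem_mk.2 ⟨⟨n + 1⟩, rfl⟩),
      Ur_iff.not.2 (not_isAtom_num _), ?_⟩
    intro w
    rw [E_iff, mem_num_succ, E_iff, hn]
    refine or_congr Iff.rfl ⟨fun h => Subtype.ext (h.trans hn.symm), fun h => h ▸ hn⟩

theorem zfur_W : ZFUR W.{u} where
  urelement a x ha h := by
    obtain ⟨b, hb⟩ := Ur_iff.1 ha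
    rw [E_iff, hb] at h
    exact not_mem_atom h
  extensionality x y hx hy h := by
    refine Subtype.ext (U.ext hx hy fun z => ⟨fun hz => ?_, fun hz => ?_⟩)
    · exact (h ⟨z, x.2.mem hz⟩).1 hz
    · exact (h ⟨z, y.2.mem hz⟩).2 hz
  foundation x hx := by
    obtain ⟨y, hy⟩ := hx
    obtain ⟨m, hm, hm'⟩ := mem_wf.has_min {z | Mem z x.1} ⟨y.1, hy⟩
    exact ⟨⟨m, x.2.mem hm⟩, hm, fun z hz hz' => hm' z.1 hz' hz⟩
  pairing := pairing_W
  union := union_W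
  powerset := powerset_W
  infinity := infinity_W
  separation n φ p w := by
    obtain ⟨e, _, he, -, hp⟩ := exists_params n p
    refine exists_sep w (Def₁ φ p) he fun π hπ hfix x hx => ?_
    exact (def₁_aut fun i => aut_eq ((hp i).1 π hπ hfix)).2 hx
  replacement n φ p w H := by
    obtain ⟨v, hv, hv'⟩ := collection_W n φ p w fun x hx => (H x hx).exists
    obtain ⟨e, _, he, -, hp⟩ := exists_params n p
    obtain ⟨f, hf, hf'⟩ := w.2.1.self
    obtain ⟨v', hv1, hv2⟩ := exists_sep v (fun y => ∃ x, E x w ∧ Def₂ φ p x y) (he.union hf) (by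
      rintro π hπ hfix y ⟨x, hx, hxy⟩
      refine ⟨aut π hπ.isN x, ?_, (def₂_aut fun i => aut_eq ((hp i).1 π hπ fun a ha =>
        hfix a (Or.inl ha))).2 hxy⟩
      have h1 : act π w.1 = w.1 := hf' π hπ fun a ha => hfix a (Or.inr ha)
      rw [E_iff, ← h1]
      exact (mem_act_iff π).2 hx)
    refine ⟨v', hv1, fun y => (hv2 y).trans ⟨fun h => h.2, fun h => ⟨?_, h⟩⟩⟩
    obtain ⟨x, hx, hxy⟩ := h
    obtain ⟨y', hy', hxy'⟩ := hv' x hx
    rw [(H x hx).unique hxy hxy']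
    exact hy'

end Pool.Agent.R583.UR
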