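import Pool.Agent.R583.UR.CModel

/-!
# Global Choice and the failure of `ω`-DC
-/

set_option linter.unusedSectionVars false

namespace Pool.Agent.R583.UR

universe u

open U

section

variable {K : Type (u+1)} [LinearOrder K]

/-- Automorphisms that fix a set fix its members. -/
theorem autK_fix_mem {ν : Equiv.Perm (List K)} {hν : IsM ν} {x y : WK K}
    (h : autK ν hν x = x) (hy : (SK K).mem y x) : autK ν hν y = y := by
  obtain ⟨D, hD, hx⟩ := x.2
  have h1 : act ν x.1 = x.1 := congrArg Subtype.val h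
  have h2 := rigid hν hD (ker_subset hx) fun a => mem_ker_of_act h1
  exact autK_eq (Her.mem (over_ker x.1) hy) h2

/-- The orbit relation. -/
def orbS : Setoid (WK K) where
  r x y := ∃ (ν : Equiv.Perm (List K)) (hν : IsM ν), autK ν hν x = y
  iseqv := by
    refine ⟨fun x => ⟨_, isM_refl, Subtype.ext (act_id _)⟩, ?_, ?_⟩
    · rintro x _ ⟨ν, hν, rfl⟩
      exact ⟨_, hν.symm, Subtype.ext (actP_symm _ _)⟩
    · rintro x _ _ ⟨ν, hν, rfl⟩ ⟨μ, hμ, rfl⟩
      refine ⟨_, hν.trans hμ, Subtype.ext ?_⟩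
      rw [autK_val, autK_val, autK_val, act_act]
      rfl

/-- An equivariant choice function. -/
theorem exists_choiceK : ∃ G : WK K → WK K, (∀ x, (∃ y, (SK K).mem y x) → (SK K).mem (G x) x) ∧
    ∀ (μ : Equiv.Perm (List K)) (hμ : IsM μ) (x : WK K), (∃ y, (SK K).mem y x) →
      G (autK μ hμ x) = autK μ hμ (G x) := by
  let r : WK K → WK K := fun x => (Quotient.mk orbS x).out
  have hr : ∀ x, ∃ (ν : Equiv.Perm (List K)) (hν : IsM ν), autK ν hν (r x) = x := fun x =>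
    Quotient.exact (s := orbS) (Quotient.out_eq _)
  have hr' : ∀ (μ : Equiv.Perm (List K)) (hμ : IsM μ) (x : WK K), r (autK μ hμ x) = r x := by
    intro μ hμ x
    have : Quotient.mk orbS (autK μ hμ x) = Quotient.mk orbS x :=
      Quotient.sound (s := orbS) (orbS.symm ⟨μ, hμ, rfl⟩)
    show (Quotient.mk orbS (autK μ hμ x)).out = _
    rw [this]
  choose ν hν hνr using hr
  have hc : ∀ x : WK K, ∃ y : WK K, (∃ z, (SK K).mem z x) → (SK K).mem y x := by
    intro x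
    by_cases h : ∃ z, (SK K).mem z x
    · obtain ⟨z, hz⟩ := h
      exact ⟨z, fun _ => hz⟩
    · exact ⟨x, fun h' => (h h').elim⟩
  choose c hc using hc
  have hne : ∀ x : WK K, (∃ y, (SK K).mem y x) → ∃ y, (SK K).mem y (r x) := by
    rintro x ⟨y, hy⟩
    obtain ⟨y', rfl⟩ := (autK (ν x) (hν x)).surjective y
    refine ⟨y', ?_⟩
    have h1 : (SK K).mem (autK (ν x) (hν x) y') (autK (ν x) (hν x) (r x)) := by
      rw [hνr x]
      exact hy
    exact (mem_actP_iff (ν x)).1 h1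
  refine ⟨fun x => autK (ν x) (hν x) (c (r x)), fun x hx => ?_, fun μ hμ x hx => ?_⟩
  · have h1 := hc _ (hne x hx)
    have h2 : (SK K).mem (autK (ν x) (hν x) (c (r x))) (autK (ν x) (hν x) (r x)) :=
      (mem_actP_iff (ν x)).2 h1
    rwa [hνr x] at h2
  · show autK (ν (autK μ hμ x)) (hν _) (c (r (autK μ hμ x))) = _
    have h1 := hc _ (hne x hx)
    have e1 : autK (ν (autK μ hμ x)) (hν _) (r x) = autK μ hμ x := by
      have := hνr (autK μ hμ x)
      rwa [hr'] at this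
    have e2 : autK μ hμ (autK (ν x) (hν x) (r x)) = autK μ hμ x := by rw [hνr x]
    -- the composite fixes `r x`
    have hcomp : ∀ z : WK K, autK (((ν x).trans μ).trans (ν (autK μ hμ x)).symm)
        (((hν x).trans hμ).trans (hν _).symm) z =
        (autK (ν (autK μ hμ x)) (hν _)).symm (autK μ hμ (autK (ν x) (hν x) z)) := by
      intro z
      refine Subtype.ext ?_
      show act _ z.1 = act _ (act _ (act _ z.1))
      rw [act_act, act_act]
      rfl
    have h3 : autK (((ν x).trans μ).trans (ν (autK μ hμ x)).symm)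
        (((hν x).trans hμ).trans (hν _).symm) (r x) = r x := by
      rw [hcomp, e2]
      exact (Equiv.symm_apply_eq _).2 e1.symm
    have h4 := autK_fix_mem h3 h1
    rw [hcomp, Equiv.symm_apply_eq] at h4
    rw [hr', h4]

theorem globalChoiceK : (SK K).GlobalChoice := by
  obtain ⟨G, hG, hG'⟩ := exists_choiceK (K := K)
  have hval : ∀ x y, (SK K).InRel {p | ∃ x, (∃ y, (SK K).mem y x) ∧ (SK K).IsPair p x (G x)} x y →
      y = G x := by
    rintro x y ⟨p, hp, x', -, hp'⟩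
    obtain ⟨rfl, rfl⟩ := ClassStr.IsPair.inj pairK hp hp'
    rfl
  refine ⟨{p | ∃ x, (∃ y, (SK K).mem y x) ∧ (SK K).IsPair p x (G x)}, ⟨_, goodK_nil, ?_⟩, ?_,
    ?_, ?_⟩
  · rintro ν hν - p ⟨x, ⟨y, hy⟩, hp⟩
    refine ⟨autK ν hν x, ⟨autK ν hν y, (mem_actP_iff ν).2 hy⟩, ?_⟩
    rw [hG' ν hν x ⟨y, hy⟩]
    exact IsPair_aut hp
  · rintro p ⟨x, -, hp⟩
    exact ⟨_, _, hp⟩
  · intro x y y' h h'
    rw [hval x y h, hval x y' h']
  · intro x _ hx
    obtain ⟨p, hp⟩ := opairK x (G x)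
    exact ⟨G x, hG x hx, p, hp, x, hx, hp⟩

/-! ### The failure of `ω`-DC -/

/-- The natural numbers. -/
noncomputable def numW (n : ℕ) : WK K :=
  ⟨numU n, _, goodK_nil, (numU_over n).mono (Set.empty_subset _)⟩

/-- The urelements. -/
def atomW (a : List K) : WK K := ⟨atom a, _, goodK_of_list a, over_atom_iff.2 List.prefix_rfl⟩

theorem numW_inj {m n : ℕ} (h : (numW m : WK K) = numW n) : m = n :=
  numU_inj (congrArg Subtype.val h)

theorem atomW_inj {a b : List K} (h : atomW a = atomW b) : a = b :=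
  atom_inj.1 (congrArg Subtype.val h)

theorem mem_numW {n : ℕ} {x : WK K} : (SK K).mem x (numW n) ↔ ∃ m < n, x = numW m := by
  rw [SK_mem]
  exact mem_numU.trans ⟨fun ⟨m, hm, h⟩ => ⟨m, hm, Subtype.ext h⟩,
    fun ⟨m, hm, h⟩ => ⟨m, hm, congrArg Subtype.val h⟩⟩

theorem aut_numW {ν : Equiv.Perm (List K)} {hν : IsM ν} (n : ℕ) :
    autK ν hν (numW n) = numW n :=
  autK_eq (D := ∅) (numU_over n) fun _ h => h.elim

theorem aut_atomW {ν : Equiv.Perm (List K)} {hν : IsM ν} (a : List K) :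
    autK ν hν (atomW a) = atomW (ν a) := rfl

theorem App_aut {ν : Equiv.Perm (List K)} {hν : IsM ν} {f x y : WK K} :
    (SK K).App (autK ν hν f) (autK ν hν x) (autK ν hν y) ↔ (SK K).App f x y := by
  have key : ∀ {ν : Equiv.Perm (List K)} {hν : IsM ν} {f x y : WK K}, (SK K).App f x y →
      (SK K).App (autK ν hν f) (autK ν hν x) (autK ν hν y) := by
    rintro ν hν f x y ⟨p, hp, hpf⟩
    exact ⟨_, IsPair_aut hp, (mem_actP_iff ν).2 hpf⟩
  refine ⟨fun h => ?_, key⟩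
  have h1 := key (hν := hν.symm) h
  have h2 : ∀ x : WK K, autK ν.symm hν.symm (autK ν hν x) = x :=
    fun x => Subtype.ext (actP_symm _ _)
  rwa [h2, h2, h2] at h1

theorem IsFunOn_aut {ν : Equiv.Perm (List K)} {hν : IsM ν} {f d : WK K}
    (h : (SK K).IsFunOn f d) : (SK K).IsFunOn (autK ν hν f) (autK ν hν d) := by
  obtain ⟨h1, h2, h3, h4⟩ := h
  refine ⟨fun h => h1 (isAtom_act.1 h), fun p hp => ?_, fun x y y' hy hy' => ?_, fun x => ?_⟩
  · obtain ⟨p, rfl⟩ := (autK ν hν).surjective p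
    obtain ⟨x, y, hxy⟩ := h2 p ((mem_actP_iff ν).1 hp)
    exact ⟨_, _, IsPair_aut hxy⟩
  · obtain ⟨x, rfl⟩ := (autK ν hν).surjective x
    obtain ⟨y, rfl⟩ := (autK ν hν).surjective y
    obtain ⟨y', rfl⟩ := (autK ν hν).surjective y'
    rw [h3 x y y' (App_aut.1 hy) (App_aut.1 hy')]
  · obtain ⟨x, rfl⟩ := (autK ν hν).surjective x
    have h5 : (SK K).mem (autK ν hν x) (autK ν hν d) ↔ (SK K).mem x d := mem_actP_iff ν
    rw [h5, h4 x]
    constructor
    · rintro ⟨y, hy⟩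
      exact ⟨_, App_aut.2 hy⟩
    · rintro ⟨y, hy⟩
      obtain ⟨y, rfl⟩ := (autK ν hν).surjective y
      exact ⟨y, App_aut.1 hy⟩

/-- `s` is the function `k ↦ c k` on `n`, and the `c k` form a chain. -/
def ChainK (s : WK K) (n : ℕ) (c : ℕ → List K) : Prop := (SK K).IsFunOn s (numW n) ∧
  ∀ k < n, (SK K).App s (numW k) (atomW (c k)) ∧ (c k).length = k ∧
    ∀ j, j + 1 = k → c j <+: c k

theorem ChainK.aut {ν : Equiv.Perm (List K)} (hν : IsM ν) {s : WK K} {n : ℕ} {c : ℕ → List K}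
    (h : ChainK s n c) : ChainK (autK ν hν s) n fun k => ν (c k) := by
  refine ⟨?_, fun k hk => ⟨?_, ?_, fun j hj => ?_⟩⟩
  · have := IsFunOn_aut (hν := hν) h.1
    rwa [aut_numW] at this
  · have := (App_aut (hν := hν)).2 (h.2 k hk).1
    rwa [aut_numW, aut_atomW] at this
  · rw [hν.len, (h.2 k hk).2.1]
  · exact hν.pre ((h.2 k hk).2.2 j hj)

/-- `y` extends the chain. -/
def PhiK (s y : WK K) : Prop := ∀ (n : ℕ) (c : ℕ → List K), ChainK s n c →
  ∃ a, y = atomW a ∧ a.length = n ∧ ∀ j, j + 1 = n → c j <+: a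

theorem PhiK.aut {ν : Equiv.Perm (List K)} (hν : IsM ν) {s y : WK K} (h : PhiK s y) :
    PhiK (autK ν hν s) (autK ν hν y) := by
  intro n c hc
  have h1 := hc.aut hν.symm
  have h2 : autK ν.symm hν.symm (autK ν hν s) = s := Subtype.ext (actP_symm _ _)
  rw [h2] at h1
  obtain ⟨a, ha, hl, ha'⟩ := h n _ h1
  refine ⟨ν a, by rw [ha, aut_atomW], by rw [hν.len, hl], fun j hj => ?_⟩
  have h3 := hν.pre (ha' j hj)
  rwa [Equiv.apply_symm_apply] at h3

theorem exists_PhiK [Inhabited K] (s : WK K) : ∃ y, PhiK s y := by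
  by_cases h : ∃ (n : ℕ) (c : ℕ → List K), ChainK s n c
  swap
  · exact ⟨s, fun n c hc => (h ⟨n, c, hc⟩).elim⟩
  obtain ⟨n, c, hc⟩ := h
  have huniq : ∀ (n' : ℕ) (c' : ℕ → List K), ChainK s n' c' → n' = n ∧ ∀ j < n, c' j = c j := by
    intro n' c' hc'
    have h1 : n' = n := by
      refine numW_inj (K := K) (extK _ _ (not_isAtom_numU n') (not_isAtom_numU n) fun z => ?_)
      rw [hc'.1.2.2.2 z, hc.1.2.2.2 z]
    subst h1
    refine ⟨rfl, fun j hj => atomW_inj ?_⟩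
    exact hc.1.2.2.1 _ _ _ (hc'.2 j hj).1 (hc.2 j hj).1
  rcases n with _ | n
  · refine ⟨atomW [], fun n' c' hc' => ?_⟩
    obtain ⟨rfl, -⟩ := huniq n' c' hc'
    exact ⟨[], rfl, rfl, fun j hj => by omega⟩
  · refine ⟨atomW (c n ++ [default]), fun n' c' hc' => ?_⟩
    obtain ⟨rfl, h1⟩ := huniq n' c' hc'
    refine ⟨_, rfl, ?_, fun j hj => ?_⟩
    · rw [List.length_append, (hc.2 n n.lt_succ_self).2.1]
      rfl
    · obtain rfl : j = n := by omega
      rw [h1 j j.lt_succ_self]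
      exact List.prefix_append _ _

theorem over_of_app {D : Set (List K)} {f x y : WK K} (hf : Over D f.1)
    (h : (SK K).App f x y) : Over D y.1 := by
  obtain ⟨p, hp, hpf⟩ := h
  obtain ⟨q, hq⟩ := pairK x y
  have h1 : (SK K).mem q p := (hp.2 q).2 (Or.inr hq)
  have h2 : (SK K).mem y q := (hq.2 y).2 (Or.inr rfl)
  exact Her.mem (Her.mem (Her.mem hf hpf) h1) h2

theorem not_omegaDCK [Inhabited K] : ¬ (SK K).OmegaDC := by
  intro H
  set R : Set (WK K) := {p | ∃ s y, (SK K).IsPair p s y ∧ PhiK s y} with hR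
  have hRc : R ∈ (SK K).cls := by
    refine ⟨_, goodK_nil, ?_⟩
    rintro ν hν - p ⟨s, y, hp, h⟩
    exact ⟨_, _, IsPair_aut hp, h.aut hν⟩
  have hRin : ∀ s y, (SK K).InRel R s y → PhiK s y := by
    rintro s y ⟨p, hp, s', y', hp', h⟩
    obtain ⟨rfl, rfl⟩ := ClassStr.IsPair.inj pairK hp hp'
    exact h
  obtain ⟨w, f, hw, hf, hfR⟩ := H R hRc fun w _ n _ s _ => by
    obtain ⟨y, hy⟩ := exists_PhiK s
    obtain ⟨p, hp⟩ := opairK s y
    exact ⟨y, p, hp, s, y, hp, hy⟩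
  obtain ⟨w', hw', hw''⟩ := exists_omega (K := K)
  have hww : ∀ x, (SK K).mem x w ↔ ∃ n, x = numW n := by
    intro x
    have h1 : (SK K).mem x w ↔ (SK K).mem x w' := ⟨hw.2 w' hw'.1 x, hw'.2 w hw.1 x⟩
    rw [h1, hw'']
    exact ⟨fun ⟨n, h⟩ => ⟨n, Subtype.ext h⟩, fun ⟨n, h⟩ => ⟨n, congrArg Subtype.val h⟩⟩
  choose y hy using fun n : ℕ => (hf.2.2.2 (numW n)).1 ((hww _).2 ⟨n, rfl⟩)
  have key : ∀ n : ℕ, ∃ a, y n = atomW a ∧ a.length = n ∧
      ∀ j a', j + 1 = n → y j = atomW a' → a' <+: a := by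
    intro n
    induction n using Nat.strong_induction_on with
    | _ n ih =>
      choose! c hc1 hc2 hc3 using ih
      obtain ⟨g, hg, hg'⟩ := exists_subK f fun p => ∃ x z, (SK K).IsPair p x z ∧
        (SK K).mem x (numW n)
      have happ : ∀ x z, (SK K).App g x z ↔ (SK K).App f x z ∧ (SK K).mem x (numW n) := by
        intro x z
        constructor
        · rintro ⟨p, hp, hpg⟩
          obtain ⟨h1, x', z', h2, h3⟩ := (hg' p).1 hpg
          obtain ⟨rfl, rfl⟩ := ClassStr.IsPair.inj pairK hp h2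
          exact ⟨⟨p, hp, h1⟩, h3⟩
        · rintro ⟨⟨p, hp, hpf⟩, h3⟩
          exact ⟨p, hp, (hg' p).2 ⟨hpf, x, z, hp, h3⟩⟩
      have hfun : (SK K).IsFunOn g (numW n) := by
        refine ⟨hg, fun p hp => hf.2.1 p ((hg' p).1 hp).1, fun x z z' h h' =>
          hf.2.2.1 x z z' ((happ x z).1 h).1 ((happ x z').1 h').1, fun x => ⟨fun hx => ?_, ?_⟩⟩
        · obtain ⟨m, hm, rfl⟩ := mem_numW.1 hx
          exact ⟨y m, (happ _ _).2 ⟨hy m, hx⟩⟩
        · rintro ⟨z, hz⟩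
          exact ((happ _ _).1 hz).2
      have hchain : ChainK g n c := by
        refine ⟨hfun, fun k hk => ⟨(happ _ _).2 ⟨?_, mem_numW.2 ⟨k, hk, rfl⟩⟩, hc2 k hk,
          fun j hj => hc3 k hk j _ hj (hc1 j (by omega))⟩⟩
        rw [← hc1 k hk]
        exact hy k
      obtain ⟨a, ha, hl, ha'⟩ := hRin _ _ (hfR (numW n) ((hww _).2 ⟨n, rfl⟩) g ⟨hg, fun p => hg' p⟩
        (y n) (hy n)) n c hchain
      refine ⟨a, ha, hl, fun j a' hj hj' => ?_⟩
      have h1 : a' = c j := atomW_inj (hj'.symm.trans (hc1 j (by omega)))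
      rw [h1]
      exact ha' j hj
  choose c hc1 hc2 hc3 using key
  obtain ⟨g, hg⟩ := exists_branchK (c := c) (fun n => hc3 (n + 1) n _ rfl (hc1 n)) hc2
  obtain ⟨D, hD, hfD⟩ := f.2
  obtain ⟨n, hn⟩ := hD.inf g
  refine hn ?_
  rw [hg]
  have h1 := over_of_app hfD (hy n)
  rw [hc1 n] at h1
  exact over_atom (B := D) h1

end

end Pool.Agent.R583.UR
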