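import Mathlib

/-!
# Class theory with urelements

Structures for class theory with urelements, the theory `KMU_R`, Collection, Global Choice and
`ω`-DC.
-/

namespace Pool.Agent.R583.UR

/-- A structure for class theory with urelements: the first-order objects (sets and urelements) are
the elements of `M`, and the classes are the members of a family of subsets of `M` (in particular,
classes with the same members are equal). -/
structure ClassStr (M : Type*) where
  /-- Membership of first-order objects. -/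
  mem : M → M → Prop
  /-- The urelements. -/
  ur : M → Prop
  /-- The classes. -/
  cls : Set (Set M)

/-- The formulas of class theory with `n` free variables for objects and `m` free variables for
classes. -/
inductive Fml : ℕ → ℕ → Type
  | mem {n m : ℕ} (i j : Fin n) : Fml n m
  | ur {n m : ℕ} (i : Fin n) : Fml n m
  | eq {n m : ℕ} (i j : Fin n) : Fml n m
  | inCls {n m : ℕ} (i : Fin n) (X : Fin m) : Fml n m
  | bot {n m : ℕ} : Fml n m
  | imp {n m : ℕ} (φ ψ : Fml n m) : Fml n m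
  | all {n m : ℕ} (φ : Fml (n + 1) m) : Fml n m
  | allCls {n m : ℕ} (φ : Fml n (m + 1)) : Fml n m

namespace ClassStr

variable {M : Type*} (S : ClassStr M)

/-- Satisfaction. The new variable of a quantifier is the variable `0`. -/
def Sat : {n m : ℕ} → Fml n m → (Fin n → M) → (Fin m → Set M) → Prop
  | _, _, .mem i j, v, _ => S.mem (v i) (v j)
  | _, _, .ur i, v, _ => S.ur (v i)
  | _, _, .eq i j, v, _ => v i = v j
  | _, _, .inCls i X, v, V => v i ∈ V X
  | _, _, .bot, _, _ => False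
  | _, _, .imp φ ψ, v, V => Sat φ v V → Sat ψ v V
  | n, _, .all φ, v, V => ∀ x : M, Sat φ (Fin.cons x v : Fin (n + 1) → M) V
  | _, m, .allCls φ, v, V => ∀ X ∈ S.cls, Sat φ v (Fin.cons X V : Fin (m + 1) → Set M)

/-- `z = {x, y}`. -/
def IsUPair (z x y : M) : Prop := ¬ S.ur z ∧ ∀ w, S.mem w z ↔ w = x ∨ w = y

/-- `p` is the ordered pair `{{x}, {x, y}}`. -/
def IsPair (p x y : M) : Prop := ¬ S.ur p ∧ ∀ z, S.mem z p ↔ S.IsUPair z x x ∨ S.IsUPair z x y

/-- The pair `(x, y)` is in the class `R`. -/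
def InRel (R : Set M) (x y : M) : Prop := ∃ p, S.IsPair p x y ∧ p ∈ R

/-- The pair `(x, y)` is in the set `f`. -/
def App (f x y : M) : Prop := ∃ p, S.IsPair p x y ∧ S.mem p f

/-- `z = y ∪ {y}`. -/
def IsSucc (z y : M) : Prop := ¬ S.ur z ∧ ∀ w, S.mem w z ↔ S.mem w y ∨ w = y

/-- `x` contains the empty set and `y ∪ {y}` with every `y`. -/
def IsInd (x : M) : Prop := ¬ S.ur x ∧ (∃ e, S.mem e x ∧ ¬ S.ur e ∧ ∀ z, ¬ S.mem z e) ∧
  ∀ y, S.mem y x → ∃ z, S.mem z x ∧ S.IsSucc z y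

/-- `w` is the set `ω`. -/
def IsOmega (w : M) : Prop := S.IsInd w ∧ ∀ x, S.IsInd x → ∀ y, S.mem y w → S.mem y x

/-- The axioms of `KMU_R`. (Class Extensionality holds by the definition of the structures.) -/
structure KMUR : Prop where
  /-- Urelements have no members. -/
  urelement : ∀ a x, S.ur a → ¬ S.mem x a
  /-- Extensionality for sets. -/
  extensionality : ∀ x y, ¬ S.ur x → ¬ S.ur y → (∀ z, S.mem z x ↔ S.mem z y) → x = y
  /-- Foundation. -/
  foundation : ∀ x, (∃ y, S.mem y x) → ∃ y, S.mem y x ∧ ∀ z, S.mem z y → ¬ S.mem z x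
  /-- Pairing. -/
  pairing : ∀ x y, ∃ z, S.IsUPair z x y
  /-- Union. -/
  union : ∀ x, ∃ y, ¬ S.ur y ∧ ∀ z, S.mem z y ↔ ∃ w, S.mem w x ∧ S.mem z w
  /-- Power Set: the set of all subsets that are sets. -/
  powerset : ∀ x, ∃ y, ¬ S.ur y ∧ ∀ z, S.mem z y ↔ ¬ S.ur z ∧ ∀ w, S.mem w z → S.mem w x
  /-- Infinity. -/
  infinity : ∃ x, S.IsInd x
  /-- Separation, for all classes. -/
  separation : ∀ C ∈ S.cls, ∀ w, ∃ v, ¬ S.ur v ∧ ∀ x, S.mem x v ↔ S.mem x w ∧ x ∈ C
  /-- Full Comprehension, with quantifiers over classes and with parameters. -/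
  comprehension : ∀ (n m : ℕ) (φ : Fml (n + 1) m) (v : Fin n → M) (V : Fin m → Set M),
    (∀ j, V j ∈ S.cls) → {x | S.Sat φ (Fin.cons x v : Fin (n + 1) → M) V} ∈ S.cls
  /-- Replacement for class functions. -/
  replacement : ∀ F ∈ S.cls, ∀ a, (∀ x, S.mem x a → ∀ y y', S.InRel F x y → S.InRel F x y' →
    y = y') → ∃ b, ¬ S.ur b ∧ ∀ y, S.mem y b ↔ ∃ x, S.mem x a ∧ S.InRel F x y

/-- Collection. -/
def Collection : Prop := ∀ R ∈ S.cls, ∀ w, (∀ x, S.mem x w → ∃ y, S.InRel R x y) →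
  ∃ v, ¬ S.ur v ∧ ∀ x, S.mem x w → ∃ y, S.mem y v ∧ S.InRel R x y

/-- Global Choice: there is a class function `G` with `G(x) ∈ x` for every nonempty set `x`. -/
def GlobalChoice : Prop := ∃ G ∈ S.cls, (∀ p ∈ G, ∃ x y, S.IsPair p x y) ∧
  (∀ x y y', S.InRel G x y → S.InRel G x y' → y = y') ∧
  ∀ x, ¬ S.ur x → (∃ y, S.mem y x) → ∃ y, S.mem y x ∧ S.InRel G x y

/-- `f` is a function with domain `d`. -/
def IsFunOn (f d : M) : Prop := ¬ S.ur f ∧ (∀ p, S.mem p f → ∃ x y, S.IsPair p x y) ∧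
  (∀ x y y', S.App f x y → S.App f x y' → y = y') ∧ ∀ x, S.mem x d ↔ ∃ y, S.App f x y

/-- `g` is the restriction of `f` to `n`. -/
def IsRestr (g f n : M) : Prop := ¬ S.ur g ∧
  ∀ p, S.mem p g ↔ S.mem p f ∧ ∃ x y, S.IsPair p x y ∧ S.mem x n

/-- `ω`-DC: if `R` is a class relation such that for every function `s` whose domain is some
`n ∈ ω` there is `y` with `R(s, y)`, then there is a function `f` with domain `ω` such that
`R(f ↾ n, f(n))` for all `n ∈ ω`. -/
def OmegaDC : Prop := ∀ R ∈ S.cls,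
  (∀ w, S.IsOmega w → ∀ n, S.mem n w → ∀ s, S.IsFunOn s n → ∃ y, S.InRel R s y) →
  ∃ w f, S.IsOmega w ∧ S.IsFunOn f w ∧ ∀ n, S.mem n w → ∀ g, S.IsRestr g f n →
    ∀ y, S.App f n y → S.InRel R g y

/-! ### Pairs -/

variable {S}

theorem exists_pair (hp : ∀ x y, ∃ z, S.IsUPair z x y)
    (he : ∀ x y, ¬ S.ur x → ¬ S.ur y → (∀ z, S.mem z x ↔ S.mem z y) → x = y) (x y : M) :
    ∃ p, S.IsPair p x y := by
  obtain ⟨a, ha⟩ := hp x x
  obtain ⟨b, hb⟩ := hp x y
  obtain ⟨p, hp1, hp2⟩ := hp a b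
  refine ⟨p, hp1, fun z => (hp2 z).trans (or_congr ⟨fun h => h ▸ ha, fun h => ?_⟩
    ⟨fun h => h ▸ hb, fun h => ?_⟩)⟩
  · exact he _ _ h.1 ha.1 fun w => (h.2 w).trans (ha.2 w).symm
  · exact he _ _ h.1 hb.1 fun w => (h.2 w).trans (hb.2 w).symm

theorem IsPair.unique (he : ∀ x y, ¬ S.ur x → ¬ S.ur y → (∀ z, S.mem z x ↔ S.mem z y) → x = y)
    {p q x y : M} (h : S.IsPair p x y) (h' : S.IsPair q x y) : p = q :=
  he _ _ h.1 h'.1 fun w => (h.2 w).trans (h'.2 w).symm

theorem IsUPair.eq_of {z x y x' y' : M} (h : S.IsUPair z x y) (h' : S.IsUPair z x' y') :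
    (x = x' ∨ x = y') ∧ (y = x' ∨ y = y') :=
  ⟨(h'.2 x).1 ((h.2 x).2 (Or.inl rfl)), (h'.2 y).1 ((h.2 y).2 (Or.inr rfl))⟩

theorem IsPair.inj (hp : ∀ x y, ∃ z, S.IsUPair z x y) {p x y x' y' : M}
    (h : S.IsPair p x y) (h' : S.IsPair p x' y') : x = x' ∧ y = y' := by
  obtain ⟨a, ha⟩ := hp x x
  obtain ⟨b, hb⟩ := hp x y
  obtain ⟨a', ha'⟩ := hp x' x'
  obtain ⟨b', hb'⟩ := hp x' y'
  have h1 := (h'.2 a).1 ((h.2 a).2 (Or.inl ha))
  have h2 := (h'.2 b).1 ((h.2 b).2 (Or.inr hb))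
  have h3 := (h.2 a').1 ((h'.2 a').2 (Or.inl ha'))
  have h4 := (h.2 b').1 ((h'.2 b').2 (Or.inr hb'))
  have hx : x = x' := by
    rcases h3 with h3 | h3
    · rcases (ha'.eq_of h3).1 with h | h <;> exact h.symm
    · exact (h3.eq_of ha').1.elim id id
  subst hx
  refine ⟨rfl, ?_⟩
  rcases h2 with h2 | h2
  · have hyx : y = x := (hb.eq_of h2).2.elim id id
    rcases h4 with h4 | h4
    · have hyx' : y' = x := (hb'.eq_of h4).2.elim id id
      rw [hyx, hyx']
    · have := (hb'.eq_of h4).2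
      rcases this with h | h
      · rw [h, hyx]
      · exact h.symm
  · rcases (hb.eq_of h2).2 with h | h
    · rcases h4 with h4 | h4
      · have hyx' : y' = x := (hb'.eq_of h4).2.elim id id
        rw [h, hyx']
      · rcases (hb'.eq_of h4).2 with h' | h'
        · rw [h, h']
        · exact h'.symm
    · exact h

end ClassStr

end Pool.Agent.R583.UR
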