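import Pool.Agent.R583.UR.TreeK
import Pool.Agent.R583.UR.CDefs

/-!
# The model of class theory
-/

set_option linter.unusedSectionVars false

namespace Pool.Agent.R583.UR

universe u

open U

/-! ### Generalities about the universe -/

section general

variable {A : Type (u+1)}

instance (x : U A) : Small.{u} {y | Mem y x} := small_mem x

theorem actP_symm (π : Equiv.Perm A) (x : U A) : act π.symm (act π x) = x := by
  rw [act_act, Equiv.symm_comp_self, act_id]

theorem actP_symm' (π : Equiv.Perm A) (x : U A) : act π (act π.symm x) = x := by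
  rw [act_act, Equiv.self_comp_symm, act_id]

theorem mem_actP_iff (π : Equiv.Perm A) {x y : U A} : Mem (act π x) (act π y) ↔ Mem x y := by
  constructor
  · intro h
    obtain ⟨z, hz, h⟩ := mem_act.1 h
    have := congrArg (act π.symm) h
    rw [actP_symm, actP_symm] at this
    rwa [this]
  · exact fun h => mem_act.2 ⟨x, h, rfl⟩

theorem over_iInter {ι : Type*} {B : ι → Set A} [Nonempty ι] {x : U A}
    (h : ∀ i, Over (B i) x) : Over (⋂ i, B i) x := by
  obtain ⟨i₀⟩ := ‹Nonempty ι›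
  have key : ∀ x : U A, (∀ i, Over (B i) x) → Over (⋂ i, B i) x := by
    intro x
    refine U.induction (p := fun x => (∀ i, Over (B i) x) → Over (⋂ i, B i) x) (fun x ih h => ?_) x
    exact ⟨_, fun a ha => Set.mem_iInter.2 fun i => Her.self (h i) a ha,
      fun y hy => ih y hy fun i => Her.mem (h i) hy⟩
  exact key x h

/-- The kernel. -/
def ker (x : U A) : Set A := ⋂ B : {B : Set A // Over B x}, B.1

theorem over_univ (x : U A) : Over Set.univ x :=
  U.induction (p := fun x => Over Set.univ x) (fun _ ih => ⟨_, fun _ _ => trivial, ih⟩) x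

theorem over_ker (x : U A) : Over (ker x) x := by
  have : Nonempty {B : Set A // Over B x} := ⟨⟨_, over_univ x⟩⟩
  exact over_iInter fun B => B.2

theorem ker_subset {B : Set A} {x : U A} (h : Over B x) : ker x ⊆ B :=
  Set.iInter_subset (fun B : {B : Set A // Over B x} => B.1) ⟨B, h⟩

/-- The kernel of a fixed thing is preserved. -/
theorem mem_ker_of_act {π : Equiv.Perm A} {x : U A} (h : act π x = x) {a : A} :
    a ∈ ker x ↔ π a ∈ ker x := by
  have key : ∀ {π : Equiv.Perm A}, act π x = x → ∀ a, a ∈ ker x → π a ∈ ker x := by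
    intro π h a ha
    have h1 : Over (π ⁻¹' ker x) x := by
      have h2 : Over (π ⁻¹' ker x) (act π.symm x) :=
        over_act (B := ker x) (fun b hb => by
          show π (π.symm b) ∈ ker x
          rwa [Equiv.apply_symm_apply]) (over_ker x)
      have h3 : act π.symm x = x := by
        conv_lhs => rw [← h]
        exact actP_symm π x
      rwa [h3] at h2
    exact ker_subset h1 ha
  refine ⟨key h a, fun ha => ?_⟩
  have h3 : act π.symm x = x := by
    conv_lhs => rw [← h]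
    exact actP_symm π x
  have := key h3 _ ha
  rwa [Equiv.symm_apply_apply] at this

/-- The natural numbers. -/
noncomputable def numU : ℕ → U A
  | 0 => ofSet ∅
  | n + 1 => ofSet ({y | Mem y (numU n)} ∪ {numU n})

theorem mem_numU_succ {n : ℕ} {x : U A} :
    Mem x (numU (n + 1)) ↔ Mem x (numU n) ∨ x = numU n := by
  rw [numU, mem_ofSet]
  exact Iff.rfl

theorem not_mem_numU_zero {x : U A} : ¬ Mem x (numU 0) := by
  rw [numU, mem_ofSet]
  exact fun h => h.elim

theorem not_isAtom_numU (n : ℕ) : ¬ IsAtom (numU n : U A) := by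
  cases n with
  | zero => exact not_isAtom_ofSet
  | succ n => exact not_isAtom_ofSet

theorem mem_numU {n : ℕ} {x : U A} : Mem x (numU n) ↔ ∃ m < n, x = numU m := by
  induction n with
  | zero => exact ⟨fun h => (not_mem_numU_zero h).elim, fun ⟨m, hm, _⟩ => (Nat.not_lt_zero m hm).elim⟩
  | succ n ih =>
    rw [mem_numU_succ, ih]
    constructor
    · rintro (⟨m, hm, h⟩ | h)
      · exact ⟨m, hm.trans n.lt_succ_self, h⟩
      · exact ⟨n, n.lt_succ_self, h⟩
    · rintro ⟨m, hm, h⟩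
      rcases Nat.lt_succ_iff_lt_or_eq.1 hm with h1 | rfl
      · exact Or.inl ⟨m, h1, h⟩
      · exact Or.inr h

theorem numU_over (n : ℕ) : Over ∅ (numU n : U A) := by
  induction n with
  | zero => exact over_of_mem (not_isAtom_numU 0) fun y hy => (not_mem_numU_zero hy).elim
  | succ n ih =>
    refine over_of_mem (not_isAtom_numU _) fun y hy => ?_
    rcases mem_numU_succ.1 hy with h | rfl
    · exact Her.mem ih h
    · exact ih

theorem not_mem_self (x : U A) : ¬ Mem x x :=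
  U.induction (p := fun x => ¬ Mem x x) (fun x ih h => ih x h h) x

theorem numU_inj {m n : ℕ} (h : (numU m : U A) = numU n) : m = n := by
  rcases lt_trichotomy m n with h1 | h1 | h1
  · have h2 : Mem (numU m : U A) (numU n) := mem_numU.2 ⟨m, h1, rfl⟩
    rw [h] at h2
    exact (not_mem_self _ h2).elim
  · exact h1
  · have h2 : Mem (numU n : U A) (numU m) := mem_numU.2 ⟨n, h1, rfl⟩
    rw [h] at h2
    exact (not_mem_self _ h2).elim

end general

/-! ### The model -/

section model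

variable {K : Type (u+1)} [LinearOrder K]

/-- The urelements of `x` belong to a good tree. -/
def HK (x : U (List K)) : Prop := ∃ D, GoodK D ∧ Over D x

theorem HK.mem {x y : U (List K)} (h : HK x) (hy : Mem y x) : HK y := by
  obtain ⟨D, hD, h⟩ := h
  exact ⟨D, hD, Her.mem h hy⟩

theorem HK.act {ν : Equiv.Perm (List K)} (hν : IsM ν) {x : U (List K)} (h : HK x) :
    HK (act ν x) := by
  obtain ⟨D, hD, h⟩ := h
  exact ⟨ν '' D, goodK_im hν hD, over_act (C := ν '' D) (fun a ha => ⟨a, ha, rfl⟩) h⟩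

variable (K) in
/-- The objects. -/
abbrev WK : Type (u+1) := {x : U (List K) // HK x}

/-- The automorphisms. -/
def autK (ν : Equiv.Perm (List K)) (hν : IsM ν) : WK K ≃ WK K where
  toFun x := ⟨act ν x.1, x.2.act hν⟩
  invFun x := ⟨act ν.symm x.1, x.2.act hν.symm⟩
  left_inv x := Subtype.ext (actP_symm _ _)
  right_inv x := Subtype.ext (actP_symm' _ _)

theorem autK_val {ν : Equiv.Perm (List K)} {hν : IsM ν} {x : WK K} :
    (autK ν hν x).1 = act ν x.1 := rfl

/-- The class `C` has the support `D`. -/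
def SuppK (D : Set (List K)) (C : Set (WK K)) : Prop :=
  ∀ (ν : Equiv.Perm (List K)) (hν : IsM ν), (∀ a ∈ D, ν a = a) → ∀ x ∈ C, autK ν hν x ∈ C

theorem SuppK.mono {D E : Set (List K)} (h : D ⊆ E) {C : Set (WK K)} (hC : SuppK D C) :
    SuppK E C := fun ν hν hE => hC ν hν fun a ha => hE a (h ha)

variable (K) in
/-- The structure. -/
def SK : ClassStr (WK K) where
  mem x y := Mem x.1 y.1
  ur x := IsAtom x.1
  cls := {C | ∃ D, GoodK D ∧ SuppK D C}

theorem SK_mem {x y : WK K} : (SK K).mem x y ↔ Mem x.1 y.1 := Iff.rfl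

theorem SK_ur {x : WK K} : (SK K).ur x ↔ IsAtom x.1 := Iff.rfl

theorem SK_cls {C : Set (WK K)} : C ∈ (SK K).cls ↔ ∃ D, GoodK D ∧ SuppK D C := Iff.rfl

theorem SuppK.image {D : Set (List K)} {C : Set (WK K)} (hC : SuppK D C)
    {ν : Equiv.Perm (List K)} (hν : IsM ν) : SuppK (ν '' D) (autK ν hν '' C) := by
  rintro μ hμ hfix _ ⟨x, hx, rfl⟩
  have h1 := hC _ ((hν.trans hμ).trans hν.symm) (fun a ha => by
    show ν.symm (μ (ν a)) = a
    rw [hfix _ ⟨a, ha, rfl⟩, Equiv.symm_apply_apply]) x hx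
  refine ⟨_, h1, Subtype.ext ?_⟩
  rw [autK_val, autK_val, autK_val, autK_val, act_act, act_act]
  congr 1
  funext a
  show ν (ν.symm (μ (ν a))) = μ (ν a)
  rw [Equiv.apply_symm_apply]

theorem cls_image {C : Set (WK K)} (hC : C ∈ (SK K).cls) {ν : Equiv.Perm (List K)}
    (hν : IsM ν) : autK ν hν '' C ∈ (SK K).cls := by
  obtain ⟨D, hD, h⟩ := hC
  exact ⟨_, goodK_im hν hD, h.image hν⟩

theorem SuppK.image_eq {D : Set (List K)} {C : Set (WK K)} (hC : SuppK D C)
    {ν : Equiv.Perm (List K)} (hν : IsM ν) (hfix : ∀ a ∈ D, ν a = a) : autK ν hν '' C = C := by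
  apply Set.Subset.antisymm
  · rintro _ ⟨x, hx, rfl⟩
    exact hC ν hν hfix x hx
  · intro x hx
    refine ⟨autK ν.symm hν.symm x, hC _ _ (fun a ha => ?_) x hx, Subtype.ext (actP_symm' _ _)⟩
    rw [Equiv.symm_apply_eq, hfix a ha]

/-- Satisfaction is invariant under the automorphisms. -/
theorem sat_aut {ν : Equiv.Perm (List K)} (hν : IsM ν) {n m : ℕ} (φ : Fml n m) :
    ∀ (v : Fin n → WK K) (V : Fin m → Set (WK K)),
      (SK K).Sat φ (autK ν hν ∘ v) ((fun C => autK ν hν '' C) ∘ V) ↔ (SK K).Sat φ v V := by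
  induction φ with
  | mem i j => exact fun v V => mem_actP_iff ν
  | ur i => exact fun v V => isAtom_act
  | eq i j => exact fun v V => (autK ν hν).injective.eq_iff
  | inCls i X => exact fun v V => (autK ν hν).injective.mem_set_image
  | bot => exact fun v V => Iff.rfl
  | imp φ ψ ih₁ ih₂ => exact fun v V => imp_congr (ih₁ v V) (ih₂ v V)
  | all φ ih =>
    intro v V
    constructor
    · intro h x
      have h1 := h (autK ν hν x)
      rw [← Fin.comp_cons] at h1
      exact (ih _ V).1 h1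
    · intro h x
      obtain ⟨y, rfl⟩ := (autK ν hν).surjective x
      rw [← Fin.comp_cons]
      exact (ih _ V).2 (h y)
  | allCls φ ih =>
    intro v V
    constructor
    · intro h X hX
      have h1 := h (autK ν hν '' X) (cls_image hX hν)
      have h2 : (Fin.cons (autK ν hν '' X) ((fun C => autK ν hν '' C) ∘ V) : Fin _ → Set (WK K)) =
          (fun C => autK ν hν '' C) ∘ (Fin.cons X V : Fin _ → Set (WK K)) := by
        rw [Fin.comp_cons]
      rw [h2] at h1
      exact (ih v _).1 h1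
    · intro h X hX
      have hX' : X = autK ν hν '' (autK ν.symm hν.symm '' X) := by
        rw [← Set.image_comp]
        have : (autK ν hν ∘ autK ν.symm hν.symm : WK K → WK K) = id := by
          funext x
          exact Subtype.ext (actP_symm' _ _)
        rw [this, Set.image_id]
      rw [hX']
      have h2 : (Fin.cons (autK ν hν '' (autK ν.symm hν.symm '' X))
          ((fun C => autK ν hν '' C) ∘ V) : Fin _ → Set (WK K)) =
          (fun C => autK ν hν '' C) ∘ (Fin.cons (autK ν.symm hν.symm '' X) V : Fin _ → Set (WK K)) := by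
        rw [Fin.comp_cons]
      rw [h2]
      exact (ih v _).2 (h _ (cls_image hX hν.symm))

theorem exists_goods : ∀ (n : ℕ) (p : Fin n → WK K), ∃ D : Set (List K), GoodK D ∧
    ∀ i, Over D (p i).1 := by
  intro n
  induction n with
  | zero => exact fun p => ⟨_, goodK_nil, fun i => i.elim0⟩
  | succ n ih =>
    intro p
    obtain ⟨D, hD, h⟩ := ih fun i => p i.succ
    obtain ⟨D', hD', h'⟩ := (p 0).2
    refine ⟨D ∪ D', hD.union hD', fun i => ?_⟩
    refine Fin.cases ?_ (fun i => ?_) i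
    · exact h'.mono Set.subset_union_right
    · exact (h i).mono Set.subset_union_left

theorem exists_goods' : ∀ (m : ℕ) (V : Fin m → Set (WK K)), (∀ j, V j ∈ (SK K).cls) →
    ∃ D : Set (List K), GoodK D ∧ ∀ j, SuppK D (V j) := by
  intro m
  induction m with
  | zero => exact fun V _ => ⟨_, goodK_nil, fun i => i.elim0⟩
  | succ n ih =>
    intro V hV
    obtain ⟨D, hD, h⟩ := ih (fun i => V i.succ) fun i => hV i.succ
    obtain ⟨D', hD', h'⟩ := hV 0
    refine ⟨D ∪ D', hD.union hD', fun i => ?_⟩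
    refine Fin.cases ?_ (fun i => ?_) i
    · exact h'.mono Set.subset_union_right
    · exact (h i).mono Set.subset_union_left

theorem autK_eq {D : Set (List K)} {x : WK K} (h : Over D x.1) {ν : Equiv.Perm (List K)}
    {hν : IsM ν} (hfix : ∀ a ∈ D, ν a = a) : autK ν hν x = x :=
  Subtype.ext (act_eq_self hfix h)

/-- Small classes of objects over a common good tree are sets. -/
theorem exists_setK {D : Set (List K)} (hD : GoodK D) (C : Set (U (List K))) (hC : Small.{u} C)
    (h : ∀ x ∈ C, Over D x) : ∃ v : WK K, ¬ (SK K).ur v ∧ ∀ x, (SK K).mem x v ↔ x.1 ∈ C := by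
  refine ⟨⟨ofSet C, D, hD, over_of_mem not_isAtom_ofSet fun y hy => h y (mem_ofSet.1 hy)⟩,
    not_isAtom_ofSet, fun x => mem_ofSet⟩

/-- Subclasses of sets are sets. -/
theorem exists_subK (w : WK K) (Q : WK K → Prop) :
    ∃ v : WK K, ¬ (SK K).ur v ∧ ∀ x, (SK K).mem x v ↔ (SK K).mem x w ∧ Q x := by
  obtain ⟨D, hD, h⟩ := w.2
  have hsub : {x : U (List K) | Mem x w.1 ∧ ∃ h : HK x, Q ⟨x, h⟩} ⊆ {x | Mem x w.1} :=
    fun _ h => h.1
  have hs : Small.{u} {x : U (List K) | Mem x w.1 ∧ ∃ h : HK x, Q ⟨x, h⟩} := small_subset hsub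
  obtain ⟨v, hv, hv'⟩ := exists_setK hD _ hs fun x hx => Her.mem h hx.1
  exact ⟨v, hv, fun x => (hv' x).trans ⟨fun h => ⟨h.1, h.2.2⟩, fun h => ⟨h.1, x.2, h.2⟩⟩⟩

theorem extK (x y : WK K) (hx : ¬ (SK K).ur x) (hy : ¬ (SK K).ur y)
    (h : ∀ z, (SK K).mem z x ↔ (SK K).mem z y) : x = y := by
  refine Subtype.ext (U.ext hx hy fun z => ⟨fun hz => ?_, fun hz => ?_⟩)
  · exact (h ⟨z, x.2.mem hz⟩).1 hz
  · exact (h ⟨z, y.2.mem hz⟩).2 hz

theorem pairK (x y : WK K) : ∃ z, (SK K).IsUPair z x y := by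
  obtain ⟨D, hD, hx⟩ := x.2
  obtain ⟨E, hE, hy⟩ := y.2
  obtain ⟨v, hv, hv'⟩ := exists_setK (hD.union hE) {x.1, y.1} inferInstance (by
    rintro z (rfl | hz)
    · exact hx.mono Set.subset_union_left
    · obtain rfl : z = y.1 := hz
      exact hy.mono Set.subset_union_right)
  refine ⟨v, hv, fun w => (hv' w).trans ⟨?_, ?_⟩⟩
  · rintro (h | h)
    · exact Or.inl (Subtype.ext h)
    · exact Or.inr (Subtype.ext h)
  · rintro (rfl | rfl)
    · exact Or.inl rfl
    · exact Or.inr rfl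

theorem opairK (x y : WK K) : ∃ p, (SK K).IsPair p x y := ClassStr.exists_pair pairK extK x y

/-- Automorphisms preserve pairs. -/
theorem IsUPair_aut {ν : Equiv.Perm (List K)} {hν : IsM ν} {z x y : WK K}
    (h : (SK K).IsUPair z x y) : (SK K).IsUPair (autK ν hν z) (autK ν hν x) (autK ν hν y) := by
  refine ⟨fun h' => h.1 (isAtom_act.1 h'), fun w => ?_⟩
  obtain ⟨w, rfl⟩ := (autK ν hν).surjective w
  rw [(autK ν hν).injective.eq_iff, (autK ν hν).injective.eq_iff, ← h.2 w]
  exact mem_actP_iff ν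

theorem IsUPair_aut_iff {ν : Equiv.Perm (List K)} {hν : IsM ν} {z x y : WK K} :
    (SK K).IsUPair (autK ν hν z) (autK ν hν x) (autK ν hν y) ↔ (SK K).IsUPair z x y := by
  refine ⟨fun h => ?_, IsUPair_aut⟩
  have h1 := IsUPair_aut (hν := hν.symm) h
  have h2 : ∀ x : WK K, autK ν.symm hν.symm (autK ν hν x) = x :=
    fun x => Subtype.ext (actP_symm _ _)
  rwa [h2, h2, h2] at h1

theorem IsPair_aut {ν : Equiv.Perm (List K)} {hν : IsM ν} {z x y : WK K}
    (h : (SK K).IsPair z x y) : (SK K).IsPair (autK ν hν z) (autK ν hν x) (autK ν hν y) := by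
  refine ⟨fun h' => h.1 (isAtom_act.1 h'), fun w => ?_⟩
  obtain ⟨w, rfl⟩ := (autK ν hν).surjective w
  rw [IsUPair_aut_iff, IsUPair_aut_iff, ← h.2 w]
  exact mem_actP_iff ν

theorem InRel_aut {R : Set (WK K)} {D : Set (List K)} (hR : SuppK D R)
    {ν : Equiv.Perm (List K)} {hν : IsM ν} (hfix : ∀ a ∈ D, ν a = a) {x y : WK K}
    (h : (SK K).InRel R x y) : (SK K).InRel R (autK ν hν x) (autK ν hν y) := by
  obtain ⟨p, hp, hp'⟩ := h
  exact ⟨_, IsPair_aut hp, hR ν hν hfix p hp'⟩

end model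

section axioms

variable {K : Type (u+1)} [Field K] [LinearOrder K] [IsStrictOrderedRing K] (hK : BddK K)

include hK

theorem collectionK : (SK K).Collection := by
  rintro R ⟨D₀, hD₀, hR⟩ w H
  obtain ⟨D₁, hD₁, hw⟩ := w.2
  set α := Shrink.{u} {x | Mem x w.1}
  let X : α → WK K := fun a => ⟨((equivShrink {x | Mem x w.1}).symm a).1, w.2.mem (Subtype.prop _)⟩
  have hX : ∀ a, (SK K).mem (X a) w := fun a => ((equivShrink {x | Mem x w.1}).symm a).2
  have hX' : ∀ x, (SK K).mem x w → ∃ a, X a = x := by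
    intro x hx
    exact ⟨equivShrink {x | Mem x w.1} ⟨x.1, hx⟩, Subtype.ext (by simp [X])⟩
  choose Y hY using fun a => H (X a) (hX a)
  choose T hT hT' using fun a => (Y a).2
  obtain ⟨ν, F, hF, hDF, hν⟩ := amalgK hK (hD₁.union hD₀) T hT
  have hνM : ∀ a, IsM (ν a) := fun a => (hν a).1
  let Z : α → WK K := fun a => autK (ν a) (hνM a) (Y a)
  have hZ : ∀ a, (SK K).InRel R (X a) (Z a) := by
    intro a
    have h1 := InRel_aut (hν := hνM a) hR (fun b hb => (hν a).2.1 b (Or.inr hb)) (hY a)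
    have h2 : autK (ν a) (hνM a) (X a) = X a :=
      autK_eq (D := D₁) (Her.mem hw (hX a)) fun b hb => (hν a).2.1 b (Or.inl hb)
    rwa [h2] at h1
  have hZo : ∀ a, Over F (Z a).1 := fun a =>
    Over.mono (B := ν a '' T a) (hν a).2.2
      (over_act (C := ν a '' T a) (fun b hb => ⟨b, hb, rfl⟩) (hT' a))
  obtain ⟨v, hv, hv'⟩ := exists_setK hF (Set.range fun a => (Z a).1) inferInstance (by
    rintro _ ⟨a, rfl⟩
    exact hZo a)
  refine ⟨v, hv, fun x hx => ?_⟩
  obtain ⟨a, rfl⟩ := hX' x hx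
  exact ⟨Z a, (hv' _).2 ⟨a, rfl⟩, hZ a⟩

omit hK [Field K] [IsStrictOrderedRing K] in
theorem indK_range {v : WK K} (hv : ∀ x, (SK K).mem x v ↔ x.1 ∈ Set.range fun n : ULift.{u} ℕ => (numU n.down : U (List K)))
    (hv' : ¬ (SK K).ur v) : (SK K).IsInd v := by
  have hn : ∀ n, HK (numU n : U (List K)) := fun n =>
    ⟨_, goodK_nil, (numU_over n).mono (Set.empty_subset _)⟩
  refine ⟨hv', ⟨⟨numU 0, hn 0⟩, (hv _).2 ⟨⟨0⟩, rfl⟩, not_isAtom_numU 0, fun z hz => ?_⟩, ?_⟩
  · exact not_mem_numU_zero hz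
  · intro y hy
    obtain ⟨⟨n⟩, hn'⟩ := (hv y).1 hy
    refine ⟨⟨numU (n + 1), hn (n + 1)⟩, (hv _).2 ⟨⟨n + 1⟩, rfl⟩, not_isAtom_numU _, fun w => ?_⟩
    rw [SK_mem, mem_numU_succ, SK_mem, ← hn']
    exact or_congr Iff.rfl ⟨fun h => Subtype.ext (h.trans hn'), fun h => h ▸ hn'.symm⟩

omit hK [Field K] [IsStrictOrderedRing K] in
/-- The set of the natural numbers. -/
theorem exists_omega : ∃ w : WK K, (SK K).IsOmega w ∧ ∀ x, (SK K).mem x w ↔ ∃ n, x.1 = numU n := by
  obtain ⟨v, hv, hv'⟩ := exists_setK (goodK_nil (K := K))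
    (Set.range fun n : ULift.{u} ℕ => (numU n.down : U (List K))) inferInstance (by
      rintro _ ⟨n, rfl⟩
      exact (numU_over _).mono (Set.empty_subset _))
  refine ⟨v, ⟨indK_range hv' hv, ?_⟩, fun x => (hv' x).trans
    ⟨fun ⟨n, h⟩ => ⟨n.down, h.symm⟩, fun ⟨n, h⟩ => ⟨⟨n⟩, h.symm⟩⟩⟩
  intro x hx y hy
  obtain ⟨⟨n⟩, hn⟩ := (hv' y).1 hy
  have key : ∀ n : ℕ, ∀ y : WK K, y.1 = numU n → (SK K).mem y x := by
    intro n
    induction n with
    | zero =>
      intro y hy
      obtain ⟨e, he, he', he''⟩ := hx.2.1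
      have : y = e := extK y e (by rw [SK_ur, hy]; exact not_isAtom_numU 0) he' fun z =>
        ⟨fun h => by rw [SK_mem, hy] at h; exact (not_mem_numU_zero h).elim,
          fun h => (he'' z h).elim⟩
      rw [this]
      exact he
    | succ n ih =>
      intro y hy
      have hn : HK (numU n : U (List K)) := ⟨_, goodK_nil, (numU_over n).mono (Set.empty_subset _)⟩
      obtain ⟨z, hz, hz'⟩ := hx.2.2 _ (ih ⟨numU n, hn⟩ rfl)
      have : y = z := extK y z (by rw [SK_ur, hy]; exact not_isAtom_numU _) hz'.1 fun w => by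
        rw [hz'.2 w, SK_mem, hy, mem_numU_succ, SK_mem]
        exact or_congr Iff.rfl ⟨fun h => Subtype.ext h, fun h => congrArg Subtype.val h⟩
      rw [this]
      exact hz
  exact key n y hn.symm

theorem kmurK : (SK K).KMUR where
  urelement a x ha h := by
    obtain ⟨b, hb⟩ := SK_ur.1 ha
    rw [SK_mem, hb] at h
    exact not_mem_atom h
  extensionality := extK
  foundation x hx := by
    obtain ⟨y, hy⟩ := hx
    obtain ⟨m, hm, hm'⟩ := mem_wf.has_min {z | Mem z x.1} ⟨y.1, hy⟩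
    exact ⟨⟨m, x.2.mem hm⟩, hm, fun z hz hz' => hm' z.1 hz' hz⟩
  pairing := pairK
  union x := by
    obtain ⟨D, hD, hx⟩ := x.2
    have h2 : ∀ w : {w | Mem w x.1}, Small.{u} {z | Mem z w.1} := fun w => small_mem w.1
    have h3 : Small.{u} (⋃ w : {w | Mem w x.1}, {z | Mem z w.1} : Set (U (List K))) :=
      inferInstance
    obtain ⟨v, hv, hv'⟩ := exists_setK hD _ h3 (by
      intro z hz
      obtain ⟨w, hw⟩ := Set.mem_iUnion.1 hz
      exact Her.mem (Her.mem hx w.2) hw)
    refine ⟨v, hv, fun z => (hv' z).trans ?_⟩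
    rw [Set.mem_iUnion]
    constructor
    · rintro ⟨w, hw⟩
      exact ⟨⟨w.1, x.2.mem w.2⟩, w.2, hw⟩
    · rintro ⟨w, hw, hz⟩
      exact ⟨⟨w.1, hw⟩, hz⟩
  powerset x := by
    obtain ⟨D, hD, hx⟩ := x.2
    have h2 : Small.{u} {z : U (List K) | ¬ IsAtom z ∧ ∀ w, Mem w z → Mem w x.1} := by
      refine small_of_injective (β := Set {w | Mem w x.1}) (f := fun z => {w | Mem w.1 z.1}) ?_
      rintro ⟨z, hz⟩ ⟨z', hz'⟩ h
      refine Subtype.ext (U.ext hz.1 hz'.1 fun w => ?_)
      constructor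
      · intro hw
        exact (Set.ext_iff.1 h ⟨w, hz.2 w hw⟩).1 hw
      · intro hw
        exact (Set.ext_iff.1 h ⟨w, hz'.2 w hw⟩).2 hw
    obtain ⟨v, hv, hv'⟩ := exists_setK hD _ h2 fun z hz =>
      over_of_mem hz.1 fun y hy => Her.mem hx (hz.2 y hy)
    refine ⟨v, hv, fun z => (hv' z).trans ⟨fun h => ⟨h.1, fun w hw => h.2 w.1 hw⟩,
      fun h => ⟨h.1, fun w hw => h.2 ⟨w, z.2.mem hw⟩ hw⟩⟩⟩
  infinity := by
    obtain ⟨w, hw, -⟩ := exists_omega (K := K)
    exact ⟨w, hw.1⟩
  separation C _ w := exists_subK w fun x => x ∈ C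
  comprehension n m φ v V hV := by
    obtain ⟨D, hD, hv⟩ := exists_goods n v
    obtain ⟨E, hE, hV'⟩ := exists_goods' m V hV
    refine ⟨D ∪ E, hD.union hE, fun ν hν hfix x hx => ?_⟩
    have h1 := (sat_aut hν φ _ _).2 hx
    rw [Fin.comp_cons] at h1
    have h2 : (autK ν hν ∘ v) = v := by
      funext i
      exact autK_eq (hv i) fun a ha => hfix a (Or.inl ha)
    have h3 : (fun C => autK ν hν '' C) ∘ V = V := by
      funext j
      exact (hV' j).image_eq hν fun a ha => hfix a (Or.inr ha)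
    rw [h2, h3] at h1
    exact h1
  replacement F hF a hfun := by
    obtain ⟨a', ha', h1⟩ := exists_subK a fun x => ∃ y, (SK K).InRel F x y
    obtain ⟨v, hv, hv'⟩ := collectionK hK F hF a' fun x hx => ((h1 x).1 hx).2
    obtain ⟨b, hb, hb'⟩ := exists_subK v fun y => ∃ x, (SK K).mem x a ∧ (SK K).InRel F x y
    refine ⟨b, hb, fun y => (hb' y).trans ⟨fun h => h.2, fun h => ⟨?_, h⟩⟩⟩
    obtain ⟨x, hx, hxy⟩ := h
    obtain ⟨y', hy', hxy'⟩ := hv' x ((h1 x).2 ⟨hx, y, hxy⟩)
    rw [hfun x hx y y' hxy hxy']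
    exact hy'

end axioms

end Pool.Agent.R583.UR
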