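import Mathlib

/-!
# Set theory with urelements without choice: the axioms and the reflection principles

The language has a binary relation symbol for membership and a unary one for being an urelement.
-/

namespace Pool.Agent.R583.UR

open FirstOrder FirstOrder.Language

/-- The relation symbols: membership and being an urelement. -/
inductive Rel : ℕ → Type
  | mem : Rel 2
  | ur : Rel 1

/-- The language of set theory with urelements. -/
def LU : FirstOrder.Language.{0, 0} := ⟨fun _ => Empty, Rel⟩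

section

variable {M : Type*} [LU.Structure M]

/-- Membership. -/
def E (x y : M) : Prop := Structure.RelMap (L := LU) Rel.mem ![x, y]

/-- Being an urelement. -/
def Ur (x : M) : Prop := Structure.RelMap (L := LU) Rel.ur ![x]

/-- The relation `φ(x, y, p)` defined by a formula with `n` parameters. -/
def Def₂ {n : ℕ} (φ : LU.Formula (Fin (n + 2))) (p : Fin n → M) (x y : M) : Prop :=
  φ.Realize (Fin.cons x (Fin.cons y p) : Fin (n + 2) → M)

/-- The class `φ(x, p)` defined by a formula with `n` parameters. -/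
def Def₁ {n : ℕ} (φ : LU.Formula (Fin (n + 1))) (p : Fin n → M) (x : M) : Prop :=
  φ.Realize (Fin.cons x p : Fin (n + 1) → M)

/-- The truth value of the formula obtained from `φ` by bounding all quantifiers by the class `P`
(in particular `φ^t` for a set `t`, with `P x` the formula `x ∈ t`). -/
def RelReal {α : Type} (P : M → Prop) :
    ∀ {n : ℕ}, LU.BoundedFormula α n → (α → M) → (Fin n → M) → Prop
  | _, .falsum, _, _ => False
  | _, .equal t₁ t₂, v, xs => t₁.realize (Sum.elim v xs) = t₂.realize (Sum.elim v xs)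
  | _, .rel R ts, v, xs => Structure.RelMap R fun i => (ts i).realize (Sum.elim v xs)
  | _, .imp f g, v, xs => RelReal P f v xs → RelReal P g v xs
  | _, .all f, v, xs => ∀ x : M, P x → RelReal P f v (Fin.snoc xs x)

/-- `φ^t(x₁, …, xₙ)`. -/
def Rel_ {n : ℕ} (φ : LU.Formula (Fin n)) (t : M) (x : Fin n → M) : Prop :=
  RelReal (fun y => E y t) φ x (default : Fin 0 → M)

/-- `t` is a transitive set. -/
def TransSet (t : M) : Prop := ¬ Ur t ∧ ∀ x, E x t → ∀ y, E y x → E y t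

end

variable (M : Type*) [LU.Structure M]

/-- The axioms of `ZFU_R`. -/
structure ZFUR : Prop where
  /-- Urelements have no members. -/
  urelement : ∀ a x : M, Ur a → ¬ E x a
  /-- Extensionality for sets. -/
  extensionality : ∀ x y : M, ¬ Ur x → ¬ Ur y → (∀ z, E z x ↔ E z y) → x = y
  /-- Foundation. -/
  foundation : ∀ x : M, (∃ y, E y x) → ∃ y, E y x ∧ ∀ z, E z y → ¬ E z x
  /-- Pairing. -/
  pairing : ∀ x y : M, ∃ z, ¬ Ur z ∧ ∀ w, E w z ↔ w = x ∨ w = y
  /-- Union. -/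
  union : ∀ x : M, ∃ y, ¬ Ur y ∧ ∀ z, E z y ↔ ∃ w, E w x ∧ E z w
  /-- Powerset: the set of all subsets that are sets. -/
  powerset : ∀ x : M, ∃ y, ¬ Ur y ∧ ∀ z, E z y ↔ ¬ Ur z ∧ ∀ w, E w z → E w x
  /-- Infinity: a set that contains the empty set and `y ∪ {y}` with every `y`. -/
  infinity : ∃ x : M, ¬ Ur x ∧ (∃ e, E e x ∧ ¬ Ur e ∧ ∀ z, ¬ E z e) ∧
    ∀ y, E y x → ∃ z, E z x ∧ ¬ Ur z ∧ ∀ w, E w z ↔ E w y ∨ w = y
  /-- The Separation scheme, with parameters. -/
  separation : ∀ (n : ℕ) (φ : LU.Formula (Fin (n + 1))) (p : Fin n → M) (w : M),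
    ∃ v, ¬ Ur v ∧ ∀ x, E x v ↔ E x w ∧ Def₁ φ p x
  /-- The Replacement scheme, with parameters. -/
  replacement : ∀ (n : ℕ) (φ : LU.Formula (Fin (n + 2))) (p : Fin n → M) (w : M),
    (∀ x, E x w → ∃! y, Def₂ φ p x y) →
    ∃ v, ¬ Ur v ∧ ∀ y, E y v ↔ ∃ x, E x w ∧ Def₂ φ p x y

/-- The Collection scheme, with parameters. -/
def Collection : Prop := ∀ (n : ℕ) (φ : LU.Formula (Fin (n + 2))) (p : Fin n → M) (w : M),
  (∀ x, E x w → ∃ y, Def₂ φ p x y) →
    ∃ v, ¬ Ur v ∧ ∀ x, E x w → ∃ y, E y v ∧ Def₂ φ p x y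

/-- The reflection scheme `RP`. -/
def RP : Prop := ∀ (n : ℕ) (φ : LU.Formula (Fin n)) (s : M), ¬ Ur s →
  ∃ t, TransSet t ∧ (∀ x, E x s → E x t) ∧
    ∀ x : Fin n → M, (∀ i, E (x i) t) → (φ.Realize x ↔ Rel_ φ t x)

/-- The weak reflection scheme `RP⁻`. -/
def RPminus : Prop := ∀ (n : ℕ) (φ : LU.Formula (Fin n)) (x : Fin n → M), φ.Realize x →
  ∃ t, TransSet t ∧ (∀ i, E (x i) t) ∧ Rel_ φ t x

/-! ### The sentence -/

section

variable {M}
variable (P : M → Prop)

/-- `X` is a set of urelements. -/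
def AtSetP (X : M) : Prop := ¬ Ur X ∧ ∀ z, P z → E z X → Ur z

/-- There is a nonempty family of subsets of `K` without a maximal member. -/
def InfP (K : M) : Prop := ∃ N, P N ∧ ((∃ S, P S ∧ E S N) ∧ ∀ S, P S → E S N →
  ∃ S', P S' ∧ (E S' N ∧ (∀ z, P z → E z S → E z S') ∧ (∃ z, P z ∧ (E z S' ∧ ¬ E z S)) ∧
    ∀ z, P z → E z S' → E z K))

/-- `F` is a set of pairwise disjoint infinite sets of urelements, all of which have at most one
point in `X`, and which cover `X`. -/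
def PartP (X F : M) : Prop := (∀ x, P x → E x X → ∃ K, P K ∧ (E K F ∧ E x K)) ∧
  ∀ K, P K → E K F → (AtSetP P K ∧ InfP P K ∧
    (∀ K', P K' → E K' F → ∀ z, P z → E z K → E z K' → K = K') ∧
    ∀ x, P x → E x X → ∀ y, P y → E y X → E x K → E y K → x = y)

/-- Every set of urelements is a transversal of a partition into infinite sets. -/
def ThetaP : Prop := (∃ X, P X ∧ (AtSetP P X ∧ ∃ x, P x ∧ E x X)) ∧
  ∀ X, P X → AtSetP P X → ∃ F, P F ∧ PartP P X F

end

section

variable {n : ℕ}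

/-- Membership as a formula. -/
def memF (i j : Fin n) : LU.BoundedFormula (Fin 0) n :=
  .rel (Rel.mem : LU.Relations 2) ![.var (Sum.inr i), .var (Sum.inr j)]

/-- Being an urelement as a formula. -/
def urF (i : Fin n) : LU.BoundedFormula (Fin 0) n :=
  .rel (Rel.ur : LU.Relations 1) ![.var (Sum.inr i)]

/-- Equality as a formula. -/
def eqF (i j : Fin n) : LU.BoundedFormula (Fin 0) n :=
  .equal (.var (Sum.inr i)) (.var (Sum.inr j))

/-- `X` is a set of urelements. -/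
def atSetF (X : Fin n) : LU.BoundedFormula (Fin 0) n :=
  (urF X).not ⊓ ((memF (Fin.last n) X.castSucc).imp (urF (Fin.last n))).all

/-- Theta as a sentence. -/
def thetaF : LU.Formula (Fin 0) :=
  -- `∃ X₀, AtSet X₀ ∧ ∃ x₁, x₁ ∈ X₀`
  ((atSetF (n := 1) 0) ⊓ (memF (n := 2) 1 0).ex).ex ⊓
  -- `∀ X₀, AtSet X₀ → ∃ F₁`
  ((atSetF (n := 1) 0).imp
    -- `∀ x₂ ∈ X₀, ∃ K₃ ∈ F₁, x₂ ∈ K₃`
    ((((memF (n := 3) 2 0).imp ((memF (n := 4) 3 1) ⊓ (memF 2 3)).ex).all) ⊓
    -- `∀ K₂ ∈ F₁`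
     ((memF (n := 3) 2 1).imp
       ((atSetF 2) ⊓
        -- `∃ N₃, (∃ S₄, S₄ ∈ N₃) ∧ ∀ S₄ ∈ N₃, ∃ S₅ ∈ N₃`
        ((((memF (n := 5) 4 3).ex) ⊓ ((memF (n := 5) 4 3).imp
          (((memF (n := 6) 5 3) ⊓
            ((((memF (n := 7) 6 4).imp (memF 6 5)).all) ⊓
             ((((memF (n := 7) 6 5) ⊓ (memF 6 4).not).ex) ⊓
              (((memF (n := 7) 6 5).imp (memF 6 2)).all))))).ex).all).ex ⊓
        -- `∀ K₃ ∈ F₁, ∀ z₄ ∈ K₂, z₄ ∈ K₃ → K₂ = K₃`
        ((((memF (n := 4) 3 1).imp ((memF (n := 5) 4 2).imp ((memF 4 3).imp (eqF 2 3))).all).all) ⊓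
        -- `∀ x₃ ∈ X₀, ∀ y₄ ∈ X₀, x₃ ∈ K₂ → y₄ ∈ K₂ → x₃ = y₄`
        (((memF (n := 4) 3 0).imp ((memF (n := 5) 4 0).imp ((memF 3 2).imp ((memF 4 2).imp
          (eqF 3 4)))).all).all))))).all).ex).all

end

section

variable {M} (P : M → Prop)

theorem relReal_not {α : Type} {n : ℕ} {f : LU.BoundedFormula α n} {v : α → M} {xs : Fin n → M} :
    RelReal P f.not v xs ↔ ¬ RelReal P f v xs := Iff.rfl

theorem relReal_imp {α : Type} {n : ℕ} {f g : LU.BoundedFormula α n} {v : α → M}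
    {xs : Fin n → M} : RelReal P (f.imp g) v xs ↔ (RelReal P f v xs → RelReal P g v xs) := Iff.rfl

theorem relReal_all {α : Type} {n : ℕ} {f : LU.BoundedFormula α (n + 1)} {v : α → M}
    {xs : Fin n → M} : RelReal P f.all v xs ↔ ∀ x, P x → RelReal P f v (Fin.snoc xs x) := Iff.rfl

theorem relReal_inf {α : Type} {n : ℕ} {f g : LU.BoundedFormula α n} {v : α → M}
    {xs : Fin n → M} : RelReal P (f ⊓ g) v xs ↔ (RelReal P f v xs ∧ RelReal P g v xs) := by
  show ((RelReal P f v xs → RelReal P g v xs → False) → False) ↔ _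
  tauto

theorem relReal_ex {α : Type} {n : ℕ} {f : LU.BoundedFormula α (n + 1)} {v : α → M}
    {xs : Fin n → M} : RelReal P f.ex v xs ↔ ∃ x, P x ∧ RelReal P f v (Fin.snoc xs x) := by
  show ((∀ x, P x → (RelReal P f v (Fin.snoc xs x) → False)) → False) ↔ _
  constructor
  · intro h
    by_contra hc
    exact h fun x hx hf => hc ⟨x, hx, hf⟩
  · rintro ⟨x, hx, hf⟩ h
    exact h x hx hf

theorem relReal_mem {n : ℕ} {i j : Fin n} {v : Fin 0 → M} {xs : Fin n → M} :
    RelReal P (memF i j) v xs ↔ E (xs i) (xs j) := by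
  show Structure.RelMap (L := LU) Rel.mem _ ↔ Structure.RelMap (L := LU) Rel.mem _
  apply iff_of_eq
  congr 1
  funext k
  fin_cases k <;> rfl

theorem relReal_ur {n : ℕ} {i : Fin n} {v : Fin 0 → M} {xs : Fin n → M} :
    RelReal P (urF i) v xs ↔ Ur (xs i) := by
  show Structure.RelMap (L := LU) Rel.ur _ ↔ Structure.RelMap (L := LU) Rel.ur _
  apply iff_of_eq
  congr 1
  funext k
  fin_cases k <;> rfl

theorem relReal_eq {n : ℕ} {i j : Fin n} {v : Fin 0 → M} {xs : Fin n → M} :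
    RelReal P (eqF i j) v xs ↔ xs i = xs j := Iff.rfl

theorem relReal_atSet {n : ℕ} {i : Fin n} {v : Fin 0 → M} {xs : Fin n → M} :
    RelReal P (atSetF i) v xs ↔ AtSetP P (xs i) := by
  unfold atSetF AtSetP
  rw [relReal_inf, relReal_not, relReal_ur, relReal_all]
  simp only [relReal_imp, relReal_mem, relReal_ur, Fin.snoc_last, Fin.snoc_castSucc]

/-- The class of all things gives the truth value. -/
theorem relReal_true {α : Type} {n : ℕ} (f : LU.BoundedFormula α n) (v : α → M) (xs : Fin n → M) :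
    RelReal (fun _ => True) f v xs ↔ f.Realize v xs := by
  induction f with
  | falsum => exact Iff.rfl
  | equal t₁ t₂ => exact Iff.rfl
  | rel R ts => exact Iff.rfl
  | imp f g ih₁ ih₂ => exact imp_congr (ih₁ xs) (ih₂ xs)
  | all f ih =>
    show (∀ x : M, True → RelReal _ f v (Fin.snoc xs x)) ↔ _
    simp only [true_imp_iff, ih]
    exact Iff.rfl

theorem relReal_theta {v : Fin 0 → M} {xs : Fin 0 → M} :
    RelReal P thetaF v xs ↔ ThetaP P := by
  unfold thetaF ThetaP PartP InfP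
  simp only [relReal_inf, relReal_not, relReal_all, relReal_ex, relReal_imp,
    relReal_mem, relReal_eq, relReal_atSet]
  exact Iff.rfl

end

end Pool.Agent.R583.UR
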