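import Pool.Agent.R583.UR.OrdK

/-!
# An ordered field whose small subsets are bounded
-/

namespace Pool.Agent.R583.UR

universe u

/-- An ultrafilter on the finite sets of ordinals that contains the final segments. -/
noncomputable def ufl : Ultrafilter (Finset Ordinal.{u}) := Ultrafilter.of Filter.atTop

/-- The ultrapower of the rationals. -/
abbrev KF : Type (u+1) := Filter.Germ (ufl.{u} : Filter (Finset Ordinal.{u})) ℚ

theorem mem_ufl (i : Ordinal.{u}) : ∀ᶠ s in (ufl.{u} : Filter (Finset Ordinal.{u})), i ∈ s := by
  have h1 : ∀ᶠ s in (Filter.atTop : Filter (Finset Ordinal.{u})), i ∈ s := by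
    filter_upwards [Filter.eventually_ge_atTop {i}] with s hs
    exact hs (Finset.mem_singleton_self i)
  exact Ultrafilter.of_le _ h1

noncomputable example : Field KF.{u} := inferInstance
noncomputable example : LinearOrder KF.{u} := inferInstance
example : IsStrictOrderedRing KF.{u} := inferInstance

open scoped Classical in
theorem bddK_KF : BddK KF.{u} := by
  intro S hS
  have hf : ∀ k : KF.{u}, ∃ f : Finset Ordinal.{u} → ℚ, k = ↑f := fun k =>
    Filter.Germ.inductionOn k fun f => ⟨f, rfl⟩
  choose f hf using hf
  let α := Shrink.{u} S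
  let e : S → Ordinal.{u} := fun k => Ordinal.typein (WellOrderingRel : α → α → Prop)
    (equivShrink S k)
  have he : Function.Injective e := by
    intro a b h
    exact (equivShrink S).injective (Ordinal.typein_injective _ h)
  let F : Ordinal.{u} → Finset Ordinal.{u} → ℚ := fun i s =>
    if h : ∃ k : S, e k = i then f h.choose.1 s else 0
  have hF : ∀ k : S, F (e k) = f k.1 := by
    intro k
    funext s
    have h : ∃ k' : S, e k' = e k := ⟨k, rfl⟩
    have h1 : h.choose = k := he h.choose_spec
    simp only [F, h, dite_true, h1]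
  refine ⟨(↑(fun s : Finset Ordinal.{u} => ∑ i ∈ s, |F i s|) : KF.{u}), ?_⟩
  intro k hk
  rw [hf k]
  refine Filter.Germ.coe_le.2 ?_
  filter_upwards [mem_ufl (e ⟨k, hk⟩)] with s hs
  have h1 : |F (e ⟨k, hk⟩) s| ≤ ∑ i ∈ s, |F i s| :=
    Finset.single_le_sum (f := fun i => |F i s|) (fun i _ => abs_nonneg _) hs
  rw [hF] at h1
  exact (le_abs_self _).trans h1

end Pool.Agent.R583.UR
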