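import Pool.Agent.R583.UR.Amalg
import Pool.Agent.R583.UR.Defs

/-!
# The model
-/

namespace Pool.Agent.R583.UR

universe u

open U FirstOrder FirstOrder.Language

/-! ### More on the action -/

theorem act_symm_act (π : Equiv.Perm Atm.{u}) (x : U Atm.{u}) : act π.symm (act π x) = x := by
  rw [act_act, Equiv.symm_comp_self, act_id]

theorem act_act_symm (π : Equiv.Perm Atm.{u}) (x : U Atm.{u}) : act π (act π.symm x) = x := by
  rw [act_act, Equiv.self_comp_symm, act_id]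

theorem mem_act_iff (π : Equiv.Perm Atm.{u}) {x y : U Atm.{u}} :
    Mem (act π x) (act π y) ↔ Mem x y := by
  constructor
  · intro h
    obtain ⟨z, hz, h⟩ := mem_act.1 h
    have := congrArg (act π.symm) h
    rw [act_symm_act, act_symm_act] at this
    rwa [this]
  · exact fun h => mem_act.2 ⟨x, h, rfl⟩

theorem act_eq_of_maps {π : Equiv.Perm Atm.{u}} {x y : U Atm.{u}} (hx : ¬ IsAtom x)
    (hy : ¬ IsAtom y) (h : ∀ z, Mem z x → Mem (act π z) y)
    (h' : ∀ z, Mem z y → Mem (act π.symm z) x) : act π x = y := by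
  refine U.ext (fun h => hx (isAtom_act.1 h)) hy fun z => ?_
  rw [mem_act]
  constructor
  · rintro ⟨w, hw, rfl⟩
    exact h w hw
  · intro hz
    exact ⟨_, h' z hz, (act_act_symm _ _).symm⟩

/-- `e` supports `x`. -/
def Supp (e : Set Atm.{u}) (x : U Atm.{u}) : Prop :=
  ∀ π : Equiv.Perm Atm.{u}, IsG π → (∀ a ∈ e, π a = a) → act π x = x

theorem Supp.mono {e f : Set Atm.{u}} (h : e ⊆ f) {x : U Atm.{u}} (hx : Supp e x) : Supp f x :=
  fun π hπ hf => hx π hπ fun a ha => hf a (h ha)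

theorem supp_of_maps {e : Set Atm.{u}} {x : U Atm.{u}} (hx : ¬ IsAtom x)
    (h : ∀ π : Equiv.Perm Atm.{u}, IsG π → (∀ a ∈ e, π a = a) → ∀ z, Mem z x → Mem (act π z) x) :
    Supp e x := by
  intro π hπ he
  refine act_eq_of_maps hx hx (h π hπ he) (h π.symm hπ.symm fun a ha => ?_)
  rw [Equiv.symm_apply_eq, he a ha]

/-- Finitely supported. -/
def FS (x : U Atm.{u}) : Prop := ∃ e : Set Atm.{u}, e.Finite ∧ Supp e x

/-- Hereditarily finitely supported, with urelements over a good tree. -/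
def HW (x : U Atm.{u}) : Prop := Her FS x ∧ ∃ D, Good D ∧ Over (B D) x

theorem HW.mem {x y : U Atm.{u}} (h : HW x) (hy : Mem y x) : HW y := by
  obtain ⟨h1, D, hD, h2⟩ := h
  exact ⟨h1.mem hy, D, hD, Her.mem h2 hy⟩

theorem hw_set {x : U Atm.{u}} (hx : ¬ IsAtom x) {e : Set Atm.{u}} (he : e.Finite)
    (hs : Supp e x) {D : Set (List Idx.{u})} (hD : Good D)
    (h : ∀ y, Mem y x → HW y ∧ Over (B D) y) : HW x :=
  ⟨⟨_, ⟨e, he, hs⟩, fun y hy => (h y hy).1.1⟩, D, hD, over_of_mem hx fun y hy => (h y hy).2⟩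

theorem supp_atom (a : Atm.{u}) : Supp {a} (atom a) := by
  intro π _ h
  rw [act_atom, h a rfl]

theorem hw_atom (a : Atm.{u}) : HW (atom a) :=
  ⟨⟨_, ⟨{a}, Set.finite_singleton _, supp_atom a⟩, fun _ hy => (not_mem_atom hy).elim⟩,
    _, good_prefixes (node a), over_atom_iff.2 (show node a <+: node a from List.prefix_rfl)⟩

theorem supp_act {ν : Equiv.Perm Atm.{u}} (hν : IsN ν) {e : Set Atm.{u}} {x : U Atm.{u}}
    (hx : Supp e x) : Supp (ν '' e) (act ν x) := by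
  intro π hπ he
  have h1 : act ((ν.trans π).trans ν.symm) x = x := by
    refine hx _ (hν.conj hπ) fun a ha => ?_
    show ν.symm (π (ν a)) = a
    rw [he _ ⟨a, ha, rfl⟩, Equiv.symm_apply_apply]
  have h2 : act ν (act ((ν.trans π).trans ν.symm) x) = act π (act ν x) := by
    rw [act_act, act_act]
    congr 1
    funext a
    show ν (ν.symm (π (ν a))) = π (ν a)
    rw [Equiv.apply_symm_apply]
  rw [← h2, h1]

theorem her_act {P Q : U Atm.{u} → Prop} {g : Atm.{u} → Atm.{u}} (h : ∀ x, P x → Q (act g x))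
    {x : U Atm.{u}} (hx : Her P x) : Her Q (act g x) := by
  induction hx with
  | intro x h1 _ ih =>
    refine ⟨_, h x h1, fun z hz => ?_⟩
    obtain ⟨y, hy, rfl⟩ := mem_act.1 hz
    exact ih y hy

theorem HW.act {ν : Equiv.Perm Atm.{u}} (hν : IsN ν) {x : U Atm.{u}} (hx : HW x) :
    HW (act ν x) := by
  obtain ⟨h1, D, hD, h2⟩ := hx
  refine ⟨her_act ?_ h1, im ν D, good_im hν hD, over_act map_B h2⟩
  rintro y ⟨e, he, h⟩
  exact ⟨ν '' e, he.image _, supp_act hν h⟩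

theorem over_actG {π : Equiv.Perm Atm.{u}} (hπ : IsG π) {D : Set (List Idx.{u})} {x : U Atm.{u}}
    (hx : Over (B D) x) : Over (B D) (act π x) :=
  over_act (fun a ha => by rw [mem_B, hπ.nd]; exact ha) hx

/-- The model. -/
abbrev W : Type (u+1) := {x : U Atm.{u} // HW x}

/-- The relations of the model. -/
def relW : {n : ℕ} → Rel n → (Fin n → W.{u}) → Prop
  | _, .mem, v => Mem (v 0).1 (v 1).1
  | _, .ur, v => IsAtom (v 0).1

instance : LU.Structure W.{u} where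
  funMap f := Empty.elim f
  RelMap r v := relW r v

theorem E_iff {x y : W.{u}} : E x y ↔ Mem x.1 y.1 := Iff.rfl

theorem Ur_iff {x : W.{u}} : Ur x ↔ IsAtom x.1 := Iff.rfl

/-- The automorphisms. -/
def aut (ν : Equiv.Perm Atm.{u}) (hν : IsN ν) : W.{u} ≃[LU] W.{u} where
  toFun x := ⟨act ν x.1, x.2.act hν⟩
  invFun x := ⟨act ν.symm x.1, x.2.act hν.symm⟩
  left_inv x := Subtype.ext (act_symm_act _ _)
  right_inv x := Subtype.ext (act_act_symm _ _)
  map_fun' f := Empty.elim f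
  map_rel' r v := by
    cases r with
    | mem => exact mem_act_iff ν
    | ur => exact isAtom_act

theorem aut_val {ν : Equiv.Perm Atm.{u}} {hν : IsN ν} {x : W.{u}} : (aut ν hν x).1 = act ν x.1 :=
  rfl

theorem def₂_aut {n : ℕ} {φ : LU.Formula (Fin (n + 2))} {p : Fin n → W.{u}} {x y : W.{u}}
    {ν : Equiv.Perm Atm.{u}} {hν : IsN ν} (hp : ∀ i, aut ν hν (p i) = p i) :
    Def₂ φ p (aut ν hν x) (aut ν hν y) ↔ Def₂ φ p x y := by
  have h := StrongHomClass.realize_formula (aut ν hν) φ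
    (v := (Fin.cons x (Fin.cons y p) : Fin (n + 2) → W.{u}))
  have h2 : (aut ν hν) ∘ (Fin.cons x (Fin.cons y p) : Fin (n + 2) → W.{u}) =
      Fin.cons (aut ν hν x) (Fin.cons (aut ν hν y) p) := by
    rw [Fin.comp_cons, Fin.comp_cons]
    congr 2
    funext i
    exact hp i
  rw [h2] at h
  exact h

theorem def₁_aut {n : ℕ} {φ : LU.Formula (Fin (n + 1))} {p : Fin n → W.{u}} {x : W.{u}}
    {ν : Equiv.Perm Atm.{u}} {hν : IsN ν} (hp : ∀ i, aut ν hν (p i) = p i) :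
    Def₁ φ p (aut ν hν x) ↔ Def₁ φ p x := by
  have h := StrongHomClass.realize_formula (aut ν hν) φ
    (v := (Fin.cons x p : Fin (n + 1) → W.{u}))
  have h2 : (aut ν hν) ∘ (Fin.cons x p : Fin (n + 1) → W.{u}) =
      Fin.cons (aut ν hν x) p := by
    rw [Fin.comp_cons]
    congr 1
    funext i
    exact hp i
  rw [h2] at h
  exact h

/-- Parameters have common supports and trees. -/
theorem exists_params : ∀ (n : ℕ) (p : Fin n → W.{u}), ∃ (e : Set Atm.{u})
    (D : Set (List Idx.{u})), e.Finite ∧ Good D ∧ ∀ i, Supp e (p i).1 ∧ Over (B D) (p i).1 := by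
  intro n
  induction n with
  | zero => exact fun p => ⟨∅, _, Set.finite_empty, good_nil, fun i => i.elim0⟩
  | succ n ih =>
    intro p
    obtain ⟨e, D, he, hD, h⟩ := ih fun i => p i.succ
    obtain ⟨f, hf, hf'⟩ := (p 0).2.1.self
    obtain ⟨D', hD', h'⟩ := (p 0).2.2
    refine ⟨e ∪ f, D ∪ D', he.union hf, hD.union hD', fun i => ?_⟩
    refine Fin.cases ?_ (fun i => ?_) i
    · exact ⟨hf'.mono Set.subset_union_right, h'.mono fun a ha => Or.inr ha⟩
    · exact ⟨(h i).1.mono Set.subset_union_left, (h i).2.mono fun a ha => Or.inl ha⟩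

/-- Invariant subclasses of sets are sets. -/
theorem exists_sep (w : W.{u}) (Q : W.{u} → Prop) {e : Set Atm.{u}} (he : e.Finite)
    (hQ : ∀ (π : Equiv.Perm Atm.{u}) (hπ : IsG π), (∀ a ∈ e, π a = a) → ∀ x, Q x →
      Q (aut π hπ.isN x)) : ∃ v : W.{u}, ¬ Ur v ∧ ∀ x, E x v ↔ E x w ∧ Q x := by
  obtain ⟨f, hf, hf'⟩ := w.2.1.self
  obtain ⟨D, hD, h⟩ := w.2.2
  have hsm := small_mem w.1
  have hsub : {x : U Atm.{u} | Mem x w.1 ∧ ∃ h : HW x, Q ⟨x, h⟩} ⊆ {x | Mem x w.1} :=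
    fun _ h => h.1
  have hs : Small.{u} {x : U Atm.{u} | Mem x w.1 ∧ ∃ h : HW x, Q ⟨x, h⟩} := small_subset hsub
  have hv : HW (ofSet {x : U Atm.{u} | Mem x w.1 ∧ ∃ h : HW x, Q ⟨x, h⟩}) := by
    refine hw_set not_isAtom_ofSet (he.union hf) (supp_of_maps not_isAtom_ofSet ?_) hD ?_
    · intro π hπ hfix z hz
      rw [mem_ofSet] at hz ⊢
      obtain ⟨h1, h2, h3⟩ := hz
      refine ⟨?_, h2.act hπ.isN, hQ π hπ (fun a ha => hfix a (Or.inl ha)) _ h3⟩
      rw [← hf' π hπ fun a ha => hfix a (Or.inr ha)]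
      exact (mem_act_iff π).2 h1
    · intro y hy
      rw [mem_ofSet] at hy
      exact ⟨hy.2.1, Her.mem h hy.1⟩
  refine ⟨⟨_, hv⟩, not_isAtom_ofSet, fun x => ?_⟩
  rw [E_iff, mem_ofSet]
  exact ⟨fun h => ⟨h.1, h.2.2⟩, fun h => ⟨h.1, x.2, h.2⟩⟩

/-- The orbits are small. -/
theorem small_orbit {z : U Atm.{u}} {D : Set (List Idx.{u})} (hD : Good D) (hz : Over (B D) z) :
    Small.{u} {x | ∃ π : Equiv.Perm Atm.{u}, IsG π ∧ x = act π z} := by
  classical
  have := small_B hD.small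
  have h1 : {x | ∃ π : Equiv.Perm Atm.{u}, IsG π ∧ x = act π z} ⊆
      Set.range fun f : B D → B D => act (fun a => if h : a ∈ B D then (f ⟨a, h⟩).1 else a) z := by
    rintro x ⟨π, hπ, rfl⟩
    refine ⟨fun a => ⟨π a.1, by rw [mem_B, hπ.nd]; exact a.2⟩, ?_⟩
    refine act_congr (fun a ha => ?_) hz
    simp only [ha, dite_true]
  exact small_subset h1

theorem collection_W : Collection W.{u} := by
  intro n φ p w H
  obtain ⟨_, D₀, -, hD₀, hp⟩ := exists_params n p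
  obtain ⟨D₁, hD₁, hw⟩ := w.2.2
  have hsm := small_mem w.1
  set α := Shrink.{u} {x | Mem x w.1}
  let X : α → W.{u} := fun a => ⟨((equivShrink {x | Mem x w.1}).symm a).1, w.2.mem (Subtype.prop _)⟩
  have hX : ∀ a, E (X a) w := fun a => ((equivShrink {x | Mem x w.1}).symm a).2
  have hX' : ∀ x, E x w → ∃ a, X a = x := by
    intro x hx
    exact ⟨equivShrink {x | Mem x w.1} ⟨x.1, hx⟩, Subtype.ext (by simp [X])⟩
  choose Y hY using fun a => H (X a) (hX a)
  choose T hT hT' using fun a => (Y a).2.2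
  obtain ⟨ν, F, hF, hDF, hν⟩ := amalg (hD₁.union hD₀) T hT
  have hνN : ∀ a, IsN (ν a) := fun a => (hν a).1
  have hfixw : ∀ a, ∀ x : W.{u}, E x w → aut (ν a) (hνN a) x = x := fun a x hx =>
    Subtype.ext (act_eq_self (B := B D₁) (fun b hb => (hν a).2.1 b (Or.inl hb)) (Her.mem hw hx))
  have hfixp : ∀ a, ∀ i, aut (ν a) (hνN a) (p i) = p i := fun a i =>
    Subtype.ext (act_eq_self (B := B D₀) (fun b hb => (hν a).2.1 b (Or.inr hb)) (hp i).2)
  let Z : α → W.{u} := fun a => aut (ν a) (hνN a) (Y a)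
  have hZ : ∀ a, Def₂ φ p (X a) (Z a) := by
    intro a
    have := (def₂_aut (x := X a) (y := Y a) (φ := φ) (hfixp a)).2 (hY a)
    rwa [hfixw a _ (hX a)] at this
  have hZo : ∀ a, Over (B F) (Z a).1 := fun a =>
    Over.mono (B := B (im (ν a) (T a))) (fun b hb => (hν a).2.2 hb) (over_act map_B (hT' a))
  have hso : ∀ a, Small.{u} {x | ∃ π : Equiv.Perm Atm.{u}, IsG π ∧ x = U.act π (Z a).1} :=
    fun a => small_orbit hF (hZo a)
  have hsv : Small.{u} (⋃ a, {x | ∃ π : Equiv.Perm Atm.{u}, IsG π ∧ x = U.act π (Z a).1} :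
    Set (U Atm.{u})) := inferInstance
  have hv : HW (ofSet (⋃ a, {x | ∃ π : Equiv.Perm Atm.{u}, IsG π ∧ x = U.act π (Z a).1})) := by
    refine hw_set not_isAtom_ofSet Set.finite_empty (supp_of_maps not_isAtom_ofSet ?_) hF ?_
    · intro π hπ _ z hz
      rw [mem_ofSet, Set.mem_iUnion] at hz ⊢
      obtain ⟨a, σ, hσ, rfl⟩ := hz
      refine ⟨a, σ.trans π, hσ.trans hπ, ?_⟩
      rw [act_act]
      rfl
    · intro y hy
      rw [mem_ofSet, Set.mem_iUnion] at hy
      obtain ⟨a, σ, hσ, rfl⟩ := hy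
      exact ⟨(Z a).2.act hσ.isN, over_actG hσ (hZo a)⟩
  refine ⟨⟨_, hv⟩, not_isAtom_ofSet, fun x hx => ?_⟩
  obtain ⟨a, rfl⟩ := hX' x hx
  refine ⟨Z a, ?_, hZ a⟩
  rw [E_iff, mem_ofSet, Set.mem_iUnion]
  exact ⟨a, Equiv.refl _, isG_refl, (act_id _).symm⟩

end Pool.Agent.R583.UR
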