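import Pool.Agent.R583.UR.Theta

/-!
# No transitive set of the model satisfies the sentence
-/

namespace Pool.Agent.R583.UR

universe u

open U FirstOrder FirstOrder.Language

section

variable {t : W.{u}} (ht : TransSet t)

include ht

theorem mem_t {x y : W.{u}} (hy : E y t) (hx : E x y) : E x t := ht.2 y hy x hx

/-- Tarski-infinite sets of urelements in `t` are infinite. -/
theorem infinite_of_infP {K : W.{u}} (hK : InfP (fun y => E y t) K) :
    {z : W.{u} | E z K}.Infinite := by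
  obtain ⟨N, hN, ⟨S₀, hS₀, hS₀N⟩, h⟩ := hK
  intro hfin
  have key : ∀ n : ℕ, ∃ S, E S N ∧ {z : W.{u} | E z S} ⊆ {z : W.{u} | E z K} ∧
      n ≤ {z : W.{u} | E z S}.ncard := by
    intro n
    induction n with
    | zero =>
      obtain ⟨S', hS', hS'N, h1, h2, h3⟩ := h S₀ hS₀ hS₀N
      exact ⟨S', hS'N, fun z hz => h3 z (mem_t ht hS' hz) hz, Nat.zero_le _⟩
    | succ n ih =>
      obtain ⟨S, hS, hSK, hn⟩ := ih
      obtain ⟨S', hS', hS'N, h1, ⟨z, hz, hz1, hz2⟩, h3⟩ := h S (mem_t ht hN hS) hS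
      have hSt : E S t := mem_t ht hN hS
      have h4 : {z : W.{u} | E z S'} ⊆ {z : W.{u} | E z K} :=
        fun z hz => h3 z (mem_t ht hS' hz) hz
      refine ⟨S', hS'N, h4, ?_⟩
      have h5 : {z : W.{u} | E z S} ⊂ {z : W.{u} | E z S'} :=
        ⟨fun z hz => h1 z (mem_t ht hSt hz) hz, fun h => hz2 (h hz1)⟩
      have h6 := Set.ncard_lt_ncard h5 (hfin.subset h4)
      omega
  obtain ⟨S, -, hSK, hn⟩ := key ({z : W.{u} | E z K}.ncard + 1)
  have := Set.ncard_le_ncard hSK hfin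
  omega

/-- The urelements of an infinite set of urelements in `t`. -/
theorem infinite_atoms {K : W.{u}} (hKt : E K t) (hA : AtSetP (fun y => E y t) K)
    (hK : InfP (fun y => E y t) K) : {a : Atm.{u} | Mem (atom a) K.1}.Infinite := by
  intro hfin
  refine infinite_of_infP ht hK ?_
  have : {z : W.{u} | E z K} ⊆ (fun a : Atm.{u} => (⟨atom a, hw_atom a⟩ : W.{u})) ''
      {a : Atm.{u} | Mem (atom a) K.1} := by
    intro z hz
    obtain ⟨a, ha⟩ := Ur_iff.1 (hA.2 z (mem_t ht hKt hz) hz)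
    refine ⟨a, ?_, Subtype.ext ha.symm⟩
    show Mem (atom a) K.1
    rw [← ha]
    exact hz
  exact (hfin.image _).subset this

/-- A set of urelements in `t` with a support and an urelement outside of its closure. -/
def Tr (t : W.{u}) (q : W.{u} × Set Atm.{u} × Atm.{u}) : Prop :=
  E q.1 t ∧ AtSetP (fun y => E y t) q.1 ∧ q.2.1.Finite ∧ Supp q.2.1 q.1.1 ∧
    Mem (atom q.2.2) q.1.1 ∧ q.2.2 ∉ cl q.2.1

theorem descent (h : ThetaP (fun y => E y t)) {q : W.{u} × Set Atm.{u} × Atm.{u}}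
    (hq : Tr t q) : ∃ q', Tr t q' ∧ node q.2.2 <+: node q'.2.2 ∧
      (node q.2.2).length < (node q'.2.2).length := by
  obtain ⟨K, e, y⟩ := q
  obtain ⟨hKt, hKA, he, hs, hy, hye⟩ := hq
  dsimp only at hKt hKA he hs hy hye
  obtain ⟨F, hFt, hcov, hF⟩ := h.2 K hKt hKA
  obtain ⟨e₁, he₁, hsF⟩ := F.2.1.self
  obtain ⟨π, hπ, hfix, hπy⟩ := exists_move he (he.union he₁) hye
  set y' := π y with hy'
  have hnode : node y' = node y := hπ.nd y
  have hy'K : Mem (atom y') K.1 := by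
    rw [← hs π hπ hfix, hy', ← act_atom]
    exact (mem_act_iff π).2 hy
  have hy't : E (⟨atom y', hw_atom _⟩ : W.{u}) t := mem_t ht hKt hy'K
  obtain ⟨K', hK't, hK'F, hyK'⟩ := hcov ⟨atom y', hw_atom _⟩ hy't hy'K
  obtain ⟨hA, hI, hdis, hone⟩ := hF K' hK't hK'F
  have hinf := infinite_atoms ht hK't hA hI
  have hfin : (e ∪ e₁ ∪ {y'}).Finite := (he.union he₁).union (Set.finite_singleton _)
  obtain ⟨z, hz, hzcl⟩ := (hinf.sdiff (finite_cl hfin)).nonempty
  -- the new support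
  have hinv : ∀ σ : Equiv.Perm Atm.{u}, IsG σ → (∀ a ∈ e ∪ e₁, σ a = a) → ∀ w,
      Mem (atom w) K'.1 → σ w = w → act σ K'.1 = K'.1 := by
    intro σ hσ hfixσ w hw hσw
    have h1 : act σ F.1 = F.1 := hsF σ hσ fun a ha => hfixσ a (Or.inr ha)
    have h2 : E (aut σ hσ.isN K') F := by
      rw [E_iff, ← h1]
      exact (mem_act_iff σ).2 hK'F
    have h3 : Mem (atom w) (aut σ hσ.isN K').1 := by
      rw [aut_val, ← hσw, ← act_atom]
      exact (mem_act_iff σ).2 hw
    have hw't : E (⟨atom w, hw_atom _⟩ : W.{u}) t := mem_t ht hK't hw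
    exact (congrArg Subtype.val (hdis _ (mem_t ht hFt h2) h2 ⟨atom w, hw_atom _⟩ hw't hw h3)).symm
  have hs' : Supp (e ∪ e₁ ∪ {y'}) K'.1 := fun σ hσ hfixσ =>
    hinv σ hσ (fun a ha => hfixσ a (Or.inl ha)) y' hyK' (hfixσ y' (Or.inr rfl))
  have hy'z : y' ∈ cl {z} := by
    by_contra hcon
    have h1 : y' ∉ cl (e ∪ e₁ ∪ {z}) := by
      rintro (h | ⟨b, hb | hb, h⟩)
      · exact hcon (Or.inl h)
      · exact hπy (Or.inr ⟨b, hb, h⟩)
      · exact hcon (Or.inr ⟨b, hb, h⟩)
    obtain ⟨σ, hσ, hfixσ, hσy⟩ := exists_move (F := {y'})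
      ((he.union he₁).union (Set.finite_singleton z)) (Set.finite_singleton _) h1
    have hne : σ y' ≠ y' := fun h => hσy (by rw [h]; exact mem_cl_of_mem rfl)
    have h2 : act σ K'.1 = K'.1 := hinv σ hσ (fun a ha => hfixσ a (Or.inl ha)) z hz
      (hfixσ z (Or.inr rfl))
    have h3 : act σ K.1 = K.1 := hs σ hσ fun a ha => hfixσ a (Or.inl (Or.inl ha))
    have h4 : Mem (atom (σ y')) K'.1 := by
      rw [← h2, ← act_atom]
      exact (mem_act_iff σ).2 hyK'
    have h5 : Mem (atom (σ y')) K.1 := by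
      rw [← h3, ← act_atom]
      exact (mem_act_iff σ).2 hy'K
    have h6 := hone ⟨atom y', hw_atom _⟩ hy't hy'K ⟨atom (σ y'), hw_atom _⟩
      (mem_t ht hKt h5) h5 hyK' h4
    exact hne (atom_inj.1 (congrArg Subtype.val h6)).symm
  have hpre : y' <+: z := by
    rcases hy'z with h | ⟨b, hb, h⟩
    · exact (hπy (Or.inl h)).elim
    · rwa [show b = z from hb] at h
  refine ⟨(K', e ∪ e₁ ∪ {y'}, z), ⟨hK't, hA, hfin, hs', hz, hzcl⟩, ?_, ?_⟩
  · show node y <+: node z
    rw [← hnode]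
    exact node_prefix hpre
  · show (node y).length < (node z).length
    rw [← hnode, length_node, length_node]
    refine lt_of_le_of_ne hpre.length_le fun h => hzcl (mem_cl_of_mem (Or.inr ?_))
    exact (hpre.eq_of_length h).symm

theorem start (h : ThetaP (fun y => E y t)) : ∃ q, Tr t q := by
  obtain ⟨⟨X, hX, hXA, x, hx, hxX⟩, h2⟩ := h
  obtain ⟨F, hFt, hcov, hF⟩ := h2 X hX hXA
  obtain ⟨K, hKt, hKF, hxK⟩ := hcov x hx hxX
  obtain ⟨hA, hI, -, -⟩ := hF K hKt hKF
  obtain ⟨e, he, hs⟩ := K.2.1.self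
  obtain ⟨z, hz, hzcl⟩ := ((infinite_atoms ht hKt hA hI).sdiff (finite_cl he)).nonempty
  exact ⟨(K, e, z), hKt, hA, he, hs, hz, hzcl⟩

/-- No transitive set of the model satisfies the sentence. -/
theorem theta_false : ¬ ThetaP (fun y => E y t) := by
  intro h
  obtain ⟨D, hD, hDt⟩ := t.2.2
  obtain ⟨q₀, hq₀⟩ := start ht h
  choose nx hnx1 hnx2 hnx3 using fun q : {q // Tr t q} => descent ht h q.2
  let sq : ℕ → {q // Tr t q} := fun n => Nat.rec ⟨q₀, hq₀⟩ (fun _ q => ⟨nx q, hnx1 q⟩) n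
  let s : ℕ → List Idx.{u} := fun n => node (sq n).1.2.2
  have hs1 : ∀ n, s n <+: s (n + 1) := fun n => hnx2 (sq n)
  have hs2 : ∀ n, (s n).length < (s (n + 1)).length := fun n => hnx3 (sq n)
  have hsD : ∀ n, s n ∈ D := by
    intro n
    obtain ⟨h1, -, -, -, h5, -⟩ := (sq n).2
    exact over_atom (B := B D) (Her.mem (Her.mem hDt h1) h5)
  have hlen : ∀ n, n ≤ (s n).length := by
    intro n
    induction n with
    | zero => exact Nat.zero_le _
    | succ n ih => exact lt_of_le_of_lt ih (hs2 n)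
  obtain ⟨g, hg⟩ := exists_branch (c := fun n => (s n).take n) (fun n => by
    show (s n).take n <+: (s (n + 1)).take (n + 1)
    obtain ⟨r, hr⟩ := hs1 n
    have h1 : (s (n + 1)).take n = (s n).take n := by
      rw [← hr, List.take_append_of_le_length (hlen n)]
    rw [← h1]
    exact List.take_prefix_take_left (Nat.le_succ n))
    (fun n => by rw [List.length_take, min_eq_left (hlen n)])
  obtain ⟨n, hn⟩ := hD.wf g
  refine hn ?_
  rw [hg]
  exact hD.pre _ _ (List.take_prefix _ _) (hsD n)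

end

theorem not_rpminus_W : ¬ RPminus W.{u} := by
  intro h
  obtain ⟨t, ht, -, h2⟩ := h 0 thetaF default (by
    have := (relReal_theta (fun _ : W.{u} => True) (v := default) (xs := default)).2 theta_true
    exact (relReal_true _ _ _).1 this)
  exact theta_false ht ((relReal_theta _).1 h2)

theorem not_rp_W : ¬ RP W.{u} := by
  intro h
  obtain ⟨t, ht, -, h2⟩ := h 0 thetaF ⟨KU 0 [], hw_KU 0 []⟩ (Ur_iff.not.2 not_isAtom_ofSet)
  have h3 := (h2 default fun i => i.elim0).1 (by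
    have := (relReal_theta (fun _ : W.{u} => True) (v := default) (xs := default)).2 theta_true
    exact (relReal_true _ _ _).1 this)
  exact theta_false ht ((relReal_theta _).1 h3)

end Pool.Agent.R583.UR
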