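import Mathlib

/-!
# Spreading small well-ordered sets by automorphisms of an ordered field
-/

set_option linter.unusedSectionVars false

namespace Pool.Agent.R583.UR

universe u

section

variable {K : Type (u+1)} [Field K] [LinearOrder K] [IsStrictOrderedRing K]

variable (K) in
/-- Small subsets are bounded above. -/
def BddK : Prop := ∀ S : Set K, Small.{u} S → BddAbove S

theorem exists_gt_small (hK : BddK K) {S : Set K} (hS : Small.{u} S) : ∃ M, ∀ s ∈ S, s < M := by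
  obtain ⟨M, hM⟩ := hK S hS
  exact ⟨M + 1, fun s hs => lt_of_le_of_lt (hM hs) (lt_add_one M)⟩

theorem exists_cut (hK : BddK K) {A : Set K} (hA : Small.{u} A) {m : K} (h : ∀ a ∈ A, a < m) :
    ∃ c, c < m ∧ ∀ a ∈ A, a < c := by
  have h1 : Small.{u} ((fun a => (m - a)⁻¹) '' A) := inferInstance
  obtain ⟨M, hM⟩ := exists_gt_small hK h1
  have hM' : 0 < max M 1 := lt_of_lt_of_le one_pos (le_max_right _ _)
  refine ⟨m - (max M 1)⁻¹, sub_lt_self _ (inv_pos.2 hM'), fun a ha => ?_⟩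
  have h2 : (m - a)⁻¹ < max M 1 := lt_of_lt_of_le (hM _ ⟨a, ha, rfl⟩) (le_max_left _ _)
  have h3 : 0 < m - a := sub_pos.2 (h a ha)
  have h4 : (max M 1)⁻¹ < m - a := (inv_lt_comm₀ h3 hM').1 h2
  linarith

/-- The coordinate on the elements below `j`. -/
def Zc : WithTop K → K → K
  | ⊤, i => i
  | (j : K), i => (j - i)⁻¹

/-- The inverse of the coordinate. -/
def Yc : WithTop K → K → K
  | ⊤, z => z
  | (j : K), z => j - z⁻¹

/-- Values of the coordinate. -/
def Pz (j : WithTop K) (z : K) : Prop := j = ⊤ ∨ 0 < z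

theorem Pz.mono {j : WithTop K} {z z' : K} (h : Pz j z) (h' : z ≤ z') : Pz j z' :=
  h.imp id fun h => lt_of_lt_of_le h h'

theorem Yc_Zc (j : WithTop K) (i : K) : Yc j (Zc j i) = i := by
  cases j with
  | top => rfl
  | coe j =>
    show j - ((j - i)⁻¹)⁻¹ = i
    rw [inv_inv]
    ring

theorem Zc_Yc (j : WithTop K) (z : K) : Zc j (Yc j z) = z := by
  cases j with
  | top => rfl
  | coe j =>
    show (j - (j - z⁻¹))⁻¹ = z
    rw [sub_sub_cancel, inv_inv]

theorem Yc_lt {j : WithTop K} {z : K} (h : Pz j z) : ((Yc j z : K) : WithTop K) < j := by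
  cases j with
  | top => exact WithTop.coe_lt_top _
  | coe j =>
    rcases h with h | h
    · exact (WithTop.coe_ne_top h).elim
    · refine WithTop.coe_lt_coe.2 ?_
      show j - z⁻¹ < j
      have := inv_pos.2 h
      linarith

theorem Pz_Zc {j : WithTop K} {i : K} (h : (i : WithTop K) < j) : Pz j (Zc j i) := by
  cases j with
  | top => exact Or.inl rfl
  | coe j => exact Or.inr (inv_pos.2 (sub_pos.2 (WithTop.coe_lt_coe.1 h)))

theorem Zc_lt {j : WithTop K} {i i' : K} (h : i < i') (h' : (i' : WithTop K) < j) :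
    Zc j i < Zc j i' := by
  cases j with
  | top => exact h
  | coe j =>
    have h' := WithTop.coe_lt_coe.1 h'
    show (j - i)⁻¹ < (j - i')⁻¹
    exact (inv_lt_inv₀ (sub_pos.2 (h.trans h')) (sub_pos.2 h')).2 (by linarith)

theorem Yc_lt_Yc {j : WithTop K} {z z' : K} (hz : Pz j z) (h : z < z') : Yc j z < Yc j z' := by
  cases j with
  | top => exact h
  | coe j =>
    rcases hz with hz | hz
    · exact (WithTop.coe_ne_top hz).elim
    · show j - z⁻¹ < j - z'⁻¹
      have := (inv_lt_inv₀ (hz.trans h) hz).2 h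
      linarith

/-- The new coordinate. -/
def Az (j : WithTop K) (c l i : K) : K := Zc j c + (Zc j i - Zc j c) * l

/-- A bump on the interval `(c, j)`. -/
def bmp (j : WithTop K) (c l i : K) : K := Yc j (Az j c l i)

section

variable {j : WithTop K} {c l i i' : K} (hl : 0 < l) (hc : c < i) (hi : (i : WithTop K) < j)

include hl hc hi

theorem lt_Az : Zc j c < Az j c l i := by
  have h1 := Zc_lt hc hi
  have h2 : 0 < (Zc j i - Zc j c) * l := mul_pos (sub_pos.2 h1) hl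
  unfold Az
  linarith

theorem Pz_Az : Pz j (Az j c l i) :=
  (Pz_Zc (lt_trans (WithTop.coe_lt_coe.2 hc) hi)).mono (lt_Az hl hc hi).le

theorem bmp_lt : ((bmp j c l i : K) : WithTop K) < j := Yc_lt (Pz_Az hl hc hi)

theorem lt_bmp : c < bmp j c l i := by
  have h := Yc_lt_Yc (Pz_Zc (lt_trans (WithTop.coe_lt_coe.2 hc) hi)) (lt_Az hl hc hi)
  rwa [Yc_Zc] at h

theorem Zc_bmp : Zc j (bmp j c l i) = Az j c l i := Zc_Yc _ _

theorem bmp_bmp : bmp j c l⁻¹ (bmp j c l i) = i := by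
  have h : Az j c l⁻¹ (bmp j c l i) = Zc j i := by
    unfold Az
    rw [Zc_bmp hl hc hi]
    unfold Az
    field_simp
    ring
  rw [bmp, h, Yc_Zc]

theorem bmp_lt_bmp (h : i < i') (hi' : (i' : WithTop K) < j) : bmp j c l i < bmp j c l i' := by
  refine Yc_lt_Yc (Pz_Az hl hc hi) ?_
  have h1 := Zc_lt h hi'
  have h2 : (Zc j i - Zc j c) * l < (Zc j i' - Zc j c) * l :=
    mul_lt_mul_of_pos_right (by linarith) hl
  unfold Az
  linarith

end

/-- `j` is the next element of `J` above `i`. -/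
def IsNxt (J : Set K) (i : K) (j : WithTop K) : Prop :=
  (i : WithTop K) < j ∧ (j = ⊤ ∨ ∃ k ∈ J, j = (k : WithTop K)) ∧
    ∀ k ∈ J, i < k → j ≤ (k : WithTop K)

theorem exists_isNxt {J : Set K} (hJ : J.IsWF) (i : K) : ∃ j, IsNxt J i j := by
  by_cases h : ({k | k ∈ J ∧ i < k} : Set K).Nonempty
  · have hw : ({k | k ∈ J ∧ i < k} : Set K).IsWF := hJ.mono fun _ h => h.1
    have h1 := hw.min_mem h
    exact ⟨(hw.min h : K), WithTop.coe_lt_coe.2 h1.2, Or.inr ⟨_, h1.1, rfl⟩, fun k hk hk' =>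
      WithTop.coe_le_coe.2 (hw.min_le h ⟨hk, hk'⟩)⟩
  · refine ⟨⊤, WithTop.coe_lt_top i, Or.inl rfl, fun k hk hk' => ?_⟩
    exact (h ⟨k, hk, hk'⟩).elim

theorem IsNxt.unique {J : Set K} {i : K} {j j' : WithTop K} (h : IsNxt J i j)
    (h' : IsNxt J i j') : j = j' := by
  have key : ∀ {j j' : WithTop K}, IsNxt J i j → IsNxt J i j' → j ≤ j' := by
    rintro j j' h ⟨h1, h2 | ⟨k, hk, rfl⟩, h3⟩
    · rw [h2]; exact le_top
    · exact h.2.2 k hk (WithTop.coe_lt_coe.1 h1)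
  exact le_antisymm (key h h') (key h' h)

section tau

variable {J : Set K} {nx : K → WithTop K} (hnx : ∀ i, IsNxt J i (nx i)) {c : WithTop K → K}
  (hc : ∀ j : WithTop K, (j = ⊤ ∨ ∃ k ∈ J, j = (k : WithTop K)) → (c j : WithTop K) < j ∧
    ∀ k ∈ J, (k : WithTop K) < j → k < c j)

open scoped Classical in
/-- The bumps on all the gaps. -/
noncomputable def tau (nx : K → WithTop K) (c : WithTop K → K) (l i : K) : K :=
  if c (nx i) < i then bmp (nx i) (c (nx i)) l i else i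

include hnx hc

theorem nx_tau {l : K} (hl : 0 < l) (i : K) : nx (tau nx c l i) = nx i := by
  unfold tau
  split_ifs with h
  · have h1 := lt_bmp hl h (hnx i).1
    have h2 := bmp_lt hl h (hnx i).1
    refine IsNxt.unique (hnx _) ⟨h2, (hnx i).2.1, fun k hk hk' => ?_⟩
    by_contra hcon
    have h3 := (hc _ (hnx i).2.1).2 k hk (not_le.1 hcon)
    exact absurd (h3.trans h1) (not_lt.2 hk'.le)
  · rfl

theorem tau_eq {l : K} {i : K} (h : c (nx i) < i) : tau nx c l i = bmp (nx i) (c (nx i)) l i :=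
  if_pos h

omit hnx hc in
theorem tau_eq' {l : K} {i : K} (h : ¬ c (nx i) < i) : tau nx c l i = i :=
  if_neg h

theorem tau_tau {l : K} (hl : 0 < l) (i : K) : tau nx c l⁻¹ (tau nx c l i) = i := by
  by_cases h : c (nx i) < i
  · have h1 := nx_tau hnx hc hl i
    have h2 : c (nx (tau nx c l i)) < tau nx c l i := by
      rw [h1, tau_eq hnx hc h]
      exact lt_bmp hl h (hnx i).1
    rw [tau_eq hnx hc h2, h1, tau_eq hnx hc h]
    exact bmp_bmp hl h (hnx i).1
  · rw [tau_eq' h, tau_eq' h]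

theorem tau_lt {l : K} (hl : 0 < l) (i : K) : ((tau nx c l i : K) : WithTop K) < nx i := by
  by_cases h : c (nx i) < i
  · rw [tau_eq hnx hc h]
    exact bmp_lt hl h (hnx i).1
  · rw [tau_eq' h]
    exact (hnx i).1

theorem tau_fix {l : K} {i : K} (hi : i ∈ J) : tau nx c l i = i :=
  tau_eq' (not_lt.2 ((hc _ (hnx i).2.1).2 i hi (hnx i).1).le)

theorem tau_strictMono {l : K} (hl : 0 < l) : StrictMono (tau nx c l) := by
  intro i i' hii
  by_cases hn : nx i = nx i'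
  · by_cases h : c (nx i) < i
    · have h' : c (nx i') < i' := by rw [← hn]; exact h.trans hii
      rw [tau_eq hnx hc h, tau_eq hnx hc h', hn]
      rw [hn] at h
      exact bmp_lt_bmp hl h (hn ▸ (hnx i).1) hii (hnx i').1
    · rw [tau_eq' h]
      by_cases h' : c (nx i') < i'
      · rw [tau_eq hnx hc h']
        refine lt_of_le_of_lt (not_lt.1 h) ?_
        rw [hn]
        exact lt_bmp hl h' (hnx i').1
      · rw [tau_eq' h']
        exact hii
  · -- the next element for `i` is at most `i'`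
    rcases (hnx i).2.1 with h | ⟨k, hk, h⟩
    · exfalso
      rcases (hnx i').2.1 with h' | ⟨k', hk', h'⟩
      · exact hn (h.trans h'.symm)
      · have h1 := (hnx i).2.2 k' hk' (hii.trans (WithTop.coe_lt_coe.1 (h' ▸ (hnx i').1)))
        rw [h, top_le_iff] at h1
        exact WithTop.coe_ne_top h1
    · have hki : k ≤ i' := by
        by_contra hcon
        refine hn (le_antisymm ?_ ?_)
        · rcases (hnx i').2.1 with h' | ⟨k', hk', h'⟩
          · rw [h']; exact le_top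
          · rw [h']
            exact (hnx i).2.2 k' hk' (hii.trans (WithTop.coe_lt_coe.1 (h' ▸ (hnx i').1)))
        · rw [h]
          exact (hnx i').2.2 k hk (not_le.1 hcon)
      have h1 : tau nx c l i < k := by
        have := tau_lt hnx hc hl i
        rw [h] at this
        exact WithTop.coe_lt_coe.1 this
      refine h1.trans_le ?_
      have h2 : (k : WithTop K) < nx i' := lt_of_le_of_lt (WithTop.coe_le_coe.2 hki) (hnx i').1
      have h3 := (hc _ (hnx i').2.1).2 k hk h2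
      by_cases h' : c (nx i') < i'
      · rw [tau_eq hnx hc h']
        exact (h3.trans (lt_bmp hl h' (hnx i').1)).le
      · rw [tau_eq' h']
        exact hki

/-- The order automorphism. -/
theorem exists_tauIso {l : K} (hl : 0 < l) : ∃ τ : K ≃o K, ∀ i, τ i = tau nx c l i := by
  refine ⟨(tau_strictMono hnx hc hl).orderIsoOfRightInverse _ (tau nx c l⁻¹) fun i => ?_,
    fun i => rfl⟩
  have := tau_tau hnx hc (inv_pos.2 hl) i
  rwa [inv_inv] at this

end tau

/-- Recursive choice of large elements. -/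
theorem exists_rec (hK : BddK K) {α : Type u} {r : α → α → Prop} (hr : WellFounded r)
    (Bd : α → α → K → Set K) (hBd : ∀ x y t, Small.{u} (Bd x y t)) :
    ∃ l : α → K, ∀ x, 0 < l x ∧ ∀ y, r y x → ∀ b ∈ Bd x y (l y), b < l x := by
  have h1 : ∀ (x : α) (l : ∀ y, r y x → K), ∃ M : K, 0 < M ∧ ∀ y (h : r y x),
      ∀ b ∈ Bd x y (l y h), b < M := by
    intro x l
    have h2 : ∀ y : {y // r y x}, Small.{u} (Bd x y.1 (l y.1 y.2)) := fun y => hBd _ _ _
    have h3 : Small.{u} ({0} ∪ ⋃ y : {y // r y x}, Bd x y.1 (l y.1 y.2) : Set K) := inferInstance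
    obtain ⟨M, hM⟩ := exists_gt_small hK h3
    exact ⟨M, hM 0 (Or.inl rfl), fun y h b hb => hM b (Or.inr (Set.mem_iUnion.2 ⟨⟨y, h⟩, hb⟩))⟩
  choose F hF using h1
  refine ⟨fun x => hr.fix (fun x l => F x l) x, fun x => ?_⟩
  have h := hr.fix_eq (fun x l => F x l) x
  have h2 := hF x fun y _ => hr.fix (fun x l => F x l) y
  rw [← h] at h2
  exact h2

/-- Spreading small well-ordered sets. -/
theorem exists_spread (hK : BddK K) {J : Set K} (hJs : Small.{u} J) (hJ : J.IsWF) {α : Type u}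
    (S : α → Set K) (hSs : ∀ x, Small.{u} (S x)) (hS : ∀ x, (S x).IsWF) :
    ∃ τ : α → K ≃o K, (∀ x, ∀ j ∈ J, τ x j = j) ∧ (J ∪ ⋃ x, τ x '' S x).IsWF ∧
      ∀ x y, ∀ i ∈ S x, i ∉ J → ∀ i' ∈ S y, i' ∉ J → τ x i = τ y i' → x = y := by
  choose nx hnx using exists_isNxt hJ
  have hbelow : ∀ k ∈ J, ∀ i, i ∉ J → (k : WithTop K) < nx i → k < i := by
    intro k hk i hi h
    by_contra hcon
    rcases (not_lt.1 hcon).lt_or_eq with h1 | h1
    · exact absurd h (not_lt.2 ((hnx i).2.2 k hk h1))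
    · exact hi (h1 ▸ hk)
  have hcex : ∀ (x : α) (j : WithTop K), ∃ c : K, (j = ⊤ ∨ ∃ k ∈ J, j = (k : WithTop K)) →
      ((c : WithTop K) < j ∧ ∀ k ∈ J, (k : WithTop K) < j → k < c) ∧
        ∀ i ∈ S x, i ∉ J → nx i = j → c < i := by
    intro x j
    by_cases hj : j = ⊤ ∨ ∃ k ∈ J, j = (k : WithTop K)
    swap
    · exact ⟨0, fun h => (hj h).elim⟩
    have hA : Small.{u} {k | k ∈ J ∧ (k : WithTop K) < j} := small_subset (s := J) fun _ h => h.1
    by_cases hP : ({i | i ∈ S x ∧ i ∉ J ∧ nx i = j} : Set K).Nonempty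
    · have hw : ({i | i ∈ S x ∧ i ∉ J ∧ nx i = j} : Set K).IsWF := (hS x).mono fun _ h => h.1
      obtain ⟨hm1, hm2, hm3⟩ := hw.min_mem hP
      obtain ⟨c, hc1, hc2⟩ := exists_cut hK hA (m := hw.min hP) fun a ha =>
        hbelow a ha.1 _ hm2 (by rw [hm3]; exact ha.2)
      refine ⟨c, fun _ => ⟨⟨?_, fun k hk hk' => hc2 k ⟨hk, hk'⟩⟩, fun i hi hi' hi'' => ?_⟩⟩
      · refine (WithTop.coe_lt_coe.2 hc1).trans ?_
        have := (hnx (hw.min hP)).1
        rwa [hm3] at this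
      · exact hc1.trans_le (hw.min_le hP ⟨hi, hi', hi''⟩)
    · have hP' : ∀ i ∈ S x, i ∉ J → nx i = j → False := fun i h1 h2 h3 => hP ⟨i, h1, h2, h3⟩
      rcases hj with rfl | ⟨k, hk, rfl⟩
      · obtain ⟨c, hc⟩ := exists_gt_small hK hJs
        exact ⟨c, fun _ => ⟨⟨WithTop.coe_lt_top c, fun k hk _ => hc k hk⟩,
          fun i h1 h2 h3 => (hP' i h1 h2 h3).elim⟩⟩
      · obtain ⟨c, hc1, hc2⟩ := exists_cut hK hA (m := k) fun a ha => WithTop.coe_lt_coe.1 ha.2
        exact ⟨c, fun _ => ⟨⟨WithTop.coe_lt_coe.2 hc1, fun k hk hk' => hc2 k ⟨hk, hk'⟩⟩,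
          fun i h1 h2 h3 => (hP' i h1 h2 h3).elim⟩⟩
  choose c hc using hcex
  have hc1 : ∀ x, ∀ j : WithTop K, (j = ⊤ ∨ ∃ k ∈ J, j = (k : WithTop K)) →
      (c x j : WithTop K) < j ∧ ∀ k ∈ J, (k : WithTop K) < j → k < c x j :=
    fun x j hj => (hc x j hj).1
  have hc2 : ∀ x, ∀ i ∈ S x, i ∉ J → c x (nx i) < i := fun x i hi hi' =>
    (hc x _ (hnx i).2.1).2 i hi hi' rfl
  -- the scales
  obtain ⟨l, hl⟩ := exists_rec hK (r := (WellOrderingRel : α → α → Prop)) WellOrderingRel.isWellOrder.wf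
    (fun x y t => {b | ∃ i ∈ S x, i ∉ J ∧ ∃ i' ∈ S y, i' ∉ J ∧ nx i = nx i' ∧
      b = (Az (nx i) (c y (nx i)) t i' - Zc (nx i) (c x (nx i))) /
        (Zc (nx i) i - Zc (nx i) (c x (nx i)))}) (by
    intro x y t
    refine small_subset (s := Set.range fun p : S x × S y =>
      (Az (nx p.1) (c y (nx p.1)) t p.2 - Zc (nx p.1) (c x (nx p.1))) /
        (Zc (nx p.1) p.1 - Zc (nx p.1) (c x (nx p.1)))) ?_
    rintro b ⟨i, hi, -, i', hi', -, -, rfl⟩
    exact ⟨(⟨i, hi⟩, ⟨i', hi'⟩), rfl⟩)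
  choose τ hτ using fun x => exists_tauIso hnx (hc1 x) (hl x).1
  have hτJ : ∀ x, ∀ j ∈ J, τ x j = j := fun x j hj => by
    rw [hτ]
    exact tau_fix hnx (hc1 x) hj
  have hτn : ∀ x i, nx (τ x i) = nx i := fun x i => by
    rw [hτ]
    exact nx_tau hnx (hc1 x) (hl x).1 i
  have hτZ : ∀ x, ∀ i ∈ S x, i ∉ J → Zc (nx i) (τ x i) = Az (nx i) (c x (nx i)) (l x) i := by
    intro x i hi hi'
    have h1 := hc2 x i hi hi'
    rw [hτ, tau_eq hnx (hc1 x) h1]
    exact Zc_bmp (hl x).1 h1 (hnx i).1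
  have hcmp : ∀ x y, WellOrderingRel y x → ∀ i ∈ S x, i ∉ J → ∀ i' ∈ S y, i' ∉ J → nx i = nx i' →
      τ y i' < τ x i := by
    intro x y hyx i hi hiJ i' hi' hiJ' hn
    have h1 := (hl x).2 y hyx _ ⟨i, hi, hiJ, i', hi', hiJ', hn, rfl⟩
    have h2 : Zc (nx i) (c x (nx i)) < Zc (nx i) i := Zc_lt (hc2 x i hi hiJ) (hnx i).1
    rw [div_lt_iff₀ (sub_pos.2 h2)] at h1
    have h3 : Zc (nx i) (τ y i') < Zc (nx i) (τ x i) := by
      rw [hτZ x i hi hiJ, hn, hτZ y i' hi' hiJ', ← hn]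
      rw [Az] at h1 ⊢
      rw [Az]
      linarith
    by_contra hcon
    rcases (not_lt.1 hcon).lt_or_eq with h4 | h4
    · have h5 : ((τ y i' : K) : WithTop K) < nx i := by
        have := (hnx (τ y i')).1
        rwa [hτn, ← hn] at this
      exact absurd (Zc_lt h4 h5) (not_lt.2 h3.le)
    · rw [h4] at h3
      exact lt_irrefl _ h3
  have hdisj : ∀ x y, ∀ i ∈ S x, i ∉ J → ∀ i' ∈ S y, i' ∉ J → τ x i = τ y i' → x = y := by
    intro x y i hi hiJ i' hi' hiJ' h
    have hn : nx i = nx i' := by rw [← hτn x i, h, hτn]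
    refine WellOrderingRel.isWellOrder.trichotomous x y (fun h1 => ?_) fun h1 => ?_
    · have := hcmp y x h1 i' hi' hiJ' i hi hiJ hn.symm
      rw [h] at this
      exact lt_irrefl _ this
    · have := hcmp x y h1 i hi hiJ i' hi' hiJ' hn
      rw [h] at this
      exact lt_irrefl _ this
  refine ⟨τ, hτJ, ?_, hdisj⟩
  have hwf : WellFounded (WellOrderingRel : α → α → Prop) := WellOrderingRel.isWellOrder.wf
  have hmin : ∀ T : Set K, T.Nonempty → (∀ u ∈ T, ∃ x, ∃ i ∈ S x, i ∉ J ∧ τ x i = u) →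
      ∃ m ∈ T, ∀ u ∈ T, m ≤ u := by
    intro T hT hTV
    obtain ⟨j, ⟨u₁, hu₁, hj₁⟩, hj⟩ : ∃ j, (∃ u ∈ T, nx u = j) ∧ ∀ u ∈ T, j ≤ nx u := by
      by_cases h : ({k | k ∈ J ∧ ∃ u ∈ T, nx u = (k : WithTop K)} : Set K).Nonempty
      · have hw : ({k | k ∈ J ∧ ∃ u ∈ T, nx u = (k : WithTop K)} : Set K).IsWF :=
          hJ.mono fun _ h => h.1
        refine ⟨(hw.min h : K), (hw.min_mem h).2, fun u hu => ?_⟩
        rcases (hnx u).2.1 with h1 | ⟨k, hk, h1⟩
        · rw [h1]; exact le_top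
        · rw [h1]
          exact WithTop.coe_le_coe.2 (hw.min_le h ⟨hk, u, hu, h1⟩)
      · have h1 : ∀ u ∈ T, nx u = ⊤ := by
          intro u hu
          rcases (hnx u).2.1 with h1 | ⟨k, hk, h1⟩
          · exact h1
          · exact (h ⟨k, hk, u, hu, h1⟩).elim
        obtain ⟨u, hu⟩ := hT
        exact ⟨⊤, ⟨u, hu, h1 u hu⟩, fun u hu => (h1 u hu).ge⟩
    obtain ⟨x₁, i₁, hi₁, hiJ₁, e₁⟩ := hTV u₁ hu₁
    have hA : ({x | ∃ i ∈ S x, i ∉ J ∧ nx i = j ∧ τ x i ∈ T} : Set α).Nonempty :=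
      ⟨x₁, i₁, hi₁, hiJ₁, by rw [← hτn x₁, e₁, hj₁], e₁ ▸ hu₁⟩
    obtain ⟨x, hx, hxmin⟩ := hwf.has_min _ hA
    have hw : ({i | i ∈ S x ∧ (i ∉ J ∧ nx i = j ∧ τ x i ∈ T)} : Set K).IsWF :=
      (hS x).mono fun _ h => h.1
    have hne : ({i | i ∈ S x ∧ (i ∉ J ∧ nx i = j ∧ τ x i ∈ T)} : Set K).Nonempty := by
      obtain ⟨i, hi, h⟩ := hx
      exact ⟨i, hi, h⟩
    obtain ⟨hm1, hm2, hm3, hm4⟩ := hw.min_mem hne
    have hmle : ∀ i ∈ S x, i ∉ J → nx i = j → τ x i ∈ T → hw.min hne ≤ i :=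
      fun i h1 h2 h3 h4 => hw.min_le hne ⟨h1, h2, h3, h4⟩
    set m := hw.min hne with hm
    refine ⟨τ x m, hm4, fun u hu => ?_⟩
    obtain ⟨y, i', hi', hiJ', rfl⟩ := hTV u hu
    rcases (hj _ hu).lt_or_eq with h1 | h1
    · rcases (hnx m).2.1 with h2 | ⟨k, hk, h2⟩
      · rw [hm3] at h2
        rw [h2] at h1
        exact (not_top_lt h1).elim
      · rw [hm3] at h2
        rw [h2] at h1
        have h3 : k ≤ τ y i' := by
          by_contra hcon
          exact absurd ((hnx (τ y i')).2.2 k hk (not_le.1 hcon)) (not_le.2 h1)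
        have h4 : τ x m < k := by
          have := (hnx (τ x m)).1
          rw [hτn, hm3, h2] at this
          exact WithTop.coe_lt_coe.1 this
        exact h4.le.trans h3
    · have h2 : nx i' = j := by rw [← hτn y, h1]
      by_cases hxy : x = y
      · subst hxy
        exact (τ x).monotone (hmle i' hi' hiJ' h2 hu)
      · have h3 : ¬ WellOrderingRel y x := hxmin y ⟨i', hi', hiJ', h2, hu⟩
        have h4 : WellOrderingRel x y := by
          by_contra h4
          exact hxy (WellOrderingRel.isWellOrder.trichotomous x y h4 h3)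
        exact (hcmp y x h4 i' hi' hiJ' m hm1 hm2 (h2.trans hm3.symm)).le
  have hV : ({u | ∃ x, ∃ i ∈ S x, i ∉ J ∧ τ x i = u} : Set K).IsWF := by
    refine Set.wellFoundedOn_iff.2 (WellFounded.wellFounded_iff_has_min.2 fun T hT => ?_)
    by_cases h : (T ∩ {u | ∃ x, ∃ i ∈ S x, i ∉ J ∧ τ x i = u}).Nonempty
    · obtain ⟨m, hm, hm'⟩ := hmin _ h fun u hu => hu.2
      exact ⟨m, hm.1, fun u hu h' => absurd h'.1 (not_lt.2 (hm' u ⟨hu, h'.2.1⟩))⟩
    · obtain ⟨m, hm⟩ := hT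
      exact ⟨m, hm, fun u hu h' => h ⟨u, hu, h'.2.1⟩⟩
  refine (hJ.union hV).mono ?_
  rintro u (hu | hu)
  · exact Or.inl hu
  · obtain ⟨x, i, hi, rfl⟩ := Set.mem_iUnion.1 hu
    by_cases hiJ : i ∈ J
    · rw [hτJ x i hiJ]
      exact Or.inl hiJ
    · exact Or.inr ⟨x, i, hi, hiJ, rfl⟩

end

end Pool.Agent.R583.UR
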