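import Pool.Agent.R583.UR.Axioms

/-!
# The sentence is true in the model
-/

namespace Pool.Agent.R583.UR

universe u

open U FirstOrder FirstOrder.Language

theorem isG_child {π : Equiv.Perm Atm.{u}} (hπ : IsG π) (x : Atm.{u}) (i : Idx.{u}) (n : ℕ) :
    ∃ m, π (x ++ [(i, n)]) = π x ++ [(i, m)] := by
  obtain ⟨t, ht⟩ := (hπ.pre _ _).1 (List.prefix_append x [(i, n)])
  have h1 := hπ.nd (x ++ [(i, n)])
  rw [← ht, node_append, hπ.nd, node_append] at h1
  have h2 := List.append_cancel_left h1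
  cases t with
  | nil => simp [node] at h2
  | cons c t =>
    cases t with
    | cons d t => simp [node] at h2
    | nil =>
      obtain ⟨j, m⟩ := c
      simp only [node, List.map_cons, List.map_nil, List.cons.injEq, and_true] at h2
      subst h2
      exact ⟨m, ht.symm⟩

theorem isG_mem_children {π : Equiv.Perm Atm.{u}} (hπ : IsG π) {x y : Atm.{u}} {i : Idx.{u}}
    {n : ℕ} (h : π (x ++ [(i, n)]) = y) : ∃ m, y = π x ++ [(i, m)] := by
  obtain ⟨m, hm⟩ := isG_child hπ x i n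
  exact ⟨m, h.symm.trans hm⟩

/-- An urelement together with its children. -/
def KS (i : Idx.{u}) (x : Atm.{u}) : Set (U Atm.{u}) :=
  {z | z = atom x ∨ ∃ n : ℕ, z = atom (x ++ [(i, n)])}

instance (i : Idx.{u}) (x : Atm.{u}) : Small.{u} (KS i x) := by
  have h : KS i x ⊆ {atom x} ∪ Set.range fun n : ℕ => atom (x ++ [(i, n)]) := by
    rintro z (h | ⟨n, h⟩)
    · exact Or.inl h
    · exact Or.inr ⟨n, h.symm⟩
  exact small_subset h

/-- An urelement together with its children. -/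
noncomputable def KU (i : Idx.{u}) (x : Atm.{u}) : U Atm.{u} := ofSet (KS i x)

theorem mem_KU {i : Idx.{u}} {x : Atm.{u}} {z : U Atm.{u}} :
    Mem z (KU i x) ↔ z = atom x ∨ ∃ n : ℕ, z = atom (x ++ [(i, n)]) := by
  rw [KU, mem_ofSet]
  exact Iff.rfl

theorem mem_KU_act {π : Equiv.Perm Atm.{u}} (hπ : IsG π) {i : Idx.{u}} {x : Atm.{u}}
    {z : U Atm.{u}} (h : Mem z (KU i x)) : Mem (act π z) (KU i (π x)) := by
  rw [mem_KU] at h ⊢
  rcases h with rfl | ⟨n, rfl⟩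
  · exact Or.inl rfl
  · obtain ⟨m, hm⟩ := isG_child hπ x i n
    exact Or.inr ⟨m, by rw [act_atom, hm]⟩

theorem act_KU {π : Equiv.Perm Atm.{u}} (hπ : IsG π) (i : Idx.{u}) (x : Atm.{u}) :
    act π (KU i x) = KU i (π x) := by
  refine act_eq_of_maps not_isAtom_ofSet not_isAtom_ofSet (fun z hz => mem_KU_act hπ hz)
    fun z hz => ?_
  have := mem_KU_act hπ.symm hz
  rwa [Equiv.symm_apply_apply] at this

/-- A finite set of children. -/
def SS (i : Idx.{u}) (x : Atm.{u}) (s : Finset ℕ) : Set (U Atm.{u}) :=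
  {z | ∃ n ∈ s, z = atom (x ++ [(i, n)])}

instance (i : Idx.{u}) (x : Atm.{u}) (s : Finset ℕ) : Small.{u} (SS i x s) := by
  have h : SS i x s ⊆ Set.range fun n : ℕ => atom (x ++ [(i, n)]) := by
    rintro z ⟨n, -, h⟩
    exact ⟨n, h.symm⟩
  exact small_subset h

/-- A finite set of children. -/
noncomputable def SU (i : Idx.{u}) (x : Atm.{u}) (s : Finset ℕ) : U Atm.{u} := ofSet (SS i x s)

theorem mem_SU {i : Idx.{u}} {x : Atm.{u}} {s : Finset ℕ} {z : U Atm.{u}} :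
    Mem z (SU i x s) ↔ ∃ n ∈ s, z = atom (x ++ [(i, n)]) := by
  rw [SU, mem_ofSet]
  exact Iff.rfl

theorem act_SU {π : Equiv.Perm Atm.{u}} (hπ : IsG π) (i : Idx.{u}) (x : Atm.{u}) (s : Finset ℕ) :
    ∃ s', act π (SU i x s) = SU i (π x) s' := by
  classical
  choose g hg using fun n => isG_child hπ x i n
  refine ⟨s.image g, U.ext (fun h => not_isAtom_ofSet (isAtom_act.1 h)) not_isAtom_ofSet
    fun z => ?_⟩
  rw [mem_act, mem_SU]
  constructor
  · rintro ⟨y, hy, rfl⟩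
    obtain ⟨n, hn, rfl⟩ := mem_SU.1 hy
    exact ⟨g n, Finset.mem_image_of_mem _ hn, by rw [act_atom, hg]⟩
  · rintro ⟨m, hm, rfl⟩
    obtain ⟨n, hn, rfl⟩ := Finset.mem_image.1 hm
    exact ⟨_, mem_SU.2 ⟨n, hn, rfl⟩, by rw [act_atom, hg]⟩

/-- The family of the finite sets of children. -/
noncomputable def NU (i : Idx.{u}) (x : Atm.{u}) : U Atm.{u} :=
  mk (α := ULift.{u} (Finset ℕ)) fun s => SU i x s.down

theorem mem_NU {i : Idx.{u}} {x : Atm.{u}} {z : U Atm.{u}} :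
    Mem z (NU i x) ↔ ∃ s, z = SU i x s := by
  rw [NU, mem_mk]
  exact ⟨fun ⟨s, h⟩ => ⟨s.down, h⟩, fun ⟨s, h⟩ => ⟨⟨s⟩, h⟩⟩

theorem good_child (x : Atm.{u}) (i : Idx.{u}) :
    Good ({s | s <+: node x} ∪ {s | ∃ t ∈ {s | s <+: node x}, s = t ++ [i]}) :=
  good_ext (good_prefixes (node x)) i

theorem over_child {D : Set (List Idx.{u})} {x : Atm.{u}} (hx : node x ∈ D) (i : Idx.{u}) (n : ℕ) :
    Over (B (D ∪ {s | ∃ t ∈ D, s = t ++ [i]})) (atom (x ++ [(i, n)])) := by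
  rw [over_atom_iff, mem_B, node_append]
  exact Or.inr ⟨_, hx, rfl⟩

theorem over_KU {D : Set (List Idx.{u})} {x : Atm.{u}} (hx : node x ∈ D) (i : Idx.{u}) :
    Over (B (D ∪ {s | ∃ t ∈ D, s = t ++ [i]})) (KU i x) := by
  refine over_of_mem not_isAtom_ofSet fun y hy => ?_
  rcases mem_KU.1 hy with rfl | ⟨n, rfl⟩
  · exact over_atom_iff.2 (Or.inl hx)
  · exact over_child hx i n

theorem hw_KU (i : Idx.{u}) (x : Atm.{u}) : HW (KU i x) := by
  refine hw_set not_isAtom_ofSet (Set.finite_singleton x) ?_ (good_child x i) fun y hy => ⟨?_,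
    Her.mem (over_KU (D := {s | s <+: node x}) List.prefix_rfl i) hy⟩
  · intro π hπ h
    rw [act_KU hπ, h x rfl]
  · rcases mem_KU.1 hy with rfl | ⟨n, rfl⟩
    · exact hw_atom _
    · exact hw_atom _

theorem over_SU {D : Set (List Idx.{u})} {x : Atm.{u}} (hx : node x ∈ D) (i : Idx.{u})
    (s : Finset ℕ) : Over (B (D ∪ {s | ∃ t ∈ D, s = t ++ [i]})) (SU i x s) := by
  refine over_of_mem not_isAtom_ofSet fun y hy => ?_
  obtain ⟨n, -, rfl⟩ := mem_SU.1 hy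
  exact over_child hx i n

theorem hw_SU (i : Idx.{u}) (x : Atm.{u}) (s : Finset ℕ) : HW (SU i x s) := by
  refine hw_set not_isAtom_ofSet (e := (fun n => x ++ [(i, n)]) '' (s : Set ℕ))
    (s.finite_toSet.image _) (supp_of_maps not_isAtom_ofSet ?_) (good_child x i) fun y hy => ⟨?_,
    Her.mem (over_SU (D := {s | s <+: node x}) List.prefix_rfl i s) hy⟩
  · intro π hπ h z hz
    rw [mem_SU] at hz ⊢
    obtain ⟨n, hn, rfl⟩ := hz
    exact ⟨n, hn, by rw [act_atom, h _ ⟨n, hn, rfl⟩]⟩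
  · obtain ⟨n, -, rfl⟩ := mem_SU.1 hy
    exact hw_atom _

theorem hw_NU (i : Idx.{u}) (x : Atm.{u}) : HW (NU i x) := by
  refine hw_set not_isAtom_mk (Set.finite_singleton x) (supp_of_maps not_isAtom_mk ?_)
    (good_child x i) fun y hy => ?_
  · intro π hπ h z hz
    rw [mem_NU] at hz ⊢
    obtain ⟨s, rfl⟩ := hz
    obtain ⟨s', hs'⟩ := act_SU hπ i x s
    rw [h x rfl] at hs'
    exact ⟨s', hs'⟩
  · obtain ⟨s, rfl⟩ := mem_NU.1 hy
    exact ⟨hw_SU i x s, over_SU (D := {s | s <+: node x}) List.prefix_rfl i s⟩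

theorem infP_KU (i : Idx.{u}) (x : Atm.{u}) :
    InfP (fun _ : W.{u} => True) (⟨KU i x, hw_KU i x⟩ : W.{u}) := by
  refine ⟨⟨NU i x, hw_NU i x⟩, trivial, ⟨⟨SU i x ∅, hw_SU i x ∅⟩, trivial, mem_NU.2 ⟨∅, rfl⟩⟩,
    fun S _ hS => ?_⟩
  obtain ⟨s, hs⟩ := mem_NU.1 (E_iff.1 hS)
  obtain ⟨n, hn⟩ := Infinite.exists_notMem_finset s
  refine ⟨⟨SU i x (insert n s), hw_SU i x _⟩, trivial, mem_NU.2 ⟨_, rfl⟩, fun z _ hz => ?_,
    ⟨⟨atom (x ++ [(i, n)]), hw_atom _⟩, trivial, ?_, ?_⟩, fun z _ hz => ?_⟩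
  · rw [E_iff, hs, mem_SU] at hz
    obtain ⟨m, hm, h⟩ := hz
    exact mem_SU.2 ⟨m, Finset.mem_insert_of_mem hm, h⟩
  · exact mem_SU.2 ⟨n, Finset.mem_insert_self _ _, rfl⟩
  · rw [E_iff, hs, mem_SU]
    rintro ⟨m, hm, h⟩
    have h1 := atom_inj.1 h
    simp only [List.append_cancel_left_eq, List.cons.injEq, Prod.mk.injEq, true_and, and_true] at h1
    exact hn (h1 ▸ hm)
  · obtain ⟨m, -, h⟩ := mem_SU.1 (E_iff.1 hz)
    exact mem_KU.2 (Or.inr ⟨m, h⟩)

/-- The sentence is true in the model. -/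
theorem theta_true : ThetaP (fun _ : W.{u} => True) := by
  refine ⟨⟨⟨KU 0 [], hw_KU 0 []⟩, trivial, ⟨Ur_iff.not.2 not_isAtom_ofSet, fun z _ hz => ?_⟩,
    ⟨atom [], hw_atom _⟩, trivial, E_iff.2 (mem_KU.2 (Or.inl rfl))⟩, fun X _ hX => ?_⟩
  · rw [Ur_iff]
    rcases mem_KU.1 (E_iff.1 hz) with h | ⟨n, h⟩
    · exact ⟨_, h⟩
    · exact ⟨_, h⟩
  obtain ⟨e, he, hsX⟩ := X.2.1.self
  obtain ⟨D, hD, hDX⟩ := X.2.2
  obtain ⟨i, hi⟩ := exists_fresh hD.small
  have hnd : ∀ x, Mem (atom x) X.1 → node x ∈ D := fun x hx => over_atom (B := B D) (Her.mem hDX hx)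
  have hs1 : Small.{u} {x | Mem (atom x) X.1} :=
    small_of_injective (β := {y | Mem y X.1}) (f := fun x => ⟨atom x.1, x.2⟩)
      fun a b h => Subtype.ext (atom_inj.1 (congrArg Subtype.val h))
  have hs2 : Small.{u} {z | ∃ x, Mem (atom x) X.1 ∧ z = KU i x} := by
    have h : {z | ∃ x, Mem (atom x) X.1 ∧ z = KU i x} ⊆
        Set.range fun x : {x | Mem (atom x) X.1} => KU i x.1 := by
      rintro z ⟨x, hx, rfl⟩
      exact ⟨⟨x, hx⟩, rfl⟩
    exact small_subset h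
  have hF : HW (ofSet {z | ∃ x, Mem (atom x) X.1 ∧ z = KU i x}) := by
    refine hw_set not_isAtom_ofSet he (supp_of_maps not_isAtom_ofSet ?_) (good_ext hD i) ?_
    · intro π hπ hfix z hz
      rw [mem_ofSet] at hz ⊢
      obtain ⟨x, hx, rfl⟩ := hz
      refine ⟨π x, ?_, act_KU hπ i x⟩
      rw [← hsX π hπ hfix, ← act_atom]
      exact (mem_act_iff π).2 hx
    · intro z hz
      rw [mem_ofSet] at hz
      obtain ⟨x, hx, rfl⟩ := hz
      exact ⟨hw_KU i x, over_KU (hnd x hx) i⟩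
  -- children with a fresh index are not over `D`
  have hch : ∀ x n, node (x ++ [(i, n)]) ∉ D := fun x n h => hi _ h (by simp)
  have hval : ∀ K : W.{u}, E K (⟨_, hF⟩ : W.{u}) → ∃ x, Mem (atom x) X.1 ∧ K.1 = KU i x :=
    fun K hK => (mem_ofSet.1 (E_iff.1 hK))
  refine ⟨⟨_, hF⟩, trivial, fun x _ hx => ?_, fun K _ hK => ?_⟩
  · obtain ⟨a, ha⟩ := Ur_iff.1 (hX.2 x trivial hx)
    rw [E_iff, ha] at hx
    refine ⟨⟨KU i a, hw_KU i a⟩, trivial, mem_ofSet.2 ⟨a, hx, rfl⟩, ?_⟩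
    rw [E_iff, ha]
    exact mem_KU.2 (Or.inl rfl)
  · obtain ⟨a, ha, hKa⟩ := hval K hK
    obtain rfl : K = ⟨KU i a, hw_KU i a⟩ := Subtype.ext hKa
    refine ⟨⟨Ur_iff.not.2 not_isAtom_ofSet, fun z _ hz => ?_⟩, infP_KU i a,
      fun K' _ hK' z _ hz hz' => ?_, fun x _ hx y _ hy hxK hyK => ?_⟩
    · rw [Ur_iff]
      rcases mem_KU.1 (E_iff.1 hz) with h | ⟨n, h⟩
      · exact ⟨_, h⟩
      · exact ⟨_, h⟩
    · obtain ⟨b, hb, hKb⟩ := hval K' hK'
      obtain rfl : K' = ⟨KU i b, hw_KU i b⟩ := Subtype.ext hKb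
      have hab : a = b := by
        rcases mem_KU.1 (E_iff.1 hz) with h | ⟨n, h⟩
        · rcases mem_KU.1 (E_iff.1 hz') with h' | ⟨m, h'⟩
          · exact atom_inj.1 (h.symm.trans h')
          · have h1 := atom_inj.1 (h.symm.trans h')
            exact (hch b m (h1 ▸ hnd a ha)).elim
        · rcases mem_KU.1 (E_iff.1 hz') with h' | ⟨m, h'⟩
          · have h1 := atom_inj.1 (h.symm.trans h')
            exact (hch a n (h1 ▸ hnd b hb)).elim
          · have h1 := atom_inj.1 (h.symm.trans h')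
            exact List.append_inj_left' h1 rfl
      subst hab
      rfl
    · have key : ∀ x : W.{u}, E x X → E x (⟨KU i a, hw_KU i a⟩ : W.{u}) → x.1 = atom a := by
        intro x hx hxK
        rcases mem_KU.1 (E_iff.1 hxK) with h | ⟨n, h⟩
        · exact h
        · rw [E_iff, h] at hx
          exact (hch a n (hnd _ hx)).elim
      exact Subtype.ext ((key x hx hxK).trans (key y hy hyK).symm)

end Pool.Agent.R583.UR
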