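import Mathlib

/-!
# The universe of (small) sets over a class of urelements
-/

namespace Pool.Agent.R583.UR

universe u

/-- Codes of urelements and sets. -/
inductive Pre (A : Type (u+1)) : Type (u+1)
  | atom : A → Pre A
  | mk : (α : Type u) → (α → Pre A) → Pre A

namespace Pre

variable {A : Type (u+1)}

/-- Extensional equality of codes. -/
def Eqv : Pre A → Pre A → Prop
  | atom a, atom b => a = b
  | mk _ f, mk _ g => (∀ a, ∃ b, Eqv (f a) (g b)) ∧ ∀ b, ∃ a, Eqv (f a) (g b)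
  | atom _, mk _ _ => False
  | mk _ _, atom _ => False

theorem Eqv.refl : ∀ x : Pre A, Eqv x x
  | atom _ => rfl
  | mk _ f => ⟨fun a => ⟨a, Eqv.refl (f a)⟩, fun a => ⟨a, Eqv.refl (f a)⟩⟩

theorem Eqv.symm : ∀ {x y : Pre A}, Eqv x y → Eqv y x
  | atom _, atom _, h => Eq.symm h
  | mk _ _, mk _ _, h => ⟨fun b => let ⟨a, ha⟩ := h.2 b; ⟨a, Eqv.symm ha⟩,
      fun a => let ⟨b, hb⟩ := h.1 a; ⟨b, Eqv.symm hb⟩⟩
  | atom _, mk _ _, h => h.elim
  | mk _ _, atom _, h => h.elim

theorem Eqv.trans : ∀ {x y z : Pre A}, Eqv x y → Eqv y z → Eqv x z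
  | atom _, atom _, atom _, h, h' => Eq.trans h h'
  | mk _ _, mk _ _, mk _ _, h, h' =>
      ⟨fun a => let ⟨b, hb⟩ := h.1 a; let ⟨c, hc⟩ := h'.1 b; ⟨c, Eqv.trans hb hc⟩,
       fun c => let ⟨b, hb⟩ := h'.2 c; let ⟨a, ha⟩ := h.2 b; ⟨a, Eqv.trans ha hb⟩⟩
  | atom _, atom _, mk _ _, _, h => h.elim
  | atom _, mk _ _, _, h, _ => h.elim
  | mk _ _, atom _, _, h, _ => h.elim
  | mk _ _, mk _ _, atom _, _, h => h.elim

instance setoid (A : Type (u+1)) : Setoid (Pre A) :=
  ⟨Eqv, ⟨Eqv.refl, Eqv.symm, Eqv.trans⟩⟩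

end Pre

/-- The universe of hereditarily small sets over the class `A` of urelements. -/
def U (A : Type (u+1)) : Type (u+1) := Quotient (Pre.setoid A)

namespace U

variable {A : Type (u+1)}

/-- An urelement. -/
def atom (a : A) : U A := Quotient.mk _ (Pre.atom a)

/-- The set with the given members. -/
noncomputable def mk {α : Type u} (f : α → U A) : U A :=
  Quotient.mk _ (Pre.mk α fun a => (f a).out)

/-- The codes of members of a code. -/
def PMem (x : Pre A) : Pre A → Prop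
  | Pre.atom _ => False
  | Pre.mk _ f => ∃ a, Pre.Eqv x (f a)

theorem PMem.congr {x x' y y' : Pre A} (hx : Pre.Eqv x x') (hy : Pre.Eqv y y') :
    PMem x y ↔ PMem x' y' := by
  cases y with
  | atom a =>
    cases y' with
    | atom b => exact Iff.rfl
    | mk β g => exact hy.elim
  | mk α f =>
    cases y' with
    | atom b => exact hy.elim
    | mk β g =>
      constructor
      · rintro ⟨a, ha⟩
        obtain ⟨b, hb⟩ := hy.1 a
        exact ⟨b, hx.symm.trans (ha.trans hb)⟩
      · rintro ⟨b, hb⟩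
        obtain ⟨a, ha⟩ := hy.2 b
        exact ⟨a, hx.trans (hb.trans ha.symm)⟩

/-- Membership. -/
def Mem (x y : U A) : Prop :=
  Quotient.liftOn₂ x y PMem fun _ _ _ _ h h' => propext (PMem.congr h h')

theorem not_mem_atom {x : U A} {a : A} : ¬ Mem x (atom a) := by
  refine Quotient.inductionOn x fun x => ?_
  exact fun h => h

theorem mem_mk {α : Type u} {f : α → U A} {x : U A} : Mem x (mk f) ↔ ∃ a, x = f a := by
  refine Quotient.inductionOn x fun x => ?_
  constructor
  · rintro ⟨a, ha⟩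
    refine ⟨a, ?_⟩
    rw [← Quotient.out_eq (f a)]
    exact Quotient.sound ha
  · rintro ⟨a, ha⟩
    refine ⟨a, ?_⟩
    rw [← Quotient.out_eq (f a)] at ha
    exact Quotient.exact ha

theorem atom_inj {a b : A} : atom a = atom b ↔ a = b :=
  ⟨fun h => Quotient.exact h, fun h => h ▸ rfl⟩

theorem atom_ne_mk {a : A} {α : Type u} {f : α → U A} : atom a ≠ mk f :=
  fun h => (Quotient.exact h : Pre.Eqv _ _)

theorem cases' (x : U A) : (∃ a, x = atom a) ∨ ∃ (α : Type u) (f : α → U A), x = mk f := by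
  refine Quotient.inductionOn x fun x => ?_
  cases x with
  | atom a => exact Or.inl ⟨a, rfl⟩
  | mk α f =>
    refine Or.inr ⟨α, fun i => Quotient.mk _ (f i), Quotient.sound ?_⟩
    exact ⟨fun a => ⟨a, Pre.Eqv.symm (Quotient.mk_out (s := Pre.setoid A) (f a))⟩,
      fun a => ⟨a, Pre.Eqv.symm (Quotient.mk_out (s := Pre.setoid A) (f a))⟩⟩

theorem mk_ext {α β : Type u} {f : α → U A} {g : β → U A}
    (h : ∀ x, Mem x (mk f) ↔ Mem x (mk g)) : mk f = mk g := by
  refine Quotient.sound ⟨fun a => ?_, fun b => ?_⟩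
  · obtain ⟨b, hb⟩ := mem_mk.1 ((h (f a)).1 (mem_mk.2 ⟨a, rfl⟩))
    refine ⟨b, ?_⟩
    show (f a).out ≈ (g b).out
    rw [hb]
  · obtain ⟨a, ha⟩ := mem_mk.1 ((h (g b)).2 (mem_mk.2 ⟨b, rfl⟩))
    refine ⟨a, ?_⟩
    show (f a).out ≈ (g b).out
    rw [← ha]

/-- Being an urelement. -/
def IsAtom (x : U A) : Prop := ∃ a, x = atom a

theorem not_isAtom_mk {α : Type u} {f : α → U A} : ¬ IsAtom (mk f) :=
  fun ⟨_, h⟩ => atom_ne_mk h.symm

theorem ext {x y : U A} (hx : ¬ IsAtom x) (hy : ¬ IsAtom y) (h : ∀ z, Mem z x ↔ Mem z y) :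
    x = y := by
  rcases cases' x with ⟨a, rfl⟩ | ⟨α, f, rfl⟩
  · exact (hx ⟨a, rfl⟩).elim
  rcases cases' y with ⟨a, rfl⟩ | ⟨β, g, rfl⟩
  · exact (hy ⟨a, rfl⟩).elim
  exact mk_ext h

theorem not_isAtom_of_mem {x y : U A} (h : Mem x y) : ¬ IsAtom y := by
  rintro ⟨a, rfl⟩
  exact not_mem_atom h

/-- Membership is well-founded. -/
theorem mem_wf : WellFounded (Mem : U A → U A → Prop) := by
  have key : ∀ x : Pre A, Acc Mem (Quotient.mk (Pre.setoid A) x) := by
    intro x
    induction x with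
    | atom a => exact ⟨_, fun y hy => (not_mem_atom hy).elim⟩
    | mk α f ih =>
      refine ⟨_, fun y => ?_⟩
      refine Quotient.inductionOn y fun y => ?_
      rintro ⟨a, ha⟩
      have h1 : (Quotient.mk (Pre.setoid A) y) = Quotient.mk _ (f a) := Quotient.sound ha
      have := ih a
      rw [← h1] at this
      exact this
  exact ⟨fun x => Quotient.inductionOn x key⟩

theorem induction {p : U A → Prop} (h : ∀ x, (∀ y, Mem y x → p y) → p x) (x : U A) : p x :=
  mem_wf.induction x h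

/-- The members of a thing are small in number. -/
theorem small_mem (x : U A) : Small.{u} {y | Mem y x} := by
  rcases cases' x with ⟨a, rfl⟩ | ⟨α, f, rfl⟩
  · have : {y : U A | Mem y (atom a)} = ∅ := by
      ext y
      simp [not_mem_atom]
    rw [this]
    infer_instance
  · have : {y : U A | Mem y (mk f)} = Set.range f := by
      ext y
      simp only [Set.mem_ofPred_eq, mem_mk, Set.mem_range]
      exact ⟨fun ⟨a, h⟩ => ⟨a, h.symm⟩, fun ⟨a, h⟩ => ⟨a, h.symm⟩⟩
    rw [this]
    infer_instance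

/-- Small classes are sets. -/
theorem exists_set (S : Set (U A)) [hS : Small.{u} S] :
    ∃ x : U A, ¬ IsAtom x ∧ ∀ y, Mem y x ↔ y ∈ S := by
  refine ⟨mk (α := Shrink.{u} S) fun a => ((equivShrink S).symm a).1, not_isAtom_mk, fun y => ?_⟩
  rw [mem_mk]
  constructor
  · rintro ⟨a, rfl⟩
    exact Subtype.prop _
  · intro hy
    exact ⟨equivShrink S ⟨y, hy⟩, by simp⟩

/-- The set with the given members. -/
noncomputable def ofSet (S : Set (U A)) [Small.{u} S] : U A := (exists_set S).choose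

theorem not_isAtom_ofSet {S : Set (U A)} [Small.{u} S] : ¬ IsAtom (ofSet S) :=
  (exists_set S).choose_spec.1

theorem mem_ofSet {S : Set (U A)} [Small.{u} S] {y : U A} : Mem y (ofSet S) ↔ y ∈ S :=
  (exists_set S).choose_spec.2 y

/-! ### The action of permutations -/

/-- The action on codes. -/
def pact (g : A → A) : Pre A → Pre A
  | Pre.atom a => Pre.atom (g a)
  | Pre.mk α f => Pre.mk α fun i => pact g (f i)

theorem pact_congr (g : A → A) : ∀ {x y : Pre A}, Pre.Eqv x y → Pre.Eqv (pact g x) (pact g y)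
  | Pre.atom _, Pre.atom _, h => congrArg g h
  | Pre.mk _ _, Pre.mk _ _, h =>
      ⟨fun a => let ⟨b, hb⟩ := h.1 a; ⟨b, pact_congr g hb⟩,
       fun b => let ⟨a, ha⟩ := h.2 b; ⟨a, pact_congr g ha⟩⟩
  | Pre.atom _, Pre.mk _ _, h => h.elim
  | Pre.mk _ _, Pre.atom _, h => h.elim

/-- The action on the universe. -/
def act (g : A → A) (x : U A) : U A :=
  Quotient.liftOn x (fun x => Quotient.mk _ (pact g x)) fun _ _ h => Quotient.sound (pact_congr g h)

@[simp] theorem act_atom (g : A → A) (a : A) : act g (atom a) = atom (g a) := rfl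

theorem act_mk (g : A → A) {α : Type u} (f : α → U A) : act g (mk f) = mk fun i => act g (f i) := by
  have h : ∀ i, act g (f i) = Quotient.mk _ (pact g (f i).out) := by
    intro i
    conv_lhs => rw [← Quotient.out_eq (f i)]
    rfl
  refine Quotient.sound ⟨fun a => ⟨a, ?_⟩, fun a => ⟨a, ?_⟩⟩
  · exact Quotient.exact ((h a).symm.trans (Quotient.out_eq _).symm)
  · exact Quotient.exact ((h a).symm.trans (Quotient.out_eq _).symm)

theorem mem_act {g : A → A} {x z : U A} : Mem z (act g x) ↔ ∃ y, Mem y x ∧ z = act g y := by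
  rcases cases' x with ⟨a, rfl⟩ | ⟨α, f, rfl⟩
  · constructor
    · intro h
      exact (not_mem_atom h).elim
    · rintro ⟨y, hy, -⟩
      exact (not_mem_atom hy).elim
  · rw [act_mk, mem_mk]
    constructor
    · rintro ⟨a, rfl⟩
      exact ⟨f a, mem_mk.2 ⟨a, rfl⟩, rfl⟩
    · rintro ⟨y, hy, rfl⟩
      obtain ⟨a, rfl⟩ := mem_mk.1 hy
      exact ⟨a, rfl⟩

theorem isAtom_act {g : A → A} {x : U A} : IsAtom (act g x) ↔ IsAtom x := by
  rcases cases' x with ⟨a, rfl⟩ | ⟨α, f, rfl⟩
  · exact ⟨fun _ => ⟨_, rfl⟩, fun _ => ⟨_, rfl⟩⟩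
  · rw [act_mk]
    exact ⟨fun h => (not_isAtom_mk h).elim, fun h => (not_isAtom_mk h).elim⟩

theorem act_act (g h : A → A) (x : U A) : act g (act h x) = act (g ∘ h) x := by
  refine induction (p := fun x => act g (act h x) = act (g ∘ h) x) (fun x ih => ?_) x
  rcases cases' x with ⟨a, rfl⟩ | ⟨α, f, rfl⟩
  · rfl
  · rw [act_mk, act_mk, act_mk]
    congr 1
    funext i
    exact ih _ (mem_mk.2 ⟨i, rfl⟩)

/-- Hereditary properties. -/
inductive Her (P : U A → Prop) : U A → Prop
  | intro (x : U A) : P x → (∀ y, Mem y x → Her P y) → Her P x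

theorem Her.self {P : U A → Prop} {x : U A} (h : Her P x) : P x := by
  cases h with
  | intro _ h _ => exact h

theorem Her.mem {P : U A → Prop} {x y : U A} (h : Her P x) (hy : Mem y x) : Her P y := by
  cases h with
  | intro _ _ h => exact h y hy

theorem Her.mono {P Q : U A → Prop} (h : ∀ x, P x → Q x) {x : U A} (hx : Her P x) : Her Q x := by
  induction hx with
  | intro x h1 _ ih => exact ⟨x, h x h1, ih⟩

/-- All the urelements in the transitive closure belong to `B`. -/
def Over (B : Set A) : U A → Prop := Her fun x => ∀ a, x = atom a → a ∈ B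

theorem Over.mono {B C : Set A} (h : B ⊆ C) {x : U A} (hx : Over B x) : Over C x :=
  Her.mono (fun _ h' a ha => h (h' a ha)) hx

theorem over_atom {B : Set A} {a : A} (h : Over B (atom a)) : a ∈ B := Her.self h a rfl

theorem over_atom_iff {B : Set A} {a : A} : Over B (atom a) ↔ a ∈ B :=
  ⟨over_atom, fun h => ⟨_, fun _ hb => atom_inj.1 hb ▸ h, fun _ hy => (not_mem_atom hy).elim⟩⟩

theorem over_of_mem {B : Set A} {x : U A} (hx : ¬ IsAtom x) (h : ∀ y, Mem y x → Over B y) :
    Over B x :=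
  ⟨_, fun a ha => (hx ⟨a, ha⟩).elim, h⟩

/-- The action depends only on the values on the kernel. -/
theorem act_congr {B : Set A} {g h : A → A} (hgh : ∀ a ∈ B, g a = h a) {x : U A}
    (hx : Over B x) : act g x = act h x := by
  induction hx with
  | intro x h1 _ ih =>
    rcases cases' x with ⟨a, rfl⟩ | ⟨α, f, rfl⟩
    · rw [act_atom, act_atom, hgh a (h1 a rfl)]
    · rw [act_mk, act_mk]
      congr 1
      funext i
      exact ih _ (mem_mk.2 ⟨i, rfl⟩)

theorem act_id (x : U A) : act id x = x := by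
  refine induction (p := fun x => act id x = x) (fun x ih => ?_) x
  rcases cases' x with ⟨a, rfl⟩ | ⟨α, f, rfl⟩
  · rfl
  · rw [act_mk]
    congr 1
    funext i
    exact ih _ (mem_mk.2 ⟨i, rfl⟩)

theorem act_eq_self {B : Set A} {g : A → A} (hg : ∀ a ∈ B, g a = a) {x : U A}
    (hx : Over B x) : act g x = x := by
  rw [act_congr (h := id) hg hx, act_id]

theorem over_act {B C : Set A} {g : A → A} (h : ∀ a ∈ B, g a ∈ C) {x : U A} (hx : Over B x) :
    Over C (act g x) := by
  induction hx with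
  | intro x h1 _ ih =>
    refine ⟨_, fun a ha => ?_, fun z hz => ?_⟩
    · rcases cases' x with ⟨b, rfl⟩ | ⟨α, f, rfl⟩
      · rw [act_atom, atom_inj] at ha
        exact ha ▸ h b (h1 b rfl)
      · rw [act_mk] at ha
        exact (atom_ne_mk ha.symm).elim
    · obtain ⟨y, hy, rfl⟩ := mem_act.1 hz
      exact ih y hy

end U

end Pool.Agent.R583.UR
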