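import Pool.Agent.R583.UR.OrdK
import Pool.Agent.R583.UR.Univ

/-!
# Trees over an ordered field
-/

set_option linter.unusedSectionVars false

namespace Pool.Agent.R583.UR

universe u

section

variable {K : Type (u+1)}

/-- A chain of lists gives a branch. -/
theorem exists_branchK {c : ℕ → List K} (hc : ∀ n, c n <+: c (n + 1))
    (hl : ∀ n, (c n).length = n) : ∃ g : ℕ → K, ∀ n, (List.range n).map g = c n := by
  refine ⟨fun n => (c (n + 1)).get ⟨n, by rw [hl]; exact n.lt_succ_self⟩, fun n => ?_⟩
  induction n with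
  | zero => exact (List.length_eq_zero_iff.1 (hl 0)).symm
  | succ n ih =>
    rw [List.range_succ, List.map_append, ih]
    obtain ⟨t, ht⟩ := hc n
    have h1 : t.length = 1 := by
      have h2 := congrArg List.length ht
      rw [List.length_append, hl, hl] at h2
      omega
    obtain ⟨i, rfl⟩ := List.length_eq_one_iff.1 h1
    simp only [List.map_cons, List.map_nil, List.get_eq_getElem]
    have key : ∀ (l : List K) (h : n < l.length), l = c n ++ [i] → l[n] = i := by
      rintro _ h rfl
      rw [List.getElem_append_right (by rw [hl])]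
      simp [hl]
    rw [key _ _ ht.symm, ht]

variable [LinearOrder K]

/-- Small trees without infinite branches whose sets of children are well-ordered. -/
structure GoodK (D : Set (List K)) : Prop where
  small : Small.{u} D
  nil : [] ∈ D
  pre : ∀ s t, s <+: t → t ∈ D → s ∈ D
  inf : ∀ f : ℕ → K, ∃ n, (List.range n).map f ∉ D
  wf : ∀ s, {i | s ++ [i] ∈ D}.IsWF

theorem GoodK.branch {D : Set (List K)} (hD : GoodK D) (f : ℕ → K) {m n : ℕ}
    (hmn : m ≤ n) (h : (List.range m).map f ∉ D) : (List.range n).map f ∉ D := by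
  refine fun h' => h (hD.pre _ _ ?_ h')
  refine List.IsPrefix.map _ ?_
  obtain ⟨k, rfl⟩ := Nat.exists_eq_add_of_le hmn
  rw [List.range_add]
  exact List.prefix_append _ _

theorem GoodK.union {D E : Set (List K)} (hD : GoodK D) (hE : GoodK E) : GoodK (D ∪ E) := by
  have := hD.small
  have := hE.small
  refine ⟨inferInstance, Or.inl hD.nil, fun s t h ht => ht.imp (hD.pre s t h) (hE.pre s t h), ?_,
    fun s => (hD.wf s).union (hE.wf s)⟩
  intro f
  obtain ⟨n, hn⟩ := hD.inf f
  obtain ⟨m, hm⟩ := hE.inf f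
  refine ⟨max n m, ?_⟩
  rintro (h | h)
  · exact hD.branch f (le_max_left _ _) hn h
  · exact hE.branch f (le_max_right _ _) hm h

/-- The lists that start the given list. -/
theorem goodK_of_list (s : List K) : GoodK {t | t <+: s} := by
  refine ⟨?_, List.nil_prefix, fun a b h hb => h.trans hb, fun f => ⟨s.length + 1, fun h => ?_⟩,
    fun r => ?_⟩
  · have : {t | t <+: s} ⊆ Set.range fun n : ℕ => s.take n := by
      intro t ht
      exact ⟨t.length, (List.prefix_iff_eq_take.1 ht).symm⟩
    exact small_subset this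
  · have := List.IsPrefix.length_le h
    simp at this
  · refine Set.Subsingleton.isWF ?_
    intro i hi j hj
    have h1 := List.prefix_of_prefix_length_le hi hj (by simp)
    have h2 := h1.eq_of_length (by simp)
    simpa using h2

theorem goodK_nil : GoodK ({[]} : Set (List K)) := by
  have h := goodK_of_list ([] : List K)
  have h2 : {t | t <+: ([] : List K)} = {[]} := by
    ext t
    simp
  rwa [h2] at h

/-! ### The automorphisms -/

/-- The automorphisms of the tree that preserve the order of the siblings. -/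
structure IsM (ν : Equiv.Perm (List K)) : Prop where
  nil : ν [] = []
  step : ∀ s, ∃ σ : K ≃o K, ∀ i, ν (s ++ [i]) = ν s ++ [σ i]

theorem isM_refl : IsM (Equiv.refl (List K)) := ⟨rfl, fun _ => ⟨OrderIso.refl K, fun _ => rfl⟩⟩

theorem IsM.trans {ν μ : Equiv.Perm (List K)} (h : IsM ν) (h' : IsM μ) : IsM (ν.trans μ) := by
  refine ⟨by rw [Equiv.trans_apply, h.nil, h'.nil], fun s => ?_⟩
  obtain ⟨σ, hσ⟩ := h.step s
  obtain ⟨σ', hσ'⟩ := h'.step (ν s)
  exact ⟨σ.trans σ', fun i => by
    rw [Equiv.trans_apply, Equiv.trans_apply, hσ, hσ', OrderIso.trans_apply]⟩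

theorem IsM.symm {ν : Equiv.Perm (List K)} (h : IsM ν) : IsM ν.symm := by
  refine ⟨by rw [Equiv.symm_apply_eq, h.nil], fun s => ?_⟩
  obtain ⟨σ, hσ⟩ := h.step (ν.symm s)
  refine ⟨σ.symm, fun i => ?_⟩
  rw [Equiv.symm_apply_eq, hσ, Equiv.apply_symm_apply, OrderIso.apply_symm_apply]

theorem IsM.len {ν : Equiv.Perm (List K)} (h : IsM ν) (s : List K) : (ν s).length = s.length := by
  induction s using List.reverseRecOn with
  | nil => rw [h.nil]
  | append_singleton s i ih =>
    obtain ⟨σ, hσ⟩ := h.step s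
    rw [hσ, List.length_append, List.length_append, ih]
    rfl

theorem IsM.pre {ν : Equiv.Perm (List K)} (h : IsM ν) {a b : List K} (hab : a <+: b) :
    ν a <+: ν b := by
  obtain ⟨t, rfl⟩ := hab
  induction t using List.reverseRecOn with
  | nil => rw [List.append_nil]
  | append_singleton t i ih =>
    obtain ⟨σ, hσ⟩ := h.step (a ++ t)
    rw [← List.append_assoc, hσ]
    exact ih.trans (List.prefix_append _ _)

theorem goodK_im {ν : Equiv.Perm (List K)} (h : IsM ν) {D : Set (List K)} (hD : GoodK D) :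
    GoodK (ν '' D) := by
  have := hD.small
  refine ⟨inferInstance, ⟨[], hD.nil, h.nil⟩, ?_, ?_, ?_⟩
  · rintro s t hst ⟨a, ha, rfl⟩
    refine ⟨ν.symm s, hD.pre _ _ ?_ ha, Equiv.apply_symm_apply _ _⟩
    have := h.symm.pre hst
    rwa [Equiv.symm_apply_apply] at this
  · intro f
    by_contra hcon
    push Not at hcon
    have h1 : ∀ n, ν.symm ((List.range n).map f) ∈ D := by
      intro n
      obtain ⟨a, ha, h2⟩ := hcon n
      rw [← h2, Equiv.symm_apply_apply]
      exact ha
    obtain ⟨g, hg⟩ := exists_branchK (c := fun n => ν.symm ((List.range n).map f))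
      (fun n => h.symm.pre (by
        rw [List.range_succ, List.map_append]
        exact List.prefix_append _ _))
      (fun n => by rw [h.symm.len, List.length_map, List.length_range])
    obtain ⟨n, hn⟩ := hD.inf g
    exact hn (hg n ▸ h1 n)
  · intro s
    obtain ⟨σ, hσ⟩ := h.symm.step s
    have h1 : {i | s ++ [i] ∈ ν '' D} ⊆ σ.symm '' {k | ν.symm s ++ [k] ∈ D} := by
      rintro i ⟨a, ha, h2⟩
      refine ⟨σ i, ?_, OrderIso.symm_apply_apply _ _⟩
      show ν.symm s ++ [σ i] ∈ D
      rw [← hσ, ← h2, Equiv.symm_apply_apply]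
      exact ha
    exact (((hD.wf (ν.symm s)).isPWO.image_of_monotone σ.symm.monotone).isWF).mono h1

/-- Automorphisms that preserve a subset of a good tree fix all of its elements. -/
theorem rigid {ν : Equiv.Perm (List K)} (h : IsM ν) {D : Set (List K)} (hD : GoodK D)
    {S : Set (List K)} (hSD : S ⊆ D) (hS : ∀ a, a ∈ S ↔ ν a ∈ S) : ∀ a ∈ S, ν a = a := by
  set S' : Set (List K) := {a | ∃ b ∈ S, a <+: b} with hS'
  have h1 : S' ⊆ D := by
    rintro a ⟨b, hb, hab⟩
    exact hD.pre _ _ hab (hSD hb)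
  have h2 : ∀ a ∈ S', ν a ∈ S' := by
    rintro a ⟨b, hb, hab⟩
    exact ⟨ν b, (hS b).1 hb, h.pre hab⟩
  have h3 : ∀ a ∈ S', ν.symm a ∈ S' := by
    rintro a ⟨b, hb, hab⟩
    refine ⟨ν.symm b, (hS _).2 ?_, h.symm.pre hab⟩
    rwa [Equiv.apply_symm_apply]
  have key : ∀ a, a ∈ S' → ν a = a := by
    intro a
    induction a using List.reverseRecOn with
    | nil => exact fun _ => h.nil
    | append_singleton s i ih =>
      intro ha
      have hs : s ∈ S' := by
        obtain ⟨b, hb, hab⟩ := ha
        exact ⟨b, hb, (List.prefix_append _ _).trans hab⟩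
      have hνs := ih hs
      obtain ⟨σ, hσ⟩ := h.step s
      rw [hνs] at hσ
      have hσJ : ∀ k, s ++ [k] ∈ S' → s ++ [σ k] ∈ S' := fun k hk => hσ k ▸ h2 _ hk
      have hσJ' : ∀ k, s ++ [k] ∈ S' → s ++ [σ.symm k] ∈ S' := by
        intro k hk
        have h4 := h3 _ hk
        have h5 : ν.symm (s ++ [k]) = s ++ [σ.symm k] := by
          rw [Equiv.symm_apply_eq, hσ, OrderIso.apply_symm_apply]
        rwa [h5] at h4
      have hwf : ({k | s ++ [k] ∈ S' ∧ σ k ≠ k} : Set K).IsWF :=
        (hD.wf s).mono fun k hk => h1 hk.1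
      have hσi : σ i = i := by
        by_contra hcon
        have hne : ({k | s ++ [k] ∈ S' ∧ σ k ≠ k} : Set K).Nonempty := ⟨i, ha, hcon⟩
        obtain ⟨hm1, hm2⟩ := hwf.min_mem hne
        have hmin : ∀ k, s ++ [k] ∈ S' → k < hwf.min hne → σ k = k := by
          intro k hk hk'
          by_contra hc
          exact absurd (hwf.min_le hne ⟨hk, hc⟩) (not_le.2 hk')
        rcases lt_or_gt_of_ne hm2 with h4 | h4
        · exact hm2 (σ.injective (hmin _ (hσJ _ hm1) h4))
        · have h5 : σ.symm (hwf.min hne) < hwf.min hne := by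
            have := σ.symm.strictMono h4
            rwa [OrderIso.symm_apply_apply] at this
          have h6 := hmin _ (hσJ' _ hm1) h5
          rw [OrderIso.apply_symm_apply] at h6
          exact absurd h5 (by rw [← h6]; exact lt_irrefl _)
      rw [hσ, hσi]
  exact fun a ha => key a ⟨a, ha, List.prefix_rfl⟩

/-! ### Moving the first exit -/

open scoped Classical in
/-- Move the first index whose node is outside of the tree. -/
noncomputable def nuK : List K → Set (List K) → (List K → K ≃o K) → List K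
  | [], _, _ => []
  | i :: l, E, τ => if [i] ∈ E then i :: nuK l {s | i :: s ∈ E} (fun s => τ (i :: s))
      else τ [] i :: l

theorem nuK_in {E : Set (List K)} {τ : List K → K ≃o K} {i : K} {l : List K} (h : [i] ∈ E) :
    nuK (i :: l) E τ = i :: nuK l {s | i :: s ∈ E} (fun s => τ (i :: s)) := by
  rw [nuK, if_pos h]

theorem nuK_out {E : Set (List K)} {τ : List K → K ≃o K} {i : K} {l : List K} (h : [i] ∉ E) :
    nuK (i :: l) E τ = τ [] i :: l := by
  rw [nuK, if_neg h]

/-- The children in the tree are fixed. -/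
def FixK (E : Set (List K)) (τ : List K → K ≃o K) : Prop := ∀ r i, r ++ [i] ∈ E → τ r i = i

theorem FixK.sub {E : Set (List K)} {τ : List K → K ≃o K} (h : FixK E τ) (i : K) :
    FixK {s | i :: s ∈ E} fun s => τ (i :: s) := fun r k hk => h (i :: r) k hk

theorem FixK.symm {E : Set (List K)} {τ : List K → K ≃o K} (h : FixK E τ) :
    FixK E fun s => (τ s).symm := fun r k hk => by
  rw [OrderIso.symm_apply_eq, h r k hk]

theorem FixK.not_mem {E : Set (List K)} {τ : List K → K ≃o K} (h : FixK E τ) {i : K}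
    (hi : [i] ∉ E) : [τ [] i] ∉ E := by
  intro hc
  have h1 := h [] _ hc
  have h2 := (τ []).injective h1
  rw [h2] at hc
  exact hi hc

theorem nuK_nuK (l : List K) : ∀ (E : Set (List K)) (τ : List K → K ≃o K), FixK E τ →
    nuK (nuK l E τ) E (fun s => (τ s).symm) = l := by
  induction l with
  | nil => exact fun _ _ _ => rfl
  | cons i l ih =>
    intro E τ h
    by_cases hi : [i] ∈ E
    · rw [nuK_in hi, nuK_in hi, ih _ _ (h.sub i)]
    · rw [nuK_out hi, nuK_out (h.not_mem hi), OrderIso.symm_apply_apply]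

theorem nuK_step (s : List K) : ∀ (E : Set (List K)) (τ : List K → K ≃o K), FixK E τ →
    ∃ σ : K ≃o K, ∀ i, nuK (s ++ [i]) E τ = nuK s E τ ++ [σ i] := by
  induction s with
  | nil =>
    intro E τ h
    refine ⟨τ [], fun i => ?_⟩
    by_cases hi : [i] ∈ E
    · rw [List.nil_append, nuK_in hi, h [] i hi]
      rfl
    · rw [List.nil_append, nuK_out hi]
      rfl
  | cons c s ih =>
    intro E τ h
    by_cases hc : [c] ∈ E
    · obtain ⟨σ, hσ⟩ := ih _ _ (h.sub c)
      refine ⟨σ, fun i => ?_⟩
      rw [List.cons_append, nuK_in hc, nuK_in hc, hσ, List.cons_append]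
    · refine ⟨OrderIso.refl K, fun i => ?_⟩
      rw [List.cons_append, nuK_out hc, nuK_out hc]
      rfl

/-- Nonempty and closed under initial segments. -/
def PCK (E : Set (List K)) : Prop := [] ∈ E ∧ ∀ s t, s <+: t → t ∈ E → s ∈ E

theorem PCK.sub {E : Set (List K)} (hE : PCK E) {i : K} (hi : [i] ∈ E) :
    PCK {s | i :: s ∈ E} :=
  ⟨hi, fun _ _ h h' => hE.2 _ _ (List.cons_prefix_cons.2 ⟨rfl, h⟩) h'⟩

theorem nuK_step_in (s : List K) : ∀ (E : Set (List K)) (τ : List K → K ≃o K), FixK E τ →
    PCK E → s ∈ E → ∀ i, nuK (s ++ [i]) E τ = s ++ [τ s i] := by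
  induction s with
  | nil =>
    intro E τ h _ _ i
    by_cases hi : [i] ∈ E
    · rw [List.nil_append, nuK_in hi, h [] i hi]
      rfl
    · rw [List.nil_append, nuK_out hi]
      rfl
  | cons c s ih =>
    intro E τ h hE hs i
    have hc : [c] ∈ E := hE.2 _ _ (by simp) hs
    rw [List.cons_append, nuK_in hc, ih _ _ (h.sub c) (hE.sub hc) hs]
    rfl

theorem nuK_fix (s : List K) : ∀ (E : Set (List K)) (τ : List K → K ≃o K),
    PCK E → s ∈ E → nuK s E τ = s := by
  induction s with
  | nil => exact fun _ _ _ _ => rfl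
  | cons c s ih =>
    intro E τ hE hs
    have hc : [c] ∈ E := hE.2 _ _ (by simp) hs
    rw [nuK_in hc, ih _ _ (hE.sub hc) hs]

open scoped Classical in
/-- The first exit from the tree. -/
noncomputable def exK : List K → Set (List K) → Option (List K × K)
  | [], _ => none
  | i :: s, E => if [i] ∈ E then (exK s {t | i :: t ∈ E}).map fun p => (i :: p.1, p.2)
      else some ([], i)

theorem exK_in {E : Set (List K)} {i : K} {s : List K} (h : [i] ∈ E) :
    exK (i :: s) E = (exK s {t | i :: t ∈ E}).map fun p => (i :: p.1, p.2) := by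
  rw [exK, if_pos h]

theorem exK_out {E : Set (List K)} {i : K} {s : List K} (h : [i] ∉ E) :
    exK (i :: s) E = some ([], i) := by
  rw [exK, if_neg h]

theorem exK_eq_none (s : List K) : ∀ E, PCK E → (exK s E = none ↔ s ∈ E) := by
  induction s with
  | nil => exact fun E hE => ⟨fun _ => hE.1, fun _ => rfl⟩
  | cons i s ih =>
    intro E hE
    by_cases h : [i] ∈ E
    · rw [exK_in h, Option.map_eq_none_iff, ih _ (hE.sub h)]
      exact Iff.rfl
    · rw [exK_out h]
      exact ⟨fun h => by simp at h, fun h' => (h (hE.2 _ _ (by simp) h')).elim⟩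

theorem exK_mono {c : List K × K} (s : List K) :
    ∀ t E, s <+: t → exK s E = some c → exK t E = some c := by
  induction s generalizing c with
  | nil => exact fun _ _ _ h => by simp [exK] at h
  | cons i s ih =>
    intro t E ht hs
    cases t with
    | nil => simp at ht
    | cons d l' =>
      obtain ⟨rfl, ht'⟩ := List.cons_prefix_cons.1 ht
      by_cases h : [i] ∈ E
      · rw [exK_in h] at hs ⊢
        obtain ⟨c', hc', rfl⟩ := Option.map_eq_some_iff.1 hs
        rw [ih _ _ ht' hc']
        rfl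
      · rw [exK_out h] at hs ⊢
        exact hs

theorem exK_spec {c : List K × K} (s : List K) :
    ∀ E, exK s E = some c → c.1 ++ [c.2] <+: s ∧ c.1 ++ [c.2] ∉ E := by
  induction s generalizing c with
  | nil => exact fun _ h => by simp [exK] at h
  | cons i s ih =>
    intro E hs
    by_cases h : [i] ∈ E
    · rw [exK_in h] at hs
      obtain ⟨c', hc', rfl⟩ := Option.map_eq_some_iff.1 hs
      obtain ⟨h1, h2⟩ := ih _ hc'
      exact ⟨List.cons_prefix_cons.2 ⟨rfl, h1⟩, h2⟩
    · rw [exK_out h, Option.some.injEq] at hs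
      subst hs
      exact ⟨by simp, h⟩

theorem exK_nuK (l : List K) : ∀ (E : Set (List K)) (τ : List K → K ≃o K), FixK E τ →
    exK (nuK l E τ) E = (exK l E).map fun p => (p.1, τ p.1 p.2) := by
  induction l with
  | nil => exact fun _ _ _ => rfl
  | cons i l ih =>
    intro E τ h
    by_cases hi : [i] ∈ E
    · rw [nuK_in hi, exK_in hi, exK_in hi, ih _ _ (h.sub i), Option.map_map, Option.map_map]
      rfl
    · rw [nuK_out hi, exK_out (h.not_mem hi), exK_out hi]
      rfl

end

/-! ### Amalgamation -/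

variable {K : Type (u+1)} [Field K] [LinearOrder K] [IsStrictOrderedRing K]

theorem small_children {D : Set (List K)} (hD : Small.{u} D) (s : List K) :
    Small.{u} {i | s ++ [i] ∈ D} := by
  have := hD
  refine small_of_injective (β := D) (f := fun i => ⟨s ++ [i.1], i.2⟩) fun i j h => ?_
  have := congrArg Subtype.val h
  exact Subtype.ext (by simpa using this)

/-- Amalgamation of a small family of good trees over a good tree. -/
theorem amalgK (hK : BddK K) {α : Type u} {D : Set (List K)} (hD : GoodK D)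
    (E : α → Set (List K)) (hE : ∀ x, GoodK (E x)) :
    ∃ (ν : α → Equiv.Perm (List K)) (F : Set (List K)), GoodK F ∧
      D ⊆ F ∧ ∀ x, IsM (ν x) ∧ (∀ a ∈ D, ν x a = a) ∧ ν x '' E x ⊆ F := by
  choose τ h1 h2 h3 using fun r : List K => exists_spread hK (J := {i | r ++ [i] ∈ D})
    (small_children hD.small r) (hD.wf r) (fun x => {i | r ++ [i] ∈ E x})
    (fun x => small_children (hE x).small r) (fun x => (hE x).wf r)
  have hfix : ∀ x, FixK D fun r => τ r x := fun x r i hi => h1 r x i hi
  have hPC : PCK D := ⟨hD.nil, hD.pre⟩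
  let ν : α → Equiv.Perm (List K) := fun x =>
    { toFun := fun a => nuK a D fun r => τ r x
      invFun := fun a => nuK a D fun r => (τ r x).symm
      left_inv := fun a => nuK_nuK a D _ (hfix x)
      right_inv := fun a => nuK_nuK a D _ (hfix x).symm }
  have hν : ∀ x a, ν x a = nuK a D fun r => τ r x := fun _ _ => rfl
  have hM : ∀ x, IsM (ν x) := fun x => ⟨rfl, fun s => nuK_step s D _ (hfix x)⟩
  have hfixD : ∀ x, ∀ a ∈ D, ν x a = a := fun x a ha => nuK_fix a D _ hPC ha
  have hg : ∀ x, GoodK (ν x '' E x) := fun x => goodK_im (hM x) (hE x)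
  have hgs : ∀ x, Small.{u} (ν x '' E x) := fun x => (hg x).small
  have hDs := hD.small
  -- the exit determines the index
  have key : ∀ (s : List K) (c : List K × K), exK s D = some c → ∀ x, s ∈ ν x '' E x →
      ∃ i, i ∈ {i | c.1 ++ [i] ∈ E x} ∧ i ∉ {i | c.1 ++ [i] ∈ D} ∧ τ c.1 x i = c.2 := by
    rintro s c hc x ⟨a, ha, rfl⟩
    rw [hν, exK_nuK _ _ _ (hfix x)] at hc
    obtain ⟨c', hc', rfl⟩ := Option.map_eq_some_iff.1 hc
    obtain ⟨h4, h5⟩ := exK_spec _ _ hc'
    exact ⟨c'.2, (hE x).pre _ _ h4 ha, h5, rfl⟩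
  have huniq : ∀ (s t : List K) (c : List K × K), exK s D = some c → exK t D = some c →
      ∀ x y, s ∈ ν x '' E x → t ∈ ν y '' E y → x = y := by
    intro s t c hs ht x y hx hy
    obtain ⟨i, hi, hi', e⟩ := key s c hs x hx
    obtain ⟨j, hj, hj', e'⟩ := key t c ht y hy
    exact h3 c.1 x y i hi hi' j hj hj' (e.trans e'.symm)
  refine ⟨ν, D ∪ ⋃ x, ν x '' E x, ?_, Set.subset_union_left, fun x => ⟨hM x, hfixD x,
    (Set.subset_iUnion (fun x => ν x '' E x) x).trans Set.subset_union_right⟩⟩
  refine ⟨inferInstance, Or.inl hD.nil, ?_, ?_, ?_⟩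
  · rintro s t hst (ht | ht)
    · exact Or.inl (hD.pre _ _ hst ht)
    · obtain ⟨x, hx⟩ := Set.mem_iUnion.1 ht
      exact Or.inr (Set.mem_iUnion.2 ⟨x, (hg x).pre _ _ hst hx⟩)
  · intro f
    by_contra hcon
    push Not at hcon
    obtain ⟨n₀, hn₀⟩ := hD.inf f
    have hx : ∀ m, n₀ ≤ m → ∃ x, (List.range m).map f ∈ ν x '' E x := by
      intro m hm
      rcases hcon m with h | h
      · exact (hD.branch f hm hn₀ h).elim
      · exact Set.mem_iUnion.1 h
    obtain ⟨c, hc⟩ : ∃ c, exK ((List.range n₀).map f) D = some c := by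
      rcases h : exK ((List.range n₀).map f) D with _ | c
      · exact (hn₀ ((exK_eq_none _ _ hPC).1 h)).elim
      · exact ⟨c, rfl⟩
    have hc' : ∀ m, n₀ ≤ m → exK ((List.range m).map f) D = some c := by
      intro m hm
      refine exK_mono _ _ _ ?_ hc
      refine List.IsPrefix.map _ ?_
      obtain ⟨k, rfl⟩ := Nat.exists_eq_add_of_le hm
      rw [List.range_add]
      exact List.prefix_append _ _
    obtain ⟨x₀, hx₀⟩ := hx n₀ le_rfl
    obtain ⟨n, hn⟩ := (hg x₀).inf f
    obtain ⟨x, hx'⟩ := hx (max n n₀) (le_max_right _ _)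
    obtain rfl := huniq _ _ c (hc' _ (le_max_right _ _)) hc x x₀ hx' hx₀
    exact (hg x).branch f (le_max_left n n₀) hn hx'
  · intro s
    by_cases hs : s ∈ D
    · refine (h2 s).mono ?_
      rintro i (hi | hi)
      · exact Or.inl hi
      · obtain ⟨x, a, ha, hx⟩ := Set.mem_iUnion.1 hi
        refine Or.inr (Set.mem_iUnion.2 ⟨x, (τ s x).symm i, ?_, OrderIso.apply_symm_apply _ _⟩)
        show s ++ [(τ s x).symm i] ∈ E x
        have h4 : ν x (s ++ [(τ s x).symm i]) = ν x a := by
          rw [hx, hν, nuK_step_in s D _ (hfix x) hPC hs, OrderIso.apply_symm_apply]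
        rwa [(ν x).injective h4]
    · have hs' : ∀ i, s ++ [i] ∉ D := fun i hi => hs (hD.pre _ _ (List.prefix_append _ _) hi)
      obtain ⟨c, hc⟩ : ∃ c, exK s D = some c := by
        rcases h : exK s D with _ | c
        · exact (hs ((exK_eq_none _ _ hPC).1 h)).elim
        · exact ⟨c, rfl⟩
      have hc' : ∀ i, exK (s ++ [i]) D = some c := fun i =>
        exK_mono _ _ _ (List.prefix_append _ _) hc
      by_cases hne : ∃ i x, s ++ [i] ∈ ν x '' E x
      · obtain ⟨i₀, x₀, hx₀⟩ := hne
        refine ((hg x₀).wf s).mono ?_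
        rintro i (hi | hi)
        · exact (hs' i hi).elim
        · obtain ⟨x, hx⟩ := Set.mem_iUnion.1 hi
          obtain rfl := huniq _ _ c (hc' i) (hc' i₀) x x₀ hx hx₀
          exact hx
      · have h4 : {i | s ++ [i] ∈ D ∪ ⋃ x, ν x '' E x} = ∅ := by
          ext i
          refine ⟨?_, fun h => h.elim⟩
          rintro (hi | hi)
          · exact hs' i hi
          · obtain ⟨x, hx⟩ := Set.mem_iUnion.1 hi
            exact hne ⟨i, x, hx⟩
        rw [h4]
        exact Set.isWF_empty

end Pool.Agent.R583.UR
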